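import Pool.Agent.N269.MX.Haus

set_option autoImplicit false

/-!
# The lower Minkowski dimension for selections computed with little memory
-/

open Set MeasureTheory
open scoped ENNReal NNReal

namespace Pool.Agent.N269.MX
open Pool.Agent.N269.AK

/-- Memory-bounded selections: full lower Minkowski dimension. -/
theorem mink {d b : ℕ} [NeZero b] (hb : 2 ≤ b) (hd : 1 ≤ d) (A : ℕ)
    (a : (Fin d → ℝ) → Fin d → ℝ) (K : Set (ℝ × (Fin d → ℝ)))
    (V : Set (Fin d → ℝ)) (hV : ∀ v ∈ V, ∀ i, v i ∈ Ico (0:ℝ) 1) (hV0 : volume V ≠ 0)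
    (hK : ∀ v ∈ V, ∃ t₁ t₂ : ℝ, t₁ < t₂ ∧
      ∀ t ∈ Icc t₁ t₂, ((t, fun i => a v i + t * v i) : ℝ × (Fin d → ℝ)) ∈ K)
    (hP : ∀ κ : ℝ, 0 < κ → ∃ r₀ : ℝ, 0 < r₀ ∧ ∀ r : ℝ, 0 < r → r < r₀ →
      ∃ (c : ℕ) (Q : Type) (δ : Q → (Fin d → Fin b) → Q) (α : Q → (Fin d → Fin b) → Fin d → ℤ)
        (L : ℕ → Finset Q) (s : Q), 1 ≤ c ∧ (c : ℝ) ≤ r ^ (-κ) ∧ (∀ s i a, |α s i a| ≤ A) ∧
        (∀ i, ∀ s ∈ L i, ∀ x, δ s x ∈ L (i + 1)) ∧ (∀ i, (L i).card ≤ c) ∧ s ∈ L 0 ∧
        ∀ v ∈ V, ∀ i, |pos b δ α s (dseq d b v) i - a v i| ≤ A * r)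
    (ε : ℝ) (hε : 0 < ε) :
    ∃ c : ℝ, 0 < c ∧ ∀ r : ℝ, 0 < r → r < 1 →
      ENNReal.ofReal (c * r ^ ε) ≤ volume (Metric.thickening r K) := by
  classical
  set n : ℝ := (d:ℝ) + 1 with hn
  have hn0 : 0 < n := by positivity
  -- a common interval
  obtain ⟨x, y, hxy, hxy1, hV1⟩ : ∃ x y : ℝ, x < y ∧ y < x + 1 ∧ volume {v ∈ V |
      ∀ t ∈ Icc x y, ((t, fun i => a v i + t * v i) : ℝ × (Fin d → ℝ)) ∈ K} ≠ 0 := by
    by_contra hno
    push Not at hno
    apply hV0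
    have h1 : V ⊆ ⋃ q : {q : ℚ × ℚ // (q.1 : ℝ) < q.2 ∧ (q.2 : ℝ) < q.1 + 1},
        {v ∈ V | ∀ t ∈ Icc (q.1.1 : ℝ) q.1.2,
          ((t, fun i => a v i + t * v i) : ℝ × (Fin d → ℝ)) ∈ K} := by
      intro v hv
      obtain ⟨t₁, t₂, h12, ht⟩ := hK v hv
      obtain ⟨q₁, hq1, hq2⟩ := exists_rat_btwn h12
      obtain ⟨q₂, hq3, hq4⟩ := exists_rat_btwn (lt_min hq2 (by linarith : (q₁:ℝ) < q₁ + 1))
      rw [mem_iUnion]
      refine ⟨⟨(q₁, q₂), hq3, hq4.trans_le (min_le_right _ _)⟩, hv, fun t htt => ht t ?_⟩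
      exact ⟨hq1.le.trans htt.1, htt.2.trans (hq4.le.trans (min_le_left _ _))⟩
    refine measure_mono_null h1 (measure_iUnion_null fun q => ?_)
    exact hno _ _ q.2.1 q.2.2
  set V' := {v ∈ V | ∀ t ∈ Icc x y, ((t, fun i => a v i + t * v i) : ℝ × (Fin d → ℝ)) ∈ K}
    with hV'
  obtain ⟨x₀, hx₀, hx₀V⟩ : ∃ x₀ : ℝ, 0 < x₀ ∧ ENNReal.ofReal x₀ ≤ volume V' := by
    have h1 : volume V' ≠ ⊤ := by
      refine ne_top_of_le_ne_top (b := volume (Icc (0 : Fin d → ℝ) 1)) ?_ (measure_mono ?_)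
      · exact isCompact_Icc.measure_lt_top.ne
      · intro v hv
        exact ⟨fun i => (hV v hv.1 i).1, fun i => (hV v hv.1 i).2.le⟩
    refine ⟨(volume V').toReal, ENNReal.toReal_pos hV1 h1, ?_⟩
    rw [ENNReal.ofReal_toReal h1]
  obtain ⟨Kx, C, hC, hmax⟩ := max_width (d := d) hb hd A (ε := ε / (4 * n)) (by positivity) hxy
  have hC0 : 0 < C := by linarith
  obtain ⟨r₀, hr₀, hP⟩ := hP (ε / (8 * n * (Kx + 1))) (by positivity)
  set B : ℝ := 2 * (A + 1) with hB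
  have hA0 : (0:ℝ) ≤ A := Nat.cast_nonneg A
  have hB2 : 2 ≤ B := by rw [hB]; linarith
  have hB0 : 0 < B := by linarith
  -- the bound for small radii
  have hsmall : ∀ r : ℝ, 0 < r → r < 1 → r < B * r₀ →
      ENNReal.ofReal ((x₀ / C ^ 2) ^ n * B ^ (-ε) * r ^ ε) ≤ volume (Metric.thickening r K) := by
    intro r hr hr1 hrB
    set s : ℝ := r / B with hs
    have hs0 : 0 < s := by positivity
    have hsr : s ≤ r := div_le_self hr.le (by linarith)
    have hs1 : s < 1 := by linarith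
    have hsr₀ : s < r₀ := by rw [hs, div_lt_iff₀ hB0]; linarith
    obtain ⟨c, Q, δ, α, L, q, hc1, hcκ, hα, hL, hLc, hq, happ⟩ := hP s hs0 hsr₀
    obtain ⟨H, hH, hmax⟩ := hmax c hc1
    obtain ⟨h, hh, hmax⟩ := hmax Q δ α hα L hL hLc q hq s hs0 hs1
    obtain ⟨hh1, hh2⟩ := hH h hh
    have hc1' : (1:ℝ) ≤ c := by exact_mod_cast hc1
    set D : ℝ := C * (c:ℝ) ^ Kx with hD
    have hcK : (1:ℝ) ≤ (c:ℝ) ^ Kx := one_le_pow₀ hc1'
    have hD1 : 1 ≤ D := by rw [hD]; nlinarith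
    have hD0 : 0 < D := by linarith
    set η : ℝ := 1 / D with hη
    have hη0 : 0 < η := by positivity
    have hη1 : η ≤ 1 := by rw [hη, div_le_one hD0]; exact hD1
    set U := Metric.thickening r K with hU
    have hUm : MeasurableSet U := Metric.isOpen_thickening.measurableSet
    obtain ⟨Ψ, hΨ1, hΨ2, hΨ3⟩ := hmax (U.indicator 1) (measurable_one.indicator hUm)
    by_cases htop : volume U = ⊤
    · rw [htop]; exact le_top
    set X : ℝ := (volume U).toReal with hX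
    have hX0 : 0 ≤ X := ENNReal.toReal_nonneg
    have hXU : ENNReal.ofReal X = volume U := ENNReal.ofReal_toReal htop
    -- the tubes
    have hVΨ : V' ⊆ {v | ENNReal.ofReal (η * (2 * s) ^ d) ≤ Ψ v} := by
      intro v hv
      refine le_trans ?_ (hΨ2 v (hV v hv.1))
      refine le_trans (le_of_eq ?_) (tub_ge (T := Icc h (h + η)) hUm measurableSet_Icc ?_ hs0.le)
      · rw [Real.volume_Icc, add_sub_cancel_left, ENNReal.ofReal_mul hη0.le]
      · intro τ hτ
        refine ⟨hτ, fun u hu => ?_⟩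
        have h1 := hv.2 τ ⟨by linarith [hτ.1], by linarith [hτ.2]⟩
        rw [hU, Metric.mem_thickening_iff]
        refine ⟨_, h1, ?_⟩
        refine lt_of_le_of_lt (b := (A + 1) * s) ?_ ?_
        · rw [Prod.dist_eq]
          refine max_le (by simp; positivity) ((dist_pi_le_iff (by positivity)).2 fun i => ?_)
          rw [Real.dist_eq]
          have h2 := hu i
          have h3 := happ v hv.1 i
          rw [abs_le] at h2 h3 ⊢
          constructor <;> [linarith [h2.1, h3.1]; linarith [h2.2, h3.2]]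
        · rw [hs, hB]
          rw [mul_div_assoc', div_lt_iff₀ (by positivity)]
          nlinarith
    have hmark : ENNReal.ofReal (η * (2 * s) ^ d) * volume V' ≤ ∫⁻ v, Ψ v :=
      (mul_le_mul_right (measure_mono hVΨ) _).trans (mul_meas_ge_le_lintegral hΨ1 _)
    have hnorm : ∫⁻ t in Icc h (h + η), (∫⁻ y, U.indicator (1 : ℝ × (Fin d → ℝ) → ℝ≥0∞) (t, y) ^
        ((d:ℝ) + 1)) ^ (1 / ((d:ℝ) + 1)) ≤ ENNReal.ofReal (X ^ (1 / n)) := by
      refine (mixed_le (measurable_one.indicator hUm) hη1).trans ?_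
      rw [← ENNReal.ofReal_rpow_of_nonneg hX0 (by positivity)]
      refine ENNReal.rpow_le_rpow ?_ (by positivity)
      rw [hXU, ← lintegral_indicator_one hUm]
      refine le_of_eq (lintegral_congr fun z => ?_)
      by_cases hz : z ∈ U
      · rw [indicator_of_mem hz, Pi.one_apply, ENNReal.one_rpow]
      · rw [indicator_of_notMem hz, ENNReal.zero_rpow_of_pos (by positivity)]
    have hfinal : ENNReal.ofReal (η * (2 * s) ^ d * x₀) ≤ ENNReal.ofReal (s ^ d *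
        ((D * s ^ (-(ε / (4 * n)))) * X ^ (1 / n))) := by
      rw [ENNReal.ofReal_mul (by positivity), ENNReal.ofReal_mul (p := s ^ d) (by positivity),
        ENNReal.ofReal_mul (p := D * s ^ (-(ε / (4 * n)))) (by positivity)]
      exact (mul_le_mul_right hx₀V _).trans
        (hmark.trans (hΨ3.trans (mul_le_mul_right (mul_le_mul_right hnorm _) _)))
    have hfinal2 := (ENNReal.ofReal_le_ofReal_iff (by positivity)).1 hfinal
    have hsd : 0 < s ^ d := by positivity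
    have h2d : (1:ℝ) ≤ 2 ^ d := one_le_pow₀ (by norm_num)
    have e1 : η * x₀ ≤ D * s ^ (-(ε / (4 * n))) * X ^ (1 / n) := by
      refine le_of_mul_le_mul_left ?_ hsd
      calc s ^ d * (η * x₀) ≤ 2 ^ d * (s ^ d * (η * x₀)) :=
            le_mul_of_one_le_left (by positivity) h2d
        _ = η * (2 * s) ^ d * x₀ := by rw [mul_pow]; ring
        _ ≤ _ := hfinal2
    have hcKs : (c:ℝ) ^ Kx ≤ s ^ (-(ε / (8 * n))) := by
      calc (c:ℝ) ^ Kx ≤ (s ^ (-(ε / (8 * n * (Kx + 1))))) ^ Kx :=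
            pow_le_pow_left₀ (by positivity) hcκ _
        _ = s ^ (-(ε / (8 * n * (Kx + 1))) * Kx) := by
            rw [← Real.rpow_natCast, ← Real.rpow_mul hs0.le]
        _ ≤ s ^ (-(ε / (8 * n))) := by
            refine Real.rpow_le_rpow_of_exponent_ge hs0 hs1.le ?_
            rw [neg_mul, neg_le_neg_iff, div_mul_eq_mul_div, div_le_div_iff₀ (by positivity)
              (by positivity)]
            have : (0:ℝ) ≤ Kx := Nat.cast_nonneg _
            nlinarith [mul_pos hε hn0]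
    have e2 : x₀ ≤ C ^ 2 * s ^ (-(ε / (2 * n))) * X ^ (1 / n) := by
      have f1 : x₀ ≤ D * (D * s ^ (-(ε / (4 * n))) * X ^ (1 / n)) := by
        calc x₀ = D * (η * x₀) := by rw [hη]; field_simp
          _ ≤ _ := mul_le_mul_of_nonneg_left e1 hD0.le
      have f2 : D ≤ C * s ^ (-(ε / (8 * n))) := by
        rw [hD]
        exact mul_le_mul_of_nonneg_left hcKs hC0.le
      have f3 : 0 ≤ s ^ (-(ε / (4 * n))) * X ^ (1 / n) := by positivity
      calc x₀ ≤ D * (D * s ^ (-(ε / (4 * n))) * X ^ (1 / n)) := f1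
        _ = D * D * (s ^ (-(ε / (4 * n))) * X ^ (1 / n)) := by ring
        _ ≤ (C * s ^ (-(ε / (8 * n)))) * (C * s ^ (-(ε / (8 * n)))) *
            (s ^ (-(ε / (4 * n))) * X ^ (1 / n)) :=
            mul_le_mul_of_nonneg_right (mul_le_mul f2 f2 hD0.le (by positivity)) f3
        _ = C ^ 2 * (s ^ (-(ε / (8 * n))) * s ^ (-(ε / (8 * n))) * s ^ (-(ε / (4 * n)))) *
            X ^ (1 / n) := by ring
        _ = _ := by
            rw [← Real.rpow_add hs0, ← Real.rpow_add hs0]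
            congr 3
            field_simp
            ring
    have e3 : x₀ / C ^ 2 * s ^ (ε / (2 * n)) ≤ X ^ (1 / n) := by
      have f4 : s ^ (-(ε / (2 * n))) * s ^ (ε / (2 * n)) = 1 := by
        rw [← Real.rpow_add hs0, neg_add_cancel, Real.rpow_zero]
      rw [div_mul_eq_mul_div, div_le_iff₀ (by positivity)]
      calc x₀ * s ^ (ε / (2 * n)) ≤ C ^ 2 * s ^ (-(ε / (2 * n))) * X ^ (1 / n) *
            s ^ (ε / (2 * n)) := mul_le_mul_of_nonneg_right e2 (by positivity)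
        _ = C ^ 2 * (s ^ (-(ε / (2 * n))) * s ^ (ε / (2 * n))) * X ^ (1 / n) := by ring
        _ = _ := by rw [f4]; ring
    have e4 : (x₀ / C ^ 2) ^ n * s ^ (ε / 2) ≤ X := by
      have f5 := Real.rpow_le_rpow (by positivity) e3 hn0.le
      rw [Real.mul_rpow (by positivity) (by positivity), ← Real.rpow_mul hs0.le,
        ← Real.rpow_mul hX0] at f5
      have f6 : 1 / n * n = 1 := by field_simp
      have f7 : ε / (2 * n) * n = ε / 2 := by field_simp
      rw [f6, f7, Real.rpow_one] at f5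
      exact f5
    have e5 : B ^ (-ε) * r ^ ε ≤ s ^ (ε / 2) := by
      have f8 : s ^ ε = B ^ (-ε) * r ^ ε := by
        rw [hs, Real.div_rpow hr.le hB0.le, Real.rpow_neg hB0.le]
        field_simp
      rw [← f8]
      exact Real.rpow_le_rpow_of_exponent_ge hs0 hs1.le (by linarith)
    rw [← hXU]
    refine ENNReal.ofReal_le_ofReal ?_
    calc (x₀ / C ^ 2) ^ n * B ^ (-ε) * r ^ ε = (x₀ / C ^ 2) ^ n * (B ^ (-ε) * r ^ ε) := by ring
      _ ≤ (x₀ / C ^ 2) ^ n * s ^ (ε / 2) := mul_le_mul_of_nonneg_left e5 (by positivity)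
      _ ≤ X := e4
  -- all radii
  set r₁ : ℝ := min (B * r₀) 1 / 2 with hr₁
  have hm0 : 0 < min (B * r₀) 1 := lt_min (by positivity) one_pos
  have hr₁0 : 0 < r₁ := by positivity
  have hr₁1 : r₁ < 1 := by
    have := min_le_right (B * r₀) 1
    rw [hr₁]; linarith
  have hr₁B : r₁ < B * r₀ := by
    have := min_le_left (B * r₀) 1
    rw [hr₁]; linarith
  have hc₁ : 0 < (x₀ / C ^ 2) ^ n * B ^ (-ε) := by positivity
  have hr₁ε : r₁ ^ ε ≤ 1 := Real.rpow_le_one hr₁0.le hr₁1.le hε.le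
  refine ⟨(x₀ / C ^ 2) ^ n * B ^ (-ε) * r₁ ^ ε, by positivity, fun r hr hr1 => ?_⟩
  rcases lt_or_ge r (B * r₀) with hlt | hge
  · refine le_trans (ENNReal.ofReal_le_ofReal ?_) (hsmall r hr hr1 hlt)
    refine mul_le_mul_of_nonneg_right ?_ (by positivity)
    exact mul_le_of_le_one_right hc₁.le hr₁ε
  · have h1 := hsmall r₁ hr₁0 hr₁1 hr₁B
    refine le_trans (ENNReal.ofReal_le_ofReal ?_)
      (h1.trans (measure_mono (Metric.thickening_mono (by linarith) K)))
    have : r ^ ε ≤ 1 := Real.rpow_le_one hr.le hr1.le hε.le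
    exact mul_le_of_le_one_right (by positivity) this

end Pool.Agent.N269.MX
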