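import Pool.Agent.N269.AK.Main
import Pool.Agent.N269.MX.Mink

set_option autoImplicit false

/-!
# Neighbourhoods and affine maps
-/

open Set MeasureTheory
open scoped ENNReal NNReal

namespace Pool.Agent.N269.MX
open Pool.Agent.N269.AK

theorem pt_mp (d : ℕ) : MeasurePreserving
    (fun z : ℝ × (Fin d → ℝ) => (pt z.1 z.2 : EuclideanSpace ℝ (Fin (d + 1)))) := by
  have h1 := (volume_preserving_piFinSuccAbove (fun _ : Fin (d + 1) => ℝ) 0).symm
  have h2 := (PiLp.volume_preserving_toLp (Fin (d + 1))).comp h1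
  convert h2 using 1
  funext z
  unfold pt
  rw [Function.comp_apply]
  congr 1
  funext i
  have h3 : (MeasurableEquiv.piFinSuccAbove (fun _ : Fin (d + 1) => ℝ) 0).symm z =
      Fin.insertNth (α := fun _ => ℝ) 0 z.1 z.2 := rfl
  rw [h3, Fin.insertNth_zero']

theorem pt_lip (d : ℕ) : ∃ L : ℝ≥0, LipschitzWith L
    (fun z : ℝ × (Fin d → ℝ) => (pt z.1 z.2 : EuclideanSpace ℝ (Fin (d + 1)))) := by
  let T : (ℝ × (Fin d → ℝ)) →ₗ[ℝ] EuclideanSpace ℝ (Fin (d + 1)) :=
    { toFun := fun z => pt z.1 z.2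
      map_add' := fun z z' => by
        unfold pt
        rw [← WithLp.toLp_add]
        congr 1
        funext i
        refine Fin.cases ?_ (fun j => ?_) i <;> simp
      map_smul' := fun c z => by
        unfold pt
        rw [RingHom.id_apply, ← WithLp.toLp_smul]
        congr 1
        funext i
        refine Fin.cases ?_ (fun j => ?_) i <;> simp }
  exact ⟨_, (LinearMap.toContinuousLinearMap T).lipschitz⟩

theorem thick_vol {d : ℕ} (F : EuclideanSpace ℝ (Fin (d + 1)) ≃ᵃ[ℝ] EuclideanSpace ℝ (Fin (d + 1)))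
    (K : Set (EuclideanSpace ℝ (Fin (d + 1)))) :
    ∃ L κ : ℝ, 1 ≤ L ∧ 0 < κ ∧ ∀ r : ℝ, 0 < r →
      volume (Metric.thickening (r / L)
        ((fun z : ℝ × (Fin d → ℝ) => pt z.1 z.2) ⁻¹' (F '' K))) ≤
      ENNReal.ofReal κ * volume (Metric.thickening r K) := by
  obtain ⟨L₁, hL₁⟩ := pt_lip d
  set e := F.linear.toContinuousLinearEquiv with he
  have hF : ∀ x, F x = e x + F 0 := by
    intro x
    have h1 := F.map_vadd 0 x
    simp only [vadd_eq_add, add_zero] at h1
    exact h1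
  have hanti := e.antilipschitz
  set L₂ : ℝ≥0 := ‖(e.symm : EuclideanSpace ℝ (Fin (d + 1)) →L[ℝ] EuclideanSpace ℝ (Fin (d + 1)))‖₊
    with hL₂
  have hdet : 0 < |LinearMap.det (e : EuclideanSpace ℝ (Fin (d + 1)) →ₗ[ℝ]
      EuclideanSpace ℝ (Fin (d + 1)))| := by
    rw [abs_pos]
    exact (LinearEquiv.isUnit_det' e.toLinearEquiv).ne_zero
  refine ⟨max 1 (L₂ * L₁), _, le_max_left _ _, hdet, fun r hr => ?_⟩
  set U := Metric.thickening r K with hU
  have hUo : IsOpen U := Metric.isOpen_thickening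
  have hFU : F '' U = (fun x => x + F 0) '' (e '' U) := by
    rw [image_image]
    exact image_congr fun x _ => hF x
  have hvol : volume (F '' U) = ENNReal.ofReal |LinearMap.det (e : EuclideanSpace ℝ (Fin (d + 1))
      →ₗ[ℝ] EuclideanSpace ℝ (Fin (d + 1)))| * volume U := by
    rw [hFU, image_add_right, measure_preimage_add_right,
      Measure.addHaar_image_continuousLinearEquiv]
  have hopen : IsOpen (F '' U) := by
    rw [hFU, image_add_right]
    exact (e.toHomeomorph.isOpen_image.2 hUo).preimage (by fun_prop)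
  rw [← hvol, ← (pt_mp d).measure_preimage hopen.measurableSet.nullMeasurableSet]
  refine measure_mono fun z hz => ?_
  obtain ⟨z', hz', hzz⟩ := Metric.mem_thickening_iff.1 hz
  obtain ⟨x, hxK, hx⟩ := hz'
  refine ⟨F.symm (pt z.1 z.2), ?_, by simp⟩
  rw [hU, Metric.mem_thickening_iff]
  refine ⟨x, hxK, ?_⟩
  have h1 : dist (F.symm (pt z.1 z.2)) x ≤ L₂ * dist (e (F.symm (pt z.1 z.2))) (e x) :=
    hanti.le_mul_dist _ _
  have h2 : dist (e (F.symm (pt z.1 z.2))) (e x) = dist (pt z.1 z.2) (pt z'.1 z'.2) := by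
    rw [← dist_add_right (e (F.symm (pt z.1 z.2))) (e x) (F 0), ← hF, ← hF,
      AffineEquiv.apply_symm_apply]
    simp only at hx
    rw [hx]
  have h3 : dist (pt z.1 z.2) (pt z'.1 z'.2) ≤ L₁ * dist z z' := hL₁.dist_le_mul z z'
  have hL0 : 0 < max 1 ((L₂ : ℝ) * L₁) := lt_max_of_lt_left one_pos
  rw [lt_div_iff₀ hL0] at hzz
  calc dist (F.symm (pt z.1 z.2)) x ≤ L₂ * (L₁ * dist z z') := by
        rw [h2] at h1
        exact h1.trans (mul_le_mul_of_nonneg_left h3 L₂.2)
    _ = dist z z' * (L₂ * L₁) := by ring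
    _ ≤ dist z z' * max 1 (L₂ * L₁) := mul_le_mul_of_nonneg_left (le_max_right _ _) dist_nonneg
    _ < r := hzz

end Pool.Agent.N269.MX
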