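import Pool.Agent.N269.MX.Prog

set_option autoImplicit false

/-!
# Progressions with all common differences: covering numbers
-/

open Finset MeasureTheory
open scoped ENNReal

namespace Pool.Agent.N269.MX
open Pool.Agent.N269.AK

/-- Many words meet a set of positive outer measure. -/
theorem many_words {d b : ℕ} [NeZero b] (hb : 2 ≤ b) {V : Set (Fin d → ℝ)}
    (hV : ∀ v ∈ V, ∀ i, v i ∈ Set.Ico (0:ℝ) 1) {x₀ : ℝ} (hx₀ : ENNReal.ofReal x₀ ≤ volume V)
    (n : ℕ) (W : Finset (Fin n → Fin d → Fin b)) (hW : ∀ v ∈ V, pre n (dseq d b v) ∈ W) :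
    x₀ * ((b:ℝ) ^ n) ^ d ≤ W.card := by
  classical
  have hb0 : (0:ℝ) < b := by positivity
  set N : ℝ := (b:ℝ) ^ n with hN
  have hN0 : 0 < N := by positivity
  set D : (Fin n → Fin d → Fin b) → Fin d → ℝ := fun w a => (vD b (dg d b) n w a : ℝ) with hD
  set Bx : (Fin n → Fin d → Fin b) → Set (Fin d → ℝ) := fun w =>
    Set.Icc (fun a => D w a / N) (fun a => (D w a + 1) / N) with hBx
  have hBv : ∀ w, volume (Bx w) = ENNReal.ofReal ((N⁻¹) ^ d) := by
    intro w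
    rw [hBx]
    simp only
    rw [Real.volume_Icc_pi]
    have h1 : ∀ a : Fin d, (D w a + 1) / N - D w a / N = N⁻¹ := fun a => by
      field_simp
      ring
    simp only [h1]
    rw [prod_const, card_univ, Fintype.card_fin, ENNReal.ofReal_pow (by positivity)]
  have hcov : V ⊆ ⋃ w ∈ W, Bx w := by
    intro v hv
    refine Set.mem_iUnion₂.2 ⟨_, hW v hv, ?_⟩
    refine ⟨fun a => ?_, fun a => ?_⟩
    · show D _ a / N ≤ v a
      rw [div_le_iff₀ hN0, mul_comm]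
      exact (trunc_slo hb (hV v hv) n a).1
    · show v a ≤ (D _ a + 1) / N
      rw [le_div_iff₀ hN0, mul_comm]
      exact (trunc_slo hb (hV v hv) n a).2
  have h1 : ENNReal.ofReal x₀ ≤ ENNReal.ofReal (W.card * (N⁻¹) ^ d) := by
    refine hx₀.trans ((measure_mono hcov).trans ((measure_biUnion_finset_le _ _).trans ?_))
    simp only [hBv]
    rw [sum_const, nsmul_eq_mul, ENNReal.ofReal_mul (by positivity), ENNReal.ofReal_natCast]
  have h2 := (ENNReal.ofReal_le_ofReal_iff (by positivity)).1 h1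
  calc x₀ * N ^ d ≤ (W.card * (N⁻¹) ^ d) * N ^ d :=
        mul_le_mul_of_nonneg_right h2 (by positivity)
    _ = W.card := by rw [inv_pow]; field_simp

/-- **Covering numbers** of sets which contain the `b^m`-term progressions. -/
theorem akc {d b : ℕ} [NeZero b] (hb : 2 ≤ b) (hd : 1 ≤ d) :
    ∃ (K₀ E : ℕ), ∀ {Q X : Type} (δ : Q → (Fin d → Fin b) → Q)
      (α : Q → (Fin d → Fin b) → Fin d → ℤ) (m N A₀ : ℕ), 1 ≤ m → (∀ s i a, |α s i a| ≤ A₀) →
      ∀ (T : ℕ → Finset ((Fin m → Fin d → Fin b) → Fin d → ℤ)) (s : Q),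
      (∀ k, ∀ w : Fin (m * k) → Fin d → Fin b, vA b δ α (sS δ s (m * k) w) m ∈ T k) →
      (∀ k, (T k).card ≤ N) → ∀ (φ : X → Fin d → ℝ) (B : Set X) (V : Set (Fin d → ℝ)),
      (∀ v ∈ V, ∀ i, v i ∈ Set.Ico (0:ℝ) 1) → volume V ≠ 0 →
      (∀ v ∈ V, ∀ i : ℕ, i < b ^ m → ∃ x ∈ B, φ x =
        fun j => pos b δ α s (dseq d b v) j + i * v j) →
      ∃ c : ℝ, 0 < c ∧ ∀ (J : ℕ) (S : Finset (Set X)), B ⊆ ⋃ Y ∈ S, Y →
        (∀ Y ∈ S, ∀ x ∈ Y, ∀ y ∈ Y, ∀ j, |φ x j - φ y j| ≤ ((b:ℝ) ^ (m * J))⁻¹) →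
        c * ((b:ℝ) ^ (d * m)) ^ J ≤
          (S.card : ℝ) * ((N:ℝ) ^ (d + 1) * ((K₀ * m ^ E : ℕ) : ℝ) ^ d) ^ J := by
  classical
  obtain ⟨K₀, E, hint⟩ := int_height (d := d) hb hd
  refine ⟨K₀, E, ?_⟩
  intro Q X δ α m N A₀ hm hα T s hT hN φ B V hV hV0 h
  have hne : Nonempty (Fin d → Fin b) := ⟨fun _ => ⟨0, by omega⟩⟩
  have hb0 : (0:ℝ) < b := by positivity
  obtain ⟨x₀, hx₀, hx₀V⟩ : ∃ x₀ : ℝ, 0 < x₀ ∧ ENNReal.ofReal x₀ ≤ volume V := by
    have h1 : volume V ≠ ⊤ := by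
      refine ne_top_of_le_ne_top (b := volume (Set.Icc (0 : Fin d → ℝ) 1)) ?_ (measure_mono ?_)
      · exact isCompact_Icc.measure_lt_top.ne
      · intro v hv
        exact ⟨fun i => (hV v hv i).1, fun i => (hV v hv i).2.le⟩
    refine ⟨(volume V).toReal, ENNReal.toReal_pos hV0 h1, ?_⟩
    rw [ENNReal.ofReal_toReal h1]
  set R : ℕ := 1 + 2 * (A₀ + b ^ m) with hR
  have hR0 : (0:ℝ) < ((2 * R + 1) ^ d : ℕ) := by positivity
  refine ⟨x₀ ^ (d + 1) / ((2 * R + 1) ^ d : ℕ), by positivity, fun J S hBS hS => ?_⟩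
  obtain ⟨t₀, ht₀, hval⟩ := hint δ α m N hm T s hT hN J
  set n := m * J with hn
  set W : Finset (Fin n → Fin d → Fin b) :=
    univ.filter fun w => ∃ v ∈ V, pre n (dseq d b v) = w with hW
  have hWc := many_words hb hV hx₀V n W (fun v hv => by
    rw [hW, mem_filter]
    exact ⟨mem_univ _, v, hv, rfl⟩)
  set I := W.image (vZ b δ α (dg d b) 1 t₀ s n) with hI
  -- a set of the cover for every value
  have hch : ∀ z : Fin d → ℤ, ∃ Y : Set X, z ∈ I → Y ∈ S ∧ ∃ x ∈ Y, ∀ j,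
      |(b:ℝ) ^ n * φ x j - z j| ≤ A₀ + b ^ m := by
    intro z
    by_cases hz : z ∈ I
    · rw [hI, mem_image] at hz
      obtain ⟨w, hw, rfl⟩ := hz
      rw [hW, mem_filter] at hw
      obtain ⟨-, v, hv, rfl⟩ := hw
      obtain ⟨x, hxB, hx⟩ := h v hv t₀ ht₀
      obtain ⟨Y, hY, hxY⟩ := Set.mem_iUnion₂.1 (hBS hxB)
      refine ⟨Y, fun _ => ⟨hY, x, hxY, fun j => ?_⟩⟩
      rw [hx]
      have e1 := trunc_pos hb δ α hα s (dseq d b v) n j
      obtain ⟨e2, e3⟩ := trunc_slo hb (hV v hv) n j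
      unfold vZ
      push_cast
      have e4 : (b:ℝ) ^ n * (pos b δ α s (dseq d b v) j + t₀ * v j) -
          (1 * (vA b δ α s n (pre n (dseq d b v)) j : ℝ) +
            t₀ * (vD b (dg d b) n (pre n (dseq d b v)) j : ℝ)) =
          ((b:ℝ) ^ n * pos b δ α s (dseq d b v) j - (vA b δ α s n (pre n (dseq d b v)) j : ℝ)) +
          t₀ * ((b:ℝ) ^ n * v j - (vD b (dg d b) n (pre n (dseq d b v)) j : ℝ)) := by ring
      rw [e4]
      refine (abs_add_le _ _).trans (add_le_add e1 ?_)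
      rw [abs_of_nonneg (mul_nonneg (Nat.cast_nonneg _) (by linarith))]
      have e5 : (t₀ : ℝ) ≤ (b:ℝ) ^ m := by exact_mod_cast ht₀.le
      calc (t₀ : ℝ) * ((b:ℝ) ^ n * v j - (vD b (dg d b) n (pre n (dseq d b v)) j : ℝ))
          ≤ (b:ℝ) ^ m * 1 := mul_le_mul e5 (by linarith) (by linarith) (by positivity)
        _ = _ := mul_one _
    · exact ⟨∅, fun h => absurd h hz⟩
  choose Y hY using hch
  have hIS : I.card ≤ (2 * R + 1) ^ d * S.card := by
    refine (card_le_mul_card_image (f := Y) I ((2 * R + 1) ^ d) ?_).trans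
      (Nat.mul_le_mul_left _ (card_le_card ?_))
    · intro Y₀ hY₀
      rw [mem_image] at hY₀
      obtain ⟨z₀, hz₀, rfl⟩ := hY₀
      refine le_trans (card_le_card (t := Finset.Icc (fun j => z₀ j - R) (fun j => z₀ j + R)) ?_)
        (le_of_eq ?_)
      · intro z hz
        rw [mem_filter] at hz
        obtain ⟨hzI, hzY⟩ := hz
        obtain ⟨hS1, x, hx, hx1⟩ := hY z hzI
        obtain ⟨hS2, x', hx', hx2⟩ := hY z₀ hz₀
        rw [hzY] at hx hS1
        have h3 : ∀ j, |z j - z₀ j| ≤ R := by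
          intro j
          have e1 := hx1 j
          have e2 := hx2 j
          have e3 := hS _ hS1 x hx x' hx' j
          have e4 : |(b:ℝ) ^ n * (φ x j - φ x' j)| ≤ 1 := by
            rw [abs_mul, abs_of_pos (by positivity)]
            calc (b:ℝ) ^ n * |φ x j - φ x' j| ≤ (b:ℝ) ^ n * ((b:ℝ) ^ n)⁻¹ :=
                  mul_le_mul_of_nonneg_left e3 (by positivity)
              _ = 1 := mul_inv_cancel₀ (by positivity)
          have e5 : |(z j : ℝ) - z₀ j| ≤ R := by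
            have e6 : (z j : ℝ) - z₀ j = -((b:ℝ) ^ n * φ x j - z j) +
              (b:ℝ) ^ n * (φ x j - φ x' j) + ((b:ℝ) ^ n * φ x' j - z₀ j) := by ring
            rw [e6, hR]
            push_cast
            refine (abs_add_le _ _).trans ?_
            have := abs_add_le (-((b:ℝ) ^ n * φ x j - z j)) ((b:ℝ) ^ n * (φ x j - φ x' j))
            rw [abs_neg] at this
            linarith
          exact_mod_cast e5
        rw [Finset.mem_Icc]
        constructor <;> intro j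
        · have := (abs_le.1 (h3 j)).1
          show z₀ j - R ≤ z j
          linarith
        · have := (abs_le.1 (h3 j)).2
          show z j ≤ z₀ j + R
          linarith
      · rw [Pi.card_Icc]
        simp only [Int.card_Icc]
        have : ∀ j : Fin d, (z₀ j + R + 1 - (z₀ j - R)).toNat = 2 * R + 1 := fun j => by
          omega
        simp only [this]
        rw [prod_const, card_univ, Fintype.card_fin]
    · intro Y₀ hY₀
      rw [mem_image] at hY₀
      obtain ⟨z₀, hz₀, rfl⟩ := hY₀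
      exact (hY z₀ hz₀).1
  have hval' := hval W
  rw [← hI] at hval'
  have hIS' : (I.card : ℝ) ≤ ((2 * R + 1) ^ d : ℕ) * S.card := by exact_mod_cast hIS
  set Z : ℝ := (N:ℝ) ^ (d + 1) * ((K₀ * m ^ E : ℕ) : ℝ) ^ d with hZ
  have hZ0 : 0 ≤ Z := by positivity
  set β : ℝ := (b:ℝ) ^ (d * m) with hβ
  have hβ0 : 0 < β := by positivity
  have hbn : ((b:ℝ) ^ n) ^ d = β ^ J := by
    rw [hβ, hn, ← pow_mul, ← pow_mul]
    congr 1
    ring
  rw [hbn] at hWc
  have h5 : x₀ ^ (d + 1) * (β ^ J) ^ (d + 1) ≤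
      (((2 * R + 1) ^ d : ℕ) * S.card) * (Z * β ^ d) ^ J := by
    calc x₀ ^ (d + 1) * (β ^ J) ^ (d + 1) = (x₀ * β ^ J) ^ (d + 1) := (mul_pow _ _ _).symm
      _ ≤ (W.card : ℝ) ^ (d + 1) := pow_le_pow_left₀ (by positivity) hWc _
      _ ≤ (I.card : ℝ) * (Z * β ^ d) ^ J := hval'
      _ ≤ _ := mul_le_mul_of_nonneg_right hIS' (by positivity)
  have h6 : x₀ ^ (d + 1) * (β ^ J) ^ (d + 1) = (β ^ d) ^ J * (x₀ ^ (d + 1) * β ^ J) := by
    rw [pow_succ (β ^ J) d, ← pow_mul, ← pow_mul, mul_comm J d]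
    ring
  rw [h6, mul_pow] at h5
  have h7 : x₀ ^ (d + 1) * β ^ J ≤ ((2 * R + 1) ^ d : ℕ) * (S.card * Z ^ J) := by
    refine le_of_mul_le_mul_left (a := (β ^ d) ^ J) ?_ (by positivity)
    refine h5.trans (le_of_eq ?_)
    ring
  rw [div_mul_eq_mul_div, div_le_iff₀ hR0]
  linarith

end Pool.Agent.N269.MX
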