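import Pool.Agent.N269.MX.Discrete

set_option autoImplicit false

/-!
# Infinitely many states, few types of blocks
-/

open Finset Filter Topology

namespace Pool.Agent.N269.MX
open Pool.Agent.N269.AK

section
variable {Q ι : Type} [Fintype ι] [Nonempty ι] {d M : ℕ}

/-- The residue of a pair (type, word). -/
noncomputable def resT (M : ℕ) (dig : ι → Fin d → ℤ) (m : ℕ) (t₀ : ZMod (M ^ m))
    (z : ((Fin m → ι) → Fin d → ℤ) × (Fin m → ι)) (a : Fin d) : ZMod (M ^ m) :=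
  ((z.1 z.2 a : ℤ) : ZMod (M ^ m)) + t₀ * ((vD M dig m z.2 a : ℤ) : ZMod (M ^ m))

/-- The power sum of the multiplicities of the residues, over the types in `T`. -/
noncomputable def RT (θ : ℝ) (M : ℕ) (dig : ι → Fin d → ℤ) (m : ℕ)
    (T : Finset ((Fin m → ι) → Fin d → ℤ)) (t₀ : ZMod (M ^ m)) : ℝ :=
  pw θ (T ×ˢ (univ : Finset (Fin m → ι))) (resT M dig m t₀)

/-- The mean of the power sums over the heights modulo `M^m`. -/
theorem RT_sum (hd : 1 ≤ d) (hM : 2 ≤ M) {C D m : ℕ} (hm : 1 ≤ m) [NeZero (M ^ m)]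
    (hMx : Mx (ZMod (M ^ m)) d C D)
    {dig : ι → Fin d → ℤ} (hdig : ∀ i i', (∀ a, (M:ℤ) ∣ dig i a - dig i' a) → i = i')
    {T : Finset ((Fin m → ι) → Fin d → ℤ)} {c : ℝ} (hc : (T.card : ℝ) ≤ c) :
    ∑ t₀ : ZMod (M ^ m), RT (1 / (d:ℝ)) M dig m T t₀ ≤
      c ^ (1 + 1 / (d:ℝ)) * (2 * (C * (M * m) ^ D) * ((Fintype.card ι : ℝ) ^ m * (M:ℝ) ^ m)) := by
  classical
  have hd0 : (0:ℝ) < d := by exact_mod_cast hd
  set θ : ℝ := 1 / (d:ℝ) with hθ
  have hθ0 : 0 ≤ θ := by rw [hθ]; positivity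
  have hc0 : 0 ≤ c := le_trans (Nat.cast_nonneg _) hc
  have hM0 : (M:ℤ) ≠ 0 := by positivity
  have hcast : ∀ u v : ℤ, ((u : ZMod (M ^ m)) = (v : ZMod (M ^ m))) ↔ (M:ℤ) ^ m ∣ u - v := by
    intro u v
    rw [← sub_eq_zero, ← Int.cast_sub, ZMod.intCast_zmod_eq_zero_iff_dvd]
    push_cast
    rfl
  let S : (Fin m → ι) → Fin d → ZMod (M ^ m) := fun w a => ((vD M dig m w a : ℤ) : ZMod (M ^ m))
  have hS : Function.Injective S := by
    intro w w' h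
    have h1 := hor_inj hM0 hdig m (ext w) (ext w') (fun a => (hcast _ _).1 (congrFun h a))
    funext i
    rw [← ext_apply w i, ← ext_apply w' i]
    exact h1 i i.2
  have hJ : Fintype.card (ZMod (M ^ m)) < 2 ^ (M * m) := by
    rw [ZMod.card, pow_mul]
    exact Nat.pow_lt_pow_left Nat.lt_two_pow_self (by omega)
  have hJ1 : 1 ≤ M * m := Nat.mul_pos (by omega) hm
  have h1 : ∀ s : (Fin m → ι) → Fin d → ℤ, ∑ t₀ : ZMod (M ^ m),
      pw θ (univ : Finset (Fin m → ι)) (fun w => resT M dig m t₀ (s, w)) ≤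
      2 * (C * (M * m) ^ D) * ((Fintype.card ι : ℝ) ^ m * (M:ℝ) ^ m) := by
    intro s
    have h2 := ring_pw hd hMx hJ1 hJ
      (fun (w : Fin m → ι) a => ((s w a : ℤ) : ZMod (M ^ m))) S hS
    rw [Fintype.card_fun, Fintype.card_fin, ZMod.card] at h2
    push_cast at h2
    exact h2
  have h2 : ∀ t₀ : ZMod (M ^ m), RT θ M dig m T t₀ ≤
      ∑ s ∈ T, c ^ θ * pw θ (univ : Finset (Fin m → ι)) (fun w => resT M dig m t₀ (s, w)) := by
    intro t₀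
    unfold RT
    refine (pw_fib hθ0 Prod.fst T (fun z hz => (mem_product.1 hz).1)
      (fun _ => (T.card : ℝ)) (fun z hz => ?_)).trans ?_
    · exact_mod_cast card_le_card fun u hu => (mem_fl.1 hu).1
    · refine sum_le_sum fun s hs => ?_
      refine mul_le_mul (Real.rpow_le_rpow (Nat.cast_nonneg _) hc hθ0) ?_ (pw_nonneg _ _ _)
        (Real.rpow_nonneg hc0 _)
      refine pw_le_of_inj hθ0 Prod.snd (fun z _ => mem_univ _) ?_ ?_
      · intro z hz z' hz' h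
        rw [mem_fl] at hz hz'
        exact Prod.ext (hz.2.trans hz'.2.symm) h
      · intro z hz z' hz' h
        rw [mem_fl] at hz hz'
        obtain ⟨s1, w⟩ := z
        obtain ⟨s2, w'⟩ := z'
        have e1 := hz.2
        have e2 := hz'.2
        simp only at e1 e2
        subst e1 e2
        exact h
  calc ∑ t₀ : ZMod (M ^ m), RT θ M dig m T t₀
      ≤ ∑ t₀ : ZMod (M ^ m), ∑ s ∈ T,
          c ^ θ * pw θ (univ : Finset (Fin m → ι)) (fun w => resT M dig m t₀ (s, w)) :=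
        sum_le_sum fun t₀ _ => h2 t₀
    _ = c ^ θ * ∑ s ∈ T, ∑ t₀ : ZMod (M ^ m),
          pw θ (univ : Finset (Fin m → ι)) (fun w => resT M dig m t₀ (s, w)) := by
        rw [sum_comm, mul_sum]
        exact sum_congr rfl fun s _ => (mul_sum _ _ _).symm
    _ ≤ c ^ θ * ∑ _s ∈ T, 2 * (C * (M * m) ^ D) * ((Fintype.card ι : ℝ) ^ m * (M:ℝ) ^ m) :=
        mul_le_mul_of_nonneg_left (sum_le_sum fun s _ => h1 s) (Real.rpow_nonneg hc0 _)
    _ ≤ c ^ θ * (c * (2 * (C * (M * m) ^ D) * ((Fintype.card ι : ℝ) ^ m * (M:ℝ) ^ m))) := by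
        rw [sum_const, nsmul_eq_mul]
        refine mul_le_mul_of_nonneg_left ?_ (Real.rpow_nonneg hc0 _)
        exact mul_le_mul_of_nonneg_right hc (by positivity)
    _ = _ := by
        rw [Real.rpow_one_add' hc0 (by positivity)]
        ring

/-- **The exact step**, with types. -/
theorem exactT_step {θ : ℝ} (hθ : 0 ≤ θ) (hM : 2 ≤ M) (δ : Q → ι → Q) (α : Q → ι → Fin d → ℤ)
    (dig : ι → Fin d → ℤ) (m n : ℕ) {T : Finset ((Fin m → ι) → Fin d → ℤ)}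
    (hT : ∀ s : Q, vA M δ α s m ∈ T) {r p t₀ : ℤ} (hr : (M:ℤ) ^ m ∣ r - 1)
    (hp : (M:ℤ) ^ m ∣ p - t₀) (s : Q) :
    pw θ (univ : Finset (Fin (n + m) → ι)) (vZ M δ α dig r p s (n + m)) ≤
      RT θ M dig m T (t₀ : ZMod (M ^ m)) *
        pw θ (univ : Finset (Fin n → ι)) (vZ M δ α dig r p s n) := by
  classical
  have hM0 : (M:ℤ) ≠ 0 := by positivity
  have key : ∀ w : Fin (n + m) → ι, ∀ a, vZ M δ α dig r p s (n + m) w a =
      (M:ℤ) ^ m * vZ M δ α dig r p s n (wl n m w) a +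
        vZ M δ α dig r p (sS δ s n (wl n m w)) m (wr n m w) a := by
    intro w a
    unfold vZ
    rw [vA_add, vD_add]
    ring
  have hres : ∀ w : Fin (n + m) → ι, ∀ a, ((vZ M δ α dig r p s (n + m) w a : ℤ) : ZMod (M ^ m)) =
      resT M dig m (t₀ : ZMod (M ^ m)) (vA M δ α (sS δ s n (wl n m w)) m, wr n m w) a := by
    intro w a
    rw [key]
    unfold resT vZ
    have h1 : ((M:ℤ) ^ m : ℤ) = ((M ^ m : ℕ) : ℤ) := by push_cast; rfl
    have h2 : ((r : ℤ) : ZMod (M ^ m)) = 1 := by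
      rw [← sub_eq_zero, ← Int.cast_one, ← Int.cast_sub, ZMod.intCast_zmod_eq_zero_iff_dvd, ← h1]
      exact hr
    have h3 : ((p : ℤ) : ZMod (M ^ m)) = ((t₀ : ℤ) : ZMod (M ^ m)) := by
      rw [← sub_eq_zero, ← Int.cast_sub, ZMod.intCast_zmod_eq_zero_iff_dvd, ← h1]
      exact hp
    have h4 : (((M:ℤ) ^ m : ℤ) : ZMod (M ^ m)) = 0 := by
      rw [ZMod.intCast_zmod_eq_zero_iff_dvd, ← h1]
    rw [Int.cast_add, Int.cast_mul, h4, zero_mul, zero_add, Int.cast_add, Int.cast_mul,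
      Int.cast_mul, h2, h3, one_mul]
  refine (pw_fib hθ (fun w => (vA M δ α (sS δ s n (wl n m w)) m, wr n m w)) (T ×ˢ univ)
    (fun w _ => mem_product.2 ⟨hT _, mem_univ _⟩)
    (fun z => ((fl (T ×ˢ (univ : Finset (Fin m → ι))) fun z' =>
      resT M dig m (t₀ : ZMod (M ^ m)) z' = resT M dig m (t₀ : ZMod (M ^ m)) z).card : ℝ))
    (fun w _ => ?_)).trans ?_
  · have h1 : (fl (T ×ˢ (univ : Finset (Fin m → ι))) fun u =>
        ∃ w' ∈ (univ : Finset (Fin (n + m) → ι)),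
          (vA M δ α (sS δ s n (wl n m w')) m, wr n m w') = u ∧
          vZ M δ α dig r p s (n + m) w' = vZ M δ α dig r p s (n + m) w) ⊆
        (fl (T ×ˢ (univ : Finset (Fin m → ι))) fun z' =>
          resT M dig m (t₀ : ZMod (M ^ m)) z' =
            resT M dig m (t₀ : ZMod (M ^ m)) (vA M δ α (sS δ s n (wl n m w)) m, wr n m w)) := by
      intro z hz
      rw [mem_fl] at hz ⊢
      obtain ⟨hz1, w', -, rfl, hw'⟩ := hz
      refine ⟨hz1, ?_⟩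
      funext a
      rw [← hres, ← hres, hw']
    exact_mod_cast card_le_card h1
  · unfold RT
    rw [pw, sum_mul]
    refine sum_le_sum fun z _ => ?_
    refine mul_le_mul_of_nonneg_left ?_ (Real.rpow_nonneg (Nat.cast_nonneg _) _)
    refine pw_le_of_inj hθ (wl n m) (fun w _ => mem_univ _) ?_ ?_
    · intro w hw w' hw' h
      rw [mem_fl] at hw hw'
      exact w_ext h (by
        have := hw.2.trans hw'.2.symm
        simp only [Prod.mk.injEq] at this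
        exact this.2)
    · intro w hw w' hw' h
      rw [mem_fl] at hw hw'
      funext a
      have h1 := congrFun h a
      rw [key, key] at h1
      have h2 := hw.2.trans hw'.2.symm
      simp only [Prod.mk.injEq] at h2
      have h4 : vZ M δ α dig r p (sS δ s n (wl n m w)) m (wr n m w) a =
          vZ M δ α dig r p (sS δ s n (wl n m w')) m (wr n m w') a := by
        unfold vZ
        rw [h2.1, h2.2]
      rw [h4] at h1
      have h3 : (M:ℤ) ^ m * vZ M δ α dig r p s n (wl n m w') a =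
          (M:ℤ) ^ m * vZ M δ α dig r p s n (wl n m w) a := by linarith
      exact mul_left_cancel₀ (pow_ne_zero _ hM0) h3

/-- Several exact steps. -/
theorem exactT_steps {θ : ℝ} (hθ : 0 ≤ θ) (hM : 2 ≤ M) (δ : Q → ι → Q) (α : Q → ι → Fin d → ℤ)
    (dig : ι → Fin d → ℤ) (m : ℕ) {T : Finset ((Fin m → ι) → Fin d → ℤ)}
    (hT : ∀ s : Q, vA M δ α s m ∈ T) {r p t₀ : ℤ} (hr : (M:ℤ) ^ m ∣ r - 1)
    (hp : (M:ℤ) ^ m ∣ p - t₀) (s : Q) (K : ℕ) :
    pw θ (univ : Finset (Fin (m * K) → ι)) (vZ M δ α dig r p s (m * K)) ≤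
      RT θ M dig m T (t₀ : ZMod (M ^ m)) ^ K := by
  classical
  induction K with
  | zero =>
    unfold pw
    simp only [Nat.mul_zero, pow_zero]
    rw [Fintype.sum_subsingleton _ (fun i : Fin 0 => i.elim0)]
    have h1 : (fl (univ : Finset (Fin 0 → ι)) fun w' => vZ M δ α dig r p s 0 w' =
        vZ M δ α dig r p s 0 (fun i : Fin 0 => i.elim0)).card ≤ 1 := by
      refine (card_le_univ _).trans ?_
      simp
    calc _ ≤ (1:ℝ) ^ θ := by
          refine Real.rpow_le_rpow (Nat.cast_nonneg _) ?_ hθ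
          exact_mod_cast h1
      _ = 1 := Real.one_rpow _
  | succ K ih =>
    rw [pow_succ, mul_comm (_ ^ K)]
    refine (exactT_step hθ hM δ α dig m (m * K) hT hr hp s).trans ?_
    exact mul_le_mul_of_nonneg_left ih (pw_nonneg _ _ _)

omit [Nonempty ι] in
/-- The states which can be reached. -/
theorem exists_reach (δ : Q → ι → Q) (s : Q) : ∃ L : ℕ → Finset Q, s ∈ L 0 ∧
    ∀ i, ∀ s' ∈ L i, ∀ x, δ s' x ∈ L (i + 1) := by
  classical
  refine ⟨fun i => Nat.rec {s} (fun _ S => S.biUnion fun s' => univ.image (δ s')) i,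
    mem_singleton_self s, fun i s' hs' x => ?_⟩
  show δ s' x ∈ Finset.biUnion _ _
  rw [mem_biUnion]
  exact ⟨s', hs', mem_image_of_mem _ (mem_univ x)⟩

/-- Several real steps, with types. -/
theorem realT_steps {θ : ℝ} (hθ : 0 ≤ θ) (hM : 2 ≤ M) (δ : Q → ι → Q) (α : Q → ι → Fin d → ℤ)
    (dig : ι → Fin d → ℤ) (m K : ℕ) {T : Finset ((Fin m → ι) → Fin d → ℤ)}
    (hT : ∀ s : Q, vA M δ α s m ∈ T) {r : ℕ} {p t₀ : ℤ} (hr0 : 0 < r)
    (hr : (M:ℤ) ^ m ∣ (r:ℤ) - 1)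
    (hp : (M:ℤ) ^ m ∣ p - t₀) {t B : ℝ} (hB0 : 0 ≤ B)
    (hB : ∀ s n (w : Fin n → ι) a, |vY M δ α dig t s n w a| ≤ B * (M:ℝ) ^ n)
    (hη : ∀ (w w' : Fin (m * K) → ι) a,
      |t - p / r| * |(vD M dig (m * K) w a : ℝ) - (vD M dig (m * K) w' a : ℝ)| ≤ 1)
    {G : ℕ} (hG : (r:ℝ) * (2 + 2 * B) < G) (J : ℕ) :
    ∀ (s : Q), ∀ n, n = m * K * J → ∀ τ : Fin d → ℝ,
      pw θ (univ : Finset (Fin n → ι)) (cel M δ α dig t s n τ) ≤
        (((G ^ d : ℕ) : ℝ) ^ θ) ^ J * (RT θ M dig m T (t₀ : ZMod (M ^ m)) ^ K) ^ J := by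
  classical
  have hG1 : 0 ≤ ((G ^ d : ℕ) : ℝ) ^ θ := Real.rpow_nonneg (Nat.cast_nonneg _) _
  have hR0 : 0 ≤ RT θ M dig m T (t₀ : ZMod (M ^ m)) := pw_nonneg _ _ _
  induction J with
  | zero =>
    intro s n hn τ
    rw [Nat.mul_zero] at hn
    subst hn
    have h1 : pw θ (univ : Finset (Fin 0 → ι)) (cel M δ α dig t s 0 τ) ≤ 1 := by
      unfold pw
      rw [Fintype.sum_subsingleton _ (fun i : Fin 0 => i.elim0)]
      calc _ ≤ (1:ℝ) ^ θ := by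
            refine Real.rpow_le_rpow (Nat.cast_nonneg _) ?_ hθ
            have h1 : (fl (univ : Finset (Fin 0 → ι)) fun w' => cel M δ α dig t s 0 τ w' =
                cel M δ α dig t s 0 τ (fun i : Fin 0 => i.elim0)).card ≤ 1 := by
              refine (card_le_univ _).trans ?_
              simp
            exact_mod_cast h1
        _ = 1 := Real.one_rpow _
    simpa using h1
  | succ J ih =>
    intro s n hn τ
    obtain rfl : n = m * K + m * K * J := by rw [hn]; ring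
    obtain ⟨L, hs, hL⟩ := exists_reach δ s
    have h1 := real_step hθ hM δ α dig hL (m * K) (m * K * J) 0 hr0 hB0 hB hη hG hs
      (Bd := (((G ^ d : ℕ) : ℝ) ^ θ) ^ J * (RT θ M dig m T (t₀ : ZMod (M ^ m)) ^ K) ^ J)
      (fun s' _ τ' => ih s' (m * K * J) rfl τ') τ
    refine h1.trans ?_
    have h2 := exactT_steps hθ hM δ α dig m hT hr hp s K
    calc _ ≤ ((G ^ d : ℕ) : ℝ) ^ θ * (RT θ M dig m T (t₀ : ZMod (M ^ m)) ^ K) *
          ((((G ^ d : ℕ) : ℝ) ^ θ) ^ J * (RT θ M dig m T (t₀ : ZMod (M ^ m)) ^ K) ^ J) := by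
          refine mul_le_mul_of_nonneg_right (mul_le_mul_of_nonneg_left h2 hG1) ?_
          positivity
      _ = _ := by ring

/-- **Few types of blocks**: the power sums of the multiplicities of the cells over an interval of
heights. -/
theorem tree_core (hd : 1 ≤ d) (hM : 2 ≤ M)
    {dig : ι → Fin d → ℤ} (hdig : ∀ i i', (∀ a, (M:ℤ) ∣ dig i a - dig i' a) → i = i')
    (δ : Q → ι → Q) (α : Q → ι → Fin d → ℤ) {A₀ : ℕ} (hα : ∀ s i a, |α s i a| ≤ A₀)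
    {κ : ℝ} (hκ0 : 0 ≤ κ) (hκ : ∃ᶠ m : ℕ in atTop, ∃ T : Finset ((Fin m → ι) → Fin d → ℤ),
      (∀ s : Q, vA M δ α s m ∈ T) ∧ (T.card : ℝ) ≤ (M:ℝ) ^ (κ * m))
    {ε : ℝ} (hε : 0 < ε) {x y : ℝ} (hxy : x < y) :
    ∃ h η C : ℝ, 0 < η ∧ 0 ≤ C ∧ x < h ∧ h + η < y ∧
      ∀ s n, ∀ t ∈ Set.Icc h (h + η), ∀ τ : Fin d → ℝ,
        pw (1 / (d:ℝ)) (univ : Finset (Fin n → ι)) (cel M δ α dig t s n τ) ≤
          C * ((Fintype.card ι : ℝ) * (M:ℝ) ^ ((1 + 1 / (d:ℝ)) * κ + ε)) ^ n := by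
  classical
  have hM1 : (1:ℝ) < M := by exact_mod_cast (by omega : 1 < M)
  have hM0 : (0:ℝ) < M := by linarith
  have hd0 : (0:ℝ) < d := by exact_mod_cast hd
  have hd1 : (1:ℝ) ≤ d := by exact_mod_cast hd
  set θ : ℝ := 1 / (d:ℝ) with hθ
  have hθ0 : 0 ≤ θ := by rw [hθ]; positivity
  have hθ1 : θ ≤ 1 := by rw [hθ, div_le_one hd0]; exact hd1
  set I : ℝ := (Fintype.card ι : ℝ) with hI
  have hI1 : (1:ℝ) ≤ I := by rw [hI]; exact_mod_cast Fintype.card_pos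
  set b : ℝ := (M:ℝ) ^ (ε / 2) with hb
  have hb1 : 1 < b := Real.one_lt_rpow hM1 (by linarith)
  have hb2 : b * b = (M:ℝ) ^ ε := by
    rw [hb, ← Real.rpow_add hM0]
    congr 1
    ring
  obtain ⟨D₀, hD₀⟩ : ∃ K : ℕ, ∀ (v : ι) (a : Fin d), |dig v a| ≤ K := by
    obtain ⟨K, hK⟩ := (Set.finite_range fun x : ι × Fin d => (|dig x.1 x.2|).toNat).bddAbove
    refine ⟨K, fun v a => ?_⟩
    have := hK ⟨(v, a), rfl⟩
    simp only at this
    have h0 := abs_nonneg (dig v a)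
    omega
  set T₀ : ℝ := |x| + |y| with hT₀
  have hT0 : 0 ≤ T₀ := by positivity
  have hTτ : ∀ τ ∈ Set.Icc x y, |τ| ≤ T₀ := by
    intro τ hτ
    rw [abs_le]
    have h1 := neg_abs_le x
    have h2 := le_abs_self y
    have h3 := abs_nonneg x
    have h4 := abs_nonneg y
    constructor <;> [linarith [hτ.1]; linarith [hτ.2]]
  set B : ℝ := A₀ + T₀ * D₀ with hB
  have hB0 : 0 ≤ B := by positivity
  -- the length of the blocks
  obtain ⟨K₀, E, D, hKED⟩ := mx_pow d M (by omega)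
  obtain ⟨n₀, hn₀⟩ := exists_n (2 * (K₀ * (M:ℝ) ^ D)) (E + D) hb1
  obtain ⟨m, ⟨T, hT, hTc⟩, hmn⟩ := (hκ.and_eventually (eventually_ge_atTop (n₀ + 1))).exists
  have hm1 : 1 ≤ m := by omega
  have hNZ : NeZero (M ^ m) := ⟨pow_ne_zero _ (by omega)⟩
  have hMm2 : 2 ≤ M ^ m := by
    calc 2 ≤ M := hM
      _ = M ^ 1 := (pow_one M).symm
      _ ≤ M ^ m := Nat.pow_le_pow_right (by omega) hm1
  set Λ : ℝ := (M:ℝ) ^ ((1 + θ) * κ) with hΛ
  have hΛ0 : 0 < Λ := by positivity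
  set X : ℝ := (b * (I * Λ)) ^ m with hX
  have hX0 : 0 < X := by positivity
  have hmean : ∑ t₀ : ZMod (M ^ m), RT θ M dig m T t₀ ≤ X * Fintype.card (ZMod (M ^ m)) := by
    refine (RT_sum hd hM hm1 (hKED m hm1 hNZ) hdig hTc).trans ?_
    rw [← hθ, ← hI]
    have e1 : ((M:ℝ) ^ (κ * m)) ^ (1 + θ) = Λ ^ m := by
      rw [← Real.rpow_mul hM0.le, hΛ, ← Real.rpow_natCast ((M:ℝ) ^ ((1 + θ) * κ)) m,
        ← Real.rpow_mul hM0.le]
      congr 1
      ring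
    have e2 : (2 * (K₀ * (M:ℝ) ^ D)) * (m:ℝ) ^ (E + D) ≤ b ^ m := hn₀ m (by omega)
    rw [e1, ZMod.card, hX]
    calc Λ ^ m * (2 * (((K₀ * m ^ E : ℕ) : ℝ) * ((M:ℝ) * m) ^ D) * (I ^ m * (M:ℝ) ^ m))
        = ((2 * (K₀ * (M:ℝ) ^ D)) * (m:ℝ) ^ (E + D)) * (I ^ m * Λ ^ m * (M:ℝ) ^ m) := by
          push_cast
          rw [mul_pow, pow_add]; ring
      _ ≤ b ^ m * (I ^ m * Λ ^ m * (M:ℝ) ^ m) := mul_le_mul_of_nonneg_right e2 (by positivity)
      _ = _ := by push_cast; rw [mul_pow, mul_pow]; ring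
  obtain ⟨t₀, ht₀⟩ : ∃ t₀ : ZMod (M ^ m), RT θ M dig m T t₀ ≤ X := by
    by_contra hcon
    push Not at hcon
    have h2 : ∑ _t₀ : ZMod (M ^ m), X < ∑ t₀ : ZMod (M ^ m), RT θ M dig m T t₀ :=
      sum_lt_sum_of_nonempty univ_nonempty fun t₀ _ => hcon t₀
    rw [sum_const, card_univ, nsmul_eq_mul] at h2
    linarith
  -- the rational height
  have hxy2 : x < (x + y) / 2 := by linarith
  obtain ⟨n₁, hn₁⟩ := exists_height' hxy2
  obtain ⟨r, p, hr0, -, hr, hp, hx, hy⟩ := hn₁ (M ^ m) hMm2 (t₀.val : ℤ)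
  obtain ⟨G, hG⟩ := exists_nat_gt ((r:ℝ) * (2 + 2 * B))
  obtain ⟨K, hK⟩ := pow_unbounded_of_one_lt (G:ℝ) hb1
  set ℓ : ℕ := m * (K + 1) with hℓ
  have hGb : (G:ℝ) ≤ b ^ ℓ := by
    refine hK.le.trans (pow_le_pow_right₀ hb1.le ?_)
    rw [hℓ]
    nlinarith
  have hℓ1 : 1 ≤ ℓ := Nat.mul_pos hm1 (Nat.succ_pos K)
  set C₁ : ℝ := 2 * D₀ + 1 + 4 / (y - x) with hC₁
  have hyx : 0 < y - x := by linarith
  have hC₁0 : 0 < C₁ := by positivity
  set η : ℝ := 1 / (C₁ * (M:ℝ) ^ ℓ) with hη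
  have hMℓ : (1:ℝ) ≤ (M:ℝ) ^ ℓ := one_le_pow₀ hM1.le
  have hη0 : 0 < η := by positivity
  have hη1 : (p : ℝ) / r + η < y := by
    have h1 : η ≤ (y - x) / 4 := by
      rw [hη, div_le_iff₀ (by positivity)]
      have h2 : 4 / (y - x) ≤ C₁ := by rw [hC₁]; have : (0:ℝ) ≤ D₀ := Nat.cast_nonneg _; linarith
      have h3 : 4 / (y - x) ≤ C₁ * (M:ℝ) ^ ℓ := h2.trans (le_mul_of_one_le_right hC₁0.le hMℓ)
      have h4 : (y - x) / 4 * (4 / (y - x)) = 1 := by field_simp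
      calc (1:ℝ) = (y - x) / 4 * (4 / (y - x)) := h4.symm
        _ ≤ _ := mul_le_mul_of_nonneg_left h3 (by linarith)
    linarith
  have hη2 : η * (2 * D₀ * (M:ℝ) ^ ℓ + 1) ≤ 1 := by
    rw [hη, hC₁]
    exact eta_bd hyx hMℓ
  refine ⟨(p : ℝ) / r, η, I ^ (2 * ℓ), hη0, by positivity, hx, hη1, ?_⟩
  intro s n t ht τ
  have htx : t ∈ Set.Icc x y := ⟨hx.le.trans ht.1, ht.2.trans hη1.le⟩
  have hvA : ∀ s n (w : Fin n → ι) a, |(vA M δ α s n w a : ℝ)| ≤ A₀ * (M:ℝ) ^ n :=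
    vA_bd hM δ α hα
  have hvD : ∀ n (w : Fin n → ι) a, |(vD M dig n w a : ℝ)| ≤ D₀ * (M:ℝ) ^ n :=
    vD_bd hM hD₀
  have hvY : ∀ s n (w : Fin n → ι) a, |vY M δ α dig t s n w a| ≤ B * (M:ℝ) ^ n := by
    intro s n w a
    unfold vY
    calc _ ≤ |(vA M δ α s n w a : ℝ)| + |t * (vD M dig n w a : ℝ)| := abs_add_le _ _
      _ ≤ A₀ * (M:ℝ) ^ n + T₀ * (D₀ * (M:ℝ) ^ n) := by
          rw [abs_mul]
          exact add_le_add (hvA _ _ _ _) (mul_le_mul (hTτ t htx) (hvD _ _ _) (abs_nonneg _) hT0)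
      _ = _ := by rw [hB]; ring
  have hηw : ∀ (w w' : Fin ℓ → ι) a,
      |t - p / r| * |(vD M dig ℓ w a : ℝ) - (vD M dig ℓ w' a : ℝ)| ≤ 1 := by
    intro w w' a
    have h1 : |t - p / r| ≤ η := by
      rw [abs_of_nonneg (by linarith [ht.1])]
      linarith [ht.2]
    have h2 : |(vD M dig ℓ w a : ℝ) - (vD M dig ℓ w' a : ℝ)| ≤ 2 * D₀ * (M:ℝ) ^ ℓ + 1 := by
      have h3 := abs_sub (vD M dig ℓ w a : ℝ) (vD M dig ℓ w' a : ℝ)
      have h4 := hvD ℓ w a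
      have h5 := hvD ℓ w' a
      linarith
    exact (mul_le_mul h1 h2 (abs_nonneg _) hη0.le).trans hη2
  have hMm : ((M ^ m : ℕ) : ℤ) = (M:ℤ) ^ m := by push_cast; rfl
  have hcast : (((t₀.val : ℕ) : ℤ) : ZMod (M ^ m)) = t₀ := by
    rw [Int.cast_natCast, ZMod.natCast_zmod_val]
  have hGθ : ((G ^ d : ℕ) : ℝ) ^ θ = G := by
    rw [Nat.cast_pow, ← Real.rpow_natCast, ← Real.rpow_mul (Nat.cast_nonneg _), hθ, one_div,
      mul_inv_cancel₀ hd0.ne', Real.rpow_one]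
  have hRT0 : 0 ≤ RT θ M dig m T t₀ := pw_nonneg _ _ _
  have h1 : ∀ J (s' : Q), ∀ τ' : Fin d → ℝ,
      pw θ (univ : Finset (Fin (ℓ * J) → ι)) (cel M δ α dig t s' (ℓ * J) τ') ≤
        (G:ℝ) ^ J * X ^ ((K + 1) * J) := by
    intro J s' τ'
    have h2 := realT_steps hθ0 hM δ α dig m (K + 1) hT hr0 (hMm ▸ hr) (hMm ▸ hp) hB0 hvY
      hηw hG J s' (ℓ * J) rfl τ'
    rw [hGθ, hcast] at h2
    refine h2.trans (mul_le_mul_of_nonneg_left ?_ (by positivity))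
    rw [pow_mul]
    exact pow_le_pow_left₀ (by positivity) (pow_le_pow_left₀ hRT0 ht₀ _) _
  obtain ⟨L, hs, hL⟩ := exists_reach δ s
  set J := n / ℓ with hJ
  set ρ := n % ℓ with hρ
  have hn : n = ρ + ℓ * J := (Nat.mod_add_div n ℓ).symm
  have hρℓ : ρ < ℓ := Nat.mod_lt _ hℓ1
  clear_value J ρ
  subst hn
  refine (prefix_step hθ0 hθ1 δ α dig hL ρ (ℓ * J) 0 hs (fun s' _ τ' => h1 J s' τ') τ).trans ?_
  have h2 : I ^ (2 * ρ) ≤ I ^ (2 * ℓ) := pow_le_pow_right₀ hI1 (by omega)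
  have hW : I * (M:ℝ) ^ ((1 + θ) * κ + ε) = b * (b * (I * Λ)) := by
    rw [Real.rpow_add hM0, ← hb2, hΛ]
    ring
  have hW1 : 1 ≤ I * (M:ℝ) ^ ((1 + θ) * κ + ε) := by
    refine one_le_mul_of_one_le_of_one_le hI1 (Real.one_le_rpow hM1.le ?_)
    positivity
  have h3 : (G:ℝ) ^ J * X ^ ((K + 1) * J) ≤ (I * (M:ℝ) ^ ((1 + θ) * κ + ε)) ^ (ℓ * J) := by
    calc (G:ℝ) ^ J * X ^ ((K + 1) * J) ≤ (b ^ ℓ) ^ J * X ^ ((K + 1) * J) :=
          mul_le_mul_of_nonneg_right (pow_le_pow_left₀ (Nat.cast_nonneg _) hGb _) (by positivity)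
      _ = (b ^ ℓ) ^ J * (b * (I * Λ)) ^ (ℓ * J) := by
          congr 1
          rw [hX, ← pow_mul, hℓ]
          congr 1
          ring
      _ = _ := by
          rw [hW, ← pow_mul, ← mul_pow]
  have h4 : (I * (M:ℝ) ^ ((1 + θ) * κ + ε)) ^ (ℓ * J) ≤
      (I * (M:ℝ) ^ ((1 + θ) * κ + ε)) ^ (ρ + ℓ * J) :=
    pow_le_pow_right₀ hW1 (Nat.le_add_left _ _)
  exact mul_le_mul h2 (h3.trans h4) (by positivity) (by positivity)

end

end Pool.Agent.N269.MX
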