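import Pool.Agent.N269.MX.Haus
import Pool.Agent.N269.MX.Tree

set_option autoImplicit false

/-!
# The maximal estimate with a loss and the Hausdorff dimension
-/

open Set MeasureTheory
open scoped ENNReal NNReal

namespace Pool.Agent.N269.MX
open Pool.Agent.N269.AK

/-- The maximal estimate with the loss `r^(-ε)` over small intervals of heights. -/
def GoodAt {d : ℕ} (ε : ℝ) (a : (Fin d → ℝ) → Fin d → ℝ) : Prop :=
  ∀ x y : ℝ, x < y → ∃ h η C : ℝ, 0 < η ∧ x < h ∧ h + η < y ∧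
    ∀ r : ℝ, 0 < r → r < 1 → ∀ f : ℝ × (Fin d → ℝ) → ℝ≥0∞, Measurable f →
    ∃ Ψ : (Fin d → ℝ) → ℝ≥0∞, Measurable Ψ ∧
      (∀ v : Fin d → ℝ, (∀ i, v i ∈ Ico (0:ℝ) 1) → ∫⁻ z in tub h η r (a v) v, f z ≤ Ψ v) ∧
      ∫⁻ v, Ψ v ≤ ENNReal.ofReal (r ^ d) * (ENNReal.ofReal (C * r ^ (-ε)) *
        ∫⁻ t in Icc h (h + η), (∫⁻ y, f (t, y) ^ ((d:ℝ) + 1)) ^ (1 / ((d:ℝ) + 1)))

/-- The bound at one scale, in terms of the radius. -/
theorem scale_boundB {b d : ℕ} (hb : 2 ≤ b) (hd : 1 ≤ d) {e κ C₀ r : ℝ} (he : 0 < e)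
    (hκ : 0 ≤ κ) (hC₀ : 0 ≤ C₀) (hr : 0 < r) {n : ℕ} (h1 : ((b:ℝ) ^ n)⁻¹ ≤ r)
    (h2 : (b:ℝ) ^ n * r ≤ b) (F : ℝ≥0∞) :
    ENNReal.ofReal ((((b:ℝ) ^ n)⁻¹) ^ d) * (F *
      (ENNReal.ofReal (κ * (((b:ℝ) ^ n)⁻¹) ^ d *
        (C₀ * (((b:ℝ) ^ d) * (b:ℝ) ^ e) ^ n))) ^ (1 / (1 + 1 / (d:ℝ)))) ≤
    ENNReal.ofReal (r ^ d) *
      (ENNReal.ofReal ((κ * C₀ + 1) * (b:ℝ) ^ (e * (1 / (1 + 1 / (d:ℝ)))) *
        r ^ (-(e * (1 / (1 + 1 / (d:ℝ)))))) * F) := by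
  have hb1 : (1:ℝ) < b := by exact_mod_cast (by omega : 1 < b)
  have hb0 : (0:ℝ) < b := by linarith
  have hd0 : (0:ℝ) < d := by exact_mod_cast hd
  set N : ℝ := (b:ℝ) ^ n with hN
  have hN0 : 0 < N := by positivity
  set q : ℝ := 1 / (1 + 1 / (d:ℝ)) with hq'
  have hq : (0:ℝ) < q := by positivity
  have hq1 : q ≤ 1 := by
    rw [hq', div_le_one (by positivity)]
    have : 0 < 1 / (d:ℝ) := by positivity
    linarith
  set Z : ℝ := κ * C₀ with hZ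
  have hZ0 : 0 ≤ Z := by positivity
  have e1 : κ * (N⁻¹) ^ d * (C₀ * (((b:ℝ) ^ d) * (b:ℝ) ^ e) ^ n) = Z * N ^ e := by
    have e2 : (((b:ℝ) ^ d) * (b:ℝ) ^ e) ^ n = N ^ d * N ^ e := by
      rw [mul_pow, hN, ← pow_mul, ← pow_mul, mul_comm d n, ← Real.rpow_natCast ((b:ℝ) ^ e) n,
        ← Real.rpow_mul hb0.le, ← Real.rpow_natCast (b:ℝ) n, ← Real.rpow_mul hb0.le, mul_comm e]
    rw [e2, inv_pow, hZ]
    field_simp
  have e3 : (ENNReal.ofReal (Z * N ^ e)) ^ q ≤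
      ENNReal.ofReal ((Z + 1) * (b:ℝ) ^ (e * q) * r ^ (-(e * q))) := by
    rw [ENNReal.ofReal_rpow_of_nonneg (by positivity) hq.le]
    refine ENNReal.ofReal_le_ofReal ?_
    calc (Z * N ^ e) ^ q ≤ ((Z + 1) * N ^ e) ^ q :=
          Real.rpow_le_rpow (by positivity)
            (mul_le_mul_of_nonneg_right (by linarith) (by positivity)) hq.le
      _ = (Z + 1) ^ q * N ^ (e * q) := by
          rw [Real.mul_rpow (by positivity) (by positivity), ← Real.rpow_mul hN0.le]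
      _ ≤ (Z + 1) * ((b:ℝ) ^ (e * q) * r ^ (-(e * q))) := by
          refine mul_le_mul ?_ ?_ (by positivity) (by positivity)
          · calc (Z + 1) ^ q ≤ (Z + 1) ^ (1:ℝ) :=
                  Real.rpow_le_rpow_of_exponent_le (by linarith) hq1
              _ = Z + 1 := Real.rpow_one _
          · rw [Real.rpow_neg hr.le, ← div_eq_mul_inv, ← Real.div_rpow hb0.le hr.le]
            refine Real.rpow_le_rpow hN0.le ?_ (by positivity)
            rw [le_div_iff₀ hr]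
            exact h2
      _ = _ := by ring
  rw [e1]
  refine mul_le_mul' (ENNReal.ofReal_le_ofReal (pow_le_pow_left₀ (by positivity) h1 d)) ?_
  rw [mul_comm]
  exact mul_le_mul_left e3 _

/-- **Few types of blocks**: the maximal estimate. -/
theorem goodAt_tree {d b : ℕ} [NeZero b] (hb : 2 ≤ b) (hd : 1 ≤ d) {Q : Type}
    (δ : Q → (Fin d → Fin b) → Q) (α : Q → (Fin d → Fin b) → Fin d → ℤ) {A₀ : ℕ}
    (hα : ∀ s i a, |α s i a| ≤ A₀) {κ : ℝ} (hκ0 : 0 ≤ κ)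
    (hκ : ∃ᶠ m : ℕ in Filter.atTop, ∃ T : Finset ((Fin m → Fin d → Fin b) → Fin d → ℤ),
      (∀ s : Q, vA b δ α s m ∈ T) ∧ (T.card : ℝ) ≤ (b:ℝ) ^ (κ * m)) (s : Q) {ε : ℝ}
    (hε : κ < ε) : GoodAt ε (fun v => pos b δ α s (dseq d b v)) := by
  intro x y hxy
  have hne : Nonempty (Fin d → Fin b) := ⟨fun _ => ⟨0, by omega⟩⟩
  have hb0 : (0:ℝ) < b := by positivity
  have hd0 : (0:ℝ) < d := by exact_mod_cast hd
  obtain ⟨h, η, C₀, hη, hC₀, hh1, hh2, hcell⟩ := tree_core (Q := Q) hd hb (dig := dg d b) dg_inj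
    δ α hα hκ0 hκ (ε := ε - κ) (by linarith) hxy
  obtain ⟨R, hR⟩ := exists_nat_ge ((b:ℝ) + A₀ + (|x| + |y|) + 1)
  set q : ℝ := 1 / (1 + 1 / (d:ℝ)) with hq
  set e : ℝ := (1 + 1 / (d:ℝ)) * κ + (ε - κ) with he
  have he0 : 0 < e := by
    have : 0 ≤ (1 + 1 / (d:ℝ)) * κ := by positivity
    linarith
  have heq : e * q ≤ ε := by
    have h1 : (1 + 1 / (d:ℝ)) * q = 1 := by
      rw [hq, mul_one_div, div_self (by positivity)]
    have h2 : q ≤ 1 := by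
      rw [hq, div_le_one (by positivity)]
      have : 0 < 1 / (d:ℝ) := by positivity
      linarith
    calc e * q = ((1 + 1 / (d:ℝ)) * q) * κ + (ε - κ) * q := by rw [he]; ring
      _ ≤ 1 * κ + (ε - κ) * 1 := by
          rw [h1]
          exact add_le_add le_rfl (mul_le_mul_of_nonneg_left h2 (by linarith))
      _ = ε := by ring
  refine ⟨h, η, ((((2 * R + 1) ^ d : ℕ) : ℝ) ^ (1 + 1 / (d:ℝ)) * C₀ + 1) * (b:ℝ) ^ (e * q), hη,
    hh1, hh2, fun r hr hr1 f hf => ?_⟩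
  obtain ⟨n, hn1, hn2⟩ := exists_scale hb hr hr1
  have hT : ∀ t ∈ Set.Icc h (h + η), |t| ≤ |x| + |y| := by
    intro t ht
    rw [abs_le]
    have h3 := neg_abs_le x
    have h4 := le_abs_self y
    have h5 := abs_nonneg x
    have h6 := abs_nonneg y
    constructor <;> [linarith [ht.1]; linarith [ht.2]]
  obtain ⟨Ψ, hΨ1, hΨ2, hΨ3⟩ := an hb hd δ α hα s hT n (fun t ht => hcell s n t ht 0)
    (r := r) (ρ := (b:ℝ) + A₀ + (|x| + |y|)) (by linarith) hR f hf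
  refine ⟨Ψ, hΨ1, hΨ2, hΨ3.trans ?_⟩
  have hcard : (Fintype.card (Fin d → Fin b) : ℝ) = (b:ℝ) ^ d := by
    rw [Fintype.card_fun, Fintype.card_fin, Fintype.card_fin]
    push_cast
    rfl
  rw [hcard]
  refine (scale_boundB hb hd he0 (Real.rpow_nonneg (Nat.cast_nonneg _) _) hC₀ hr
    hn1 hn2 _).trans ?_
  refine mul_le_mul_right (mul_le_mul_left (ENNReal.ofReal_le_ofReal ?_) _) _
  refine mul_le_mul_of_nonneg_left ?_ (by positivity)
  exact Real.rpow_le_rpow_of_exponent_ge hr hr1.le (by linarith)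

/-- **The maximal estimate implies a lower bound for the Hausdorff dimension.** -/
theorem hausB {d : ℕ} {a : (Fin d → ℝ) → Fin d → ℝ} {β : ℝ} (hβ : 0 ≤ β)
    (ha : ∀ ε : ℝ, β < ε → GoodAt ε a) (K : Set (ℝ × (Fin d → ℝ)))
    (V : Set (Fin d → ℝ)) (hV : ∀ v ∈ V, ∀ i, v i ∈ Ico (0:ℝ) 1) (hV0 : volume V ≠ 0)
    (hK : ∀ v ∈ V, ∃ t₁ t₂ : ℝ, t₁ < t₂ ∧
      ∀ t ∈ Icc t₁ t₂, ((t, fun i => a v i + t * v i) : ℝ × (Fin d → ℝ)) ∈ K) :
    ENNReal.ofReal (((d:ℝ) + 1) * (1 - β)) ≤ dimH K := by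
  classical
  by_contra hcon
  push Not at hcon
  obtain ⟨α, hα1, hα2⟩ := ENNReal.lt_iff_exists_nnreal_btwn.1 hcon
  have hαn : (α : ℝ) < ((d:ℝ) + 1) * (1 - β) := by
    by_contra hno
    push Not at hno
    have h2 := ENNReal.ofReal_le_ofReal hno
    rw [ENNReal.ofReal_coe_nnreal] at h2
    exact absurd hα2 (not_lt.2 h2)
  have hα0 : (0:ℝ) ≤ α := α.2
  set n : ℝ := (d:ℝ) + 1 with hn
  have hn0 : 0 < n := by positivity
  set γ : ℝ := n - n * β - α with hγ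
  have hγ0 : 0 < γ := by rw [hγ, hn]; linarith
  -- a common interval
  obtain ⟨x, y, hxy, hxy1, hV1⟩ : ∃ x y : ℝ, x < y ∧ y < x + 1 ∧ volume {v ∈ V |
      ∀ t ∈ Icc x y, ((t, fun i => a v i + t * v i) : ℝ × (Fin d → ℝ)) ∈ K} ≠ 0 := by
    by_contra hno
    push Not at hno
    apply hV0
    have h1 : V ⊆ ⋃ q : {q : ℚ × ℚ // (q.1 : ℝ) < q.2 ∧ (q.2 : ℝ) < q.1 + 1},
        {v ∈ V | ∀ t ∈ Icc (q.1.1 : ℝ) q.1.2,
          ((t, fun i => a v i + t * v i) : ℝ × (Fin d → ℝ)) ∈ K} := by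
      intro v hv
      obtain ⟨t₁, t₂, h12, ht⟩ := hK v hv
      obtain ⟨q₁, hq1, hq2⟩ := exists_rat_btwn h12
      obtain ⟨q₂, hq3, hq4⟩ := exists_rat_btwn (lt_min hq2 (by linarith : (q₁:ℝ) < q₁ + 1))
      rw [mem_iUnion]
      refine ⟨⟨(q₁, q₂), hq3, hq4.trans_le (min_le_right _ _)⟩, hv, fun t htt => ht t ?_⟩
      exact ⟨hq1.le.trans htt.1, htt.2.trans (hq4.le.trans (min_le_left _ _))⟩
    refine measure_mono_null h1 (measure_iUnion_null fun q => ?_)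
    exact hno _ _ q.2.1 q.2.2
  set V' := {v ∈ V | ∀ t ∈ Icc x y, ((t, fun i => a v i + t * v i) : ℝ × (Fin d → ℝ)) ∈ K}
    with hV'
  -- the good interval
  obtain ⟨h, η, C, hη, hh1, hh2, hgood⟩ := ha (β + γ / (4 * n))
    (by have : 0 < γ / (4 * n) := by positivity
        linarith) x y hxy
  have hη1 : η ≤ 1 := by linarith
  set ρ : ℝ := (2:ℝ) ^ (-(γ / (8 * n))) with hρ
  have hρ0 : 0 < ρ := by positivity
  have hρ1 : ρ < 1 := Real.rpow_lt_one_of_one_lt_of_neg (by norm_num) (by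
    have : 0 < γ / (8 * n) := by positivity
    linarith)
  obtain ⟨x₀, hx₀, hx₀V⟩ : ∃ x₀ : ℝ, 0 < x₀ ∧ ENNReal.ofReal x₀ ≤ volume V' := by
    have h1 : volume V' ≠ ⊤ := by
      refine ne_top_of_le_ne_top (b := volume (Icc (0 : Fin d → ℝ) 1)) ?_ (measure_mono ?_)
      · exact isCompact_Icc.measure_lt_top.ne
      · intro v hv
        exact ⟨fun i => (hV v hv.1 i).1, fun i => (hV v hv.1 i).2.le⟩
    refine ⟨(volume V').toReal, ENNReal.toReal_pos hV1 h1, ?_⟩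
    rw [ENNReal.ofReal_toReal h1]
  -- the numerical contradiction for large `k`
  set c₁ : ℝ := x₀ * (1 - ρ) / 2 with hc₁
  set c₂ : ℝ := η * (1 - ρ) / 2 with hc₂
  have h1ρ : 0 < 1 - ρ := by linarith
  have hc₁0 : 0 < c₁ := by positivity
  have hc₂0 : 0 < c₂ := by positivity
  obtain ⟨k0, hk0⟩ : ∃ k0 : ℕ, ∀ k : ℕ, k0 ≤ k →
      (|C| + 1) * ((2:ℝ) ^ (α : ℝ) * 4 ^ n) ^ (1 / n) / (c₁ * c₂) <
        ((2:ℝ) ^ (γ / (2 * n))) ^ k := by
    have hb : 1 < (2:ℝ) ^ (γ / (2 * n)) := Real.one_lt_rpow (by norm_num) (by positivity)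
    obtain ⟨k0, hk0⟩ := pow_unbounded_of_one_lt
      ((|C| + 1) * ((2:ℝ) ^ (α : ℝ) * 4 ^ n) ^ (1 / n) / (c₁ * c₂)) hb
    exact ⟨k0, fun k hk => hk0.trans_le (pow_le_pow_right₀ hb.le hk)⟩
  -- the cover
  obtain ⟨t, κ, htK, htκ, htd, htc⟩ := Pool.Agent.W605.HD.cover K α hα1 (k0 + 1)
  have hfin : ∀ k, {i | κ i = k}.Finite := by
    intro k
    by_contra hinf
    obtain ⟨N, hN⟩ := exists_nat_gt ((2:ℝ) ^ ((α : ℝ) * (k + 1)))
    obtain ⟨S, hS1, hS2⟩ := (show {i | κ i = k}.Infinite from hinf).exists_subset_card_eq N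
    have h1 := htc k S (fun i hi => hS1 hi)
    rw [hS2] at h1
    linarith
  have hp : ∀ i, ∃ p : ℝ × (Fin d → ℝ), t i ⊆ Metric.closedBall p ((1 / 2 : ℝ) ^ κ i) := by
    intro i
    rcases (t i).eq_empty_or_nonempty with he | ⟨p, hp⟩
    · exact ⟨0, by rw [he]; exact empty_subset _⟩
    · exact ⟨p, fun z hz => htd i z hz p hp⟩
  choose p hp using hp
  let U : ℕ → Set (ℝ × (Fin d → ℝ)) := fun k =>
    ⋃ i ∈ (hfin k).toFinset, Metric.closedBall (p i) ((1 / 2 : ℝ) ^ k)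
  let U' : ℕ → Set (ℝ × (Fin d → ℝ)) := fun k =>
    ⋃ i ∈ (hfin k).toFinset, Metric.closedBall (p i) (2 * (1 / 2 : ℝ) ^ k)
  have hUc : ∀ k, IsClosed (U k) := fun k =>
    Set.Finite.isClosed_biUnion (Finset.finite_toSet _) fun i _ => Metric.isClosed_closedBall
  have hU'c : ∀ k, IsClosed (U' k) := fun k =>
    Set.Finite.isClosed_biUnion (Finset.finite_toSet _) fun i _ => Metric.isClosed_closedBall
  have hU0 : ∀ k, k < k0 + 1 → U k = ∅ := by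
    intro k hk
    have : (hfin k).toFinset = ∅ := by
      rw [Finset.eq_empty_iff_forall_notMem]
      intro i hi
      rw [Set.Finite.mem_toFinset] at hi
      have h1 : κ i = k := hi
      have := htκ i
      omega
    simp only [U, this]
    simp
  have hKU : K ⊆ ⋃ k, U k := by
    intro z hz
    obtain ⟨i, hi⟩ := mem_iUnion.1 (htK hz)
    refine mem_iUnion.2 ⟨κ i, mem_iUnion₂.2 ⟨i, ?_, hp i hi⟩⟩
    rw [Set.Finite.mem_toFinset]
    rfl
  have hvolU' : ∀ k, volume (U' k) ≤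
      ENNReal.ofReal ((2:ℝ) ^ ((α : ℝ) * (k + 1)) * (4 * (1 / 2 : ℝ) ^ k) ^ (d + 1)) := by
    intro k
    refine (measure_biUnion_finset_le _ _).trans ?_
    have h1 : ∀ i, volume (Metric.closedBall (p i) (2 * (1 / 2 : ℝ) ^ k)) =
        ENNReal.ofReal ((4 * (1 / 2 : ℝ) ^ k) ^ (d + 1)) := by
      intro i
      rw [← closedBall_prod_same, Measure.volume_eq_prod, Measure.prod_prod, Real.volume_closedBall,
        Real.volume_pi_closedBall _ (by positivity), Fintype.card_fin,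
        ← ENNReal.ofReal_mul (by positivity)]
      congr 1
      ring
    simp only [h1]
    rw [Finset.sum_const, nsmul_eq_mul, ENNReal.ofReal_mul (by positivity)]
    refine mul_le_mul_left ?_ _
    rw [← ENNReal.ofReal_natCast]
    exact ENNReal.ofReal_le_ofReal (htc k _ fun i hi => by
      rw [Set.Finite.mem_toFinset] at hi
      exact hi)
  -- the heights at which a line is covered at the scale `k`
  let T : (Fin d → ℝ) → ℕ → Set ℝ := fun v k =>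
    {τ | τ ∈ Icc h (h + η) ∧ ((τ, fun i => a v i + τ * v i) : ℝ × (Fin d → ℝ)) ∈ U k}
  have hTc : ∀ v k, IsClosed (T v k) := by
    intro v k
    have h1 : Continuous fun τ : ℝ => ((τ, fun i => a v i + τ * v i) : ℝ × (Fin d → ℝ)) := by
      fun_prop
    exact isClosed_Icc.inter ((hUc k).preimage h1)
  let E : ℕ → Set (Fin d → ℝ) := fun k =>
    {v | (∀ i, v i ∈ Ico (0:ℝ) 1) ∧ ENNReal.ofReal (c₂ * ρ ^ k) ≤ volume (T v k)}
  have hVE : V' ⊆ ⋃ k, E k := by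
    intro v hv
    have h1 : Icc h (h + η) ⊆ ⋃ k, T v k := by
      intro τ hτ
      have h2 := hv.2 τ ⟨by linarith [hτ.1], by linarith [hτ.2]⟩
      obtain ⟨k, hk⟩ := mem_iUnion.1 (hKU h2)
      exact mem_iUnion.2 ⟨k, hτ, hk⟩
    obtain ⟨k, hk⟩ := Pool.Agent.W605.HD.pigeon volume (Icc h (h + η)) (T v) h1 η ρ hη hρ0 hρ1
      (by rw [Real.volume_Icc, add_sub_cancel_left])
    exact mem_iUnion.2 ⟨k, hV v hv.1, hk⟩
  obtain ⟨k, hk⟩ := Pool.Agent.W605.HD.pigeon volume V' E hVE x₀ ρ hx₀ hρ0 hρ1 hx₀V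
  have hpk : 0 < ρ ^ k := by positivity
  have hkk : k0 + 1 ≤ k := by
    by_contra hlt
    push Not at hlt
    have h1 : E k = ∅ := by
      rw [Set.eq_empty_iff_forall_notMem]
      rintro v ⟨-, hv⟩
      have h2 : T v k = ∅ := by
        rw [Set.eq_empty_iff_forall_notMem]
        rintro τ ⟨-, hτ⟩
        rw [hU0 k hlt] at hτ
        exact hτ
      rw [h2, measure_empty, nonpos_iff_eq_zero, ENNReal.ofReal_eq_zero] at hv
      have : 0 < c₂ * ρ ^ k := by positivity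
      linarith
    rw [h1, measure_empty, nonpos_iff_eq_zero, ENNReal.ofReal_eq_zero] at hk
    have : 0 < x₀ * (1 - ρ) / 2 * ρ ^ k := by positivity
    linarith
  -- the maximal estimate at the scale `k`
  set r : ℝ := (1 / 2 : ℝ) ^ k with hr
  have hr0 : 0 < r := by positivity
  have hr1 : r < 1 := pow_lt_one₀ (by norm_num) (by norm_num) (by omega)
  obtain ⟨Ψ, hΨ1, hΨ2, hΨ3⟩ := hgood r hr0 hr1 ((U' k).indicator 1)
    (measurable_one.indicator (hU'c k).measurableSet)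
  set w : ℝ := c₂ * ρ ^ k * (2 * r) ^ d with hw
  have hw0 : 0 < w := by positivity
  have hEΨ : E k ⊆ {v | ENNReal.ofReal w ≤ Ψ v} := by
    rintro v ⟨hv1, hv2⟩
    refine le_trans ?_ (hΨ2 v hv1)
    refine le_trans ?_ (tub_ge (hU'c k).measurableSet (hTc v k).measurableSet ?_ hr0.le)
    · rw [hw, ENNReal.ofReal_mul (by positivity)]
      exact mul_le_mul_left hv2 _
    · rintro τ ⟨hτ1, hτ2⟩
      refine ⟨hτ1, fun y hy => ?_⟩
      obtain ⟨i, hi, hz⟩ := mem_iUnion₂.1 hτ2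
      refine mem_iUnion₂.2 ⟨i, hi, ?_⟩
      rw [Metric.mem_closedBall] at hz ⊢
      have h1 : dist ((τ, y) : ℝ × (Fin d → ℝ)) (τ, fun i => a v i + τ * v i) ≤ r := by
        rw [Prod.dist_eq]
        refine max_le (by simp [hr0.le]) ((dist_pi_le_iff hr0.le).2 fun i => ?_)
        rw [Real.dist_eq]
        exact hy i
      have h2 := dist_triangle ((τ, y) : ℝ × (Fin d → ℝ)) (τ, fun i => a v i + τ * v i) (p i)
      linarith
  have hmark : ENNReal.ofReal w * volume (E k) ≤ ∫⁻ v, Ψ v :=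
    (mul_le_mul_right (measure_mono hEΨ) _).trans (mul_meas_ge_le_lintegral hΨ1 _)
  -- the norm of the indicator
  have hnorm : ∫⁻ t in Icc h (h + η), (∫⁻ y, (U' k).indicator (1 : ℝ × (Fin d → ℝ) → ℝ≥0∞) (t, y) ^
      ((d:ℝ) + 1)) ^ (1 / ((d:ℝ) + 1)) ≤
      ENNReal.ofReal (((2:ℝ) ^ ((α : ℝ) * (k + 1)) * (4 * r) ^ (d + 1)) ^ (1 / n)) := by
    refine (mixed_le (measurable_one.indicator (hU'c k).measurableSet) hη1).trans ?_
    rw [← ENNReal.ofReal_rpow_of_nonneg (by positivity) (by positivity)]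
    refine ENNReal.rpow_le_rpow ?_ (by positivity)
    refine le_trans (le_of_eq ?_) (hvolU' k)
    rw [← lintegral_indicator_one (hU'c k).measurableSet]
    refine lintegral_congr fun z => ?_
    by_cases hz : z ∈ U' k
    · rw [indicator_of_mem hz, Pi.one_apply, ENNReal.one_rpow]
    · rw [indicator_of_notMem hz, ENNReal.zero_rpow_of_pos (by positivity)]
  have hC : ENNReal.ofReal (C * r ^ (-(β + γ / (4 * n)))) ≤
      ENNReal.ofReal ((|C| + 1) * r ^ (-(β + γ / (4 * n)))) := by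
    refine ENNReal.ofReal_le_ofReal (mul_le_mul_of_nonneg_right ?_ (Real.rpow_nonneg hr0.le _))
    linarith [le_abs_self C]
  have hfinal : ENNReal.ofReal (w * (c₁ * ρ ^ k)) ≤ ENNReal.ofReal (r ^ d *
      (((|C| + 1) * r ^ (-(β + γ / (4 * n)))) *
        ((2:ℝ) ^ ((α : ℝ) * (k + 1)) * (4 * r) ^ (d + 1)) ^ (1 / n))) := by
    rw [ENNReal.ofReal_mul hw0.le, ENNReal.ofReal_mul (p := r ^ d) (by positivity),
      ENNReal.ofReal_mul (p := (|C| + 1) * r ^ (-(β + γ / (4 * n)))) (by positivity)]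
    calc ENNReal.ofReal w * ENNReal.ofReal (c₁ * ρ ^ k) ≤ ENNReal.ofReal w * volume (E k) :=
          mul_le_mul_right hk _
      _ ≤ _ := hmark.trans (hΨ3.trans (mul_le_mul_right (mul_le_mul' hC hnorm) _))
  have hfinal2 := (ENNReal.ofReal_le_ofReal_iff (by positivity)).1 hfinal
  -- the numerical contradiction
  have e1 : r = (2:ℝ) ^ (-(k:ℝ)) := by
    rw [hr, one_div, inv_pow, Real.rpow_neg (by norm_num), Real.rpow_natCast]
  have e2 : ((2:ℝ) ^ ((α : ℝ) * (k + 1)) * (4 * r) ^ (d + 1)) ^ (1 / n) =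
      ((2:ℝ) ^ (α : ℝ) * 4 ^ n) ^ (1 / n) * (2:ℝ) ^ (-(β + γ / n) * k) := by
    have e3 : (4 * r) ^ (d + 1) = (4:ℝ) ^ n * (2:ℝ) ^ (-(k:ℝ) * n) := by
      rw [← Real.rpow_natCast, Real.mul_rpow (by norm_num) hr0.le, e1,
        ← Real.rpow_mul (by norm_num)]
      push_cast
      rfl
    have e4 : (2:ℝ) ^ ((α : ℝ) * (k + 1)) * (4 * r) ^ (d + 1) =
        ((2:ℝ) ^ (α : ℝ) * 4 ^ n) * (2:ℝ) ^ (-(n * β + γ) * k) := by
      have f1 : (2:ℝ) ^ ((α : ℝ) * (k + 1)) = (2:ℝ) ^ ((α : ℝ) * k) * (2:ℝ) ^ (α : ℝ) := by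
        rw [← Real.rpow_add (by norm_num)]
        congr 1
        ring
      have f2 : (2:ℝ) ^ (-(n * β + γ) * k) = (2:ℝ) ^ ((α : ℝ) * k) * (2:ℝ) ^ (-(k:ℝ) * n) := by
        rw [← Real.rpow_add (by norm_num)]
        congr 1
        rw [hγ]
        ring
      rw [e3, f1, f2]
      ring
    rw [e4, Real.mul_rpow (by positivity) (by positivity), ← Real.rpow_mul (by norm_num)]
    congr 2
    field_simp
  have e5 : r ^ (-(β + γ / (4 * n))) = (2:ℝ) ^ ((β + γ / (4 * n)) * k) := by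
    rw [e1, ← Real.rpow_mul (by norm_num)]
    congr 1
    ring
  have e6 : ρ ^ k = (2:ℝ) ^ (-(γ / (8 * n)) * k) := by
    rw [hρ, ← Real.rpow_natCast, ← Real.rpow_mul (by norm_num)]
  rw [e2, e5, hw] at hfinal2
  have hrd : 0 < r ^ d := by positivity
  have h2d : (1:ℝ) ≤ 2 ^ d := one_le_pow₀ (by norm_num)
  have e7 : c₁ * c₂ * (2:ℝ) ^ (-(γ / (4 * n)) * k) ≤
      (|C| + 1) * ((2:ℝ) ^ (α : ℝ) * 4 ^ n) ^ (1 / n) * (2:ℝ) ^ (-(3 * γ / (4 * n)) * k) := by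
    have e8 : ρ ^ k * ρ ^ k = (2:ℝ) ^ (-(γ / (4 * n)) * k) := by
      rw [e6, ← Real.rpow_add (by norm_num)]
      congr 1
      field_simp
      ring
    have e9 : (2:ℝ) ^ ((β + γ / (4 * n)) * k) * (2:ℝ) ^ (-(β + γ / n) * k) =
        (2:ℝ) ^ (-(3 * γ / (4 * n)) * k) := by
      rw [← Real.rpow_add (by norm_num)]
      congr 1
      field_simp
      ring
    have e10 : r ^ d * (c₁ * c₂ * (2:ℝ) ^ (-(γ / (4 * n)) * k)) ≤
        r ^ d * ((|C| + 1) * ((2:ℝ) ^ (α : ℝ) * 4 ^ n) ^ (1 / n) *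
          (2:ℝ) ^ (-(3 * γ / (4 * n)) * k)) := by
      rw [← e8, ← e9]
      calc r ^ d * (c₁ * c₂ * (ρ ^ k * ρ ^ k))
          ≤ 2 ^ d * (r ^ d * (c₁ * c₂ * (ρ ^ k * ρ ^ k))) :=
            le_mul_of_one_le_left (by positivity) h2d
        _ = c₂ * ρ ^ k * (2 * r) ^ d * (c₁ * ρ ^ k) := by rw [mul_pow]; ring
        _ ≤ _ := hfinal2
        _ = _ := by ring
    exact le_of_mul_le_mul_left e10 hrd
  have e11 := hk0 k (by omega)
  rw [div_lt_iff₀ (by positivity)] at e11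
  have e12 : ((2:ℝ) ^ (γ / (2 * n))) ^ k = (2:ℝ) ^ (-(γ / (4 * n)) * k) /
      (2:ℝ) ^ (-(3 * γ / (4 * n)) * k) := by
    rw [← Real.rpow_natCast, ← Real.rpow_mul (by norm_num), ← Real.rpow_sub (by norm_num)]
    congr 1
    field_simp
    ring
  rw [e12, div_mul_eq_mul_div, lt_div_iff₀ (by positivity)] at e11
  linarith

end Pool.Agent.N269.MX
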