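import Pool.Agent.N269.AK.Main
import Pool.Agent.N269.MX.TreeHaus

set_option autoImplicit false

/-!
# Labelled trees
-/

open Set MeasureTheory
open scoped ENNReal NNReal

namespace Pool.Agent.N269.MX
open Pool.Agent.N269.AK

/-- The state after `j` letters is the prefix which was read. -/
theorem st_app {ι : Type} (u : List ι) (Y : ℕ → ι) (j : ℕ) :
    st (fun (u : List ι) x => u ++ [x]) u Y j = u ++ List.ofFn (fun i : Fin j => Y i) := by
  induction j with
  | zero => simp [st]
  | succ j ih =>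
    show st (fun (u : List ι) x => u ++ [x]) u Y j ++ [Y j] = _
    rw [ih, List.ofFn_succ', List.concat_eq_append, List.append_assoc]
    simp

theorem tmain {d b : ℕ} [NeZero b] (hb : 2 ≤ b) (hd : 1 ≤ d)
    (lab : List (Fin d → Fin b) → Fin d → ℚ) (hfin : (Set.range lab).Finite)
    {κ : ℝ} (hκ0 : 0 ≤ κ) (hκ : ∀ κ' : ℝ, κ < κ' → ∃ᶠ m : ℕ in Filter.atTop,
      ((Set.range fun (u : List (Fin d → Fin b)) (w : {w : List (Fin d → Fin b) // w.length ≤ m}) =>
        lab (u ++ w)).ncard : ℝ) ≤ (b:ℝ) ^ (κ' * m))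
    (K : Set (EuclideanSpace ℝ (Fin (d + 1))))
    (V : Set (Fin d → ℝ)) (hV : ∀ v ∈ V, ∀ i, v i ∈ Ico (0:ℝ) 1) (hV0 : volume V ≠ 0)
    (h : ∀ v ∈ V, ∃ t₁ t₂ : ℝ, t₁ < t₂ ∧ ∀ t ∈ Icc t₁ t₂,
      pt t (fun i => (∑' n, (lab (List.ofFn fun (j : Fin (n + 1)) (i : Fin d) =>
        Real.digits (v i) b j) i : ℝ) / (b:ℝ) ^ (n + 1)) + t * v i) ∈ K) :
    ENNReal.ofReal (((d:ℝ) + 1) * (1 - κ)) ≤ dimH K := by
  classical
  have hne : Nonempty (Fin d → Fin b) := ⟨fun _ => ⟨0, by omega⟩⟩
  have : Fintype (Set.range lab) := hfin.fintype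
  obtain ⟨r, g, hr, hg⟩ := exists_den
    (fun x : Set.range lab × Fin d => (x.1 : Fin d → ℚ) x.2)
  have hr0 : (0:ℝ) < r := by exact_mod_cast hr
  let δ : List (Fin d → Fin b) → (Fin d → Fin b) → List (Fin d → Fin b) := fun u x => u ++ [x]
  let γ : List (Fin d → Fin b) → Fin d → ℤ := fun u i => g (⟨lab u, mem_range_self u⟩, i)
  let α : List (Fin d → Fin b) → (Fin d → Fin b) → Fin d → ℤ := fun u x i => γ (u ++ [x]) i
  have hγ : ∀ u u', lab u = lab u' → γ u = γ u' := by
    intro u u' he
    funext i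
    simp only [γ]
    congr 2
    exact Subtype.ext he
  obtain ⟨A₀, hA⟩ : ∃ A₀ : ℕ, ∀ s i a, |α s i a| ≤ A₀ := by
    refine ⟨∑ z : Set.range lab × Fin d, (g z).natAbs, fun s i a => ?_⟩
    have h1 := Finset.single_le_sum (f := fun z : Set.range lab × Fin d =>
      (g z).natAbs) (fun _ _ => Nat.zero_le _)
      (Finset.mem_univ (⟨lab (s ++ [i]), mem_range_self _⟩, a))
    rw [Int.abs_eq_natAbs]
    exact_mod_cast h1
  -- the types of blocks
  have hty : ∀ m u u', (∀ w : List (Fin d → Fin b), w.length ≤ m → lab (u ++ w) = lab (u' ++ w)) →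
      vA b δ α u m = vA b δ α u' m := by
    intro m u u' he
    funext w a
    unfold vA
    refine congrFun (hor_congr _ (fun j hj => ?_)) a
    unfold outs
    simp only [α, δ]
    rw [st_app, st_app]
    refine hγ _ _ ?_
    rw [List.append_assoc, List.append_assoc]
    refine he _ ?_
    simp
    omega
  have hfm : ∀ m : ℕ, (Set.range fun (u : List (Fin d → Fin b))
      (w : {w : List (Fin d → Fin b) // w.length ≤ m}) => lab (u ++ w)).Finite := by
    intro m
    have : Finite {w : List (Fin d → Fin b) // w.length ≤ m} :=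
      (List.finite_length_le (Fin d → Fin b) m).to_subtype
    refine (Set.Finite.pi' (fun _ : {w : List (Fin d → Fin b) // w.length ≤ m} => hfin)).subset ?_
    rintro f ⟨u, rfl⟩ w
    exact mem_range_self _
  have hT : ∀ m : ℕ, ∃ T : Finset ((Fin m → Fin d → Fin b) → Fin d → ℤ),
      (∀ u : List (Fin d → Fin b), vA b δ α u m ∈ T) ∧
      T.card ≤ (Set.range fun (u : List (Fin d → Fin b))
        (w : {w : List (Fin d → Fin b) // w.length ≤ m}) => lab (u ++ w)).ncard := by
    intro m
    set S := Set.range fun (u : List (Fin d → Fin b))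
      (w : {w : List (Fin d → Fin b) // w.length ≤ m}) => lab (u ++ w) with hS
    let Φ : ({w : List (Fin d → Fin b) // w.length ≤ m} → Fin d → ℚ) →
        ((Fin m → Fin d → Fin b) → Fin d → ℤ) := fun f =>
      if hf : ∃ u : List (Fin d → Fin b), (fun w : {w : List (Fin d → Fin b) // w.length ≤ m} =>
        lab (u ++ w)) = f then vA b δ α hf.choose m else 0
    refine ⟨((hfm m).image Φ).toFinset, fun u => ?_, ?_⟩
    · rw [Set.Finite.mem_toFinset]
      refine ⟨_, mem_range_self u, ?_⟩
      have hex : ∃ u' : List (Fin d → Fin b),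
          (fun w : {w : List (Fin d → Fin b) // w.length ≤ m} => lab (u' ++ w)) =
          (fun w : {w : List (Fin d → Fin b) // w.length ≤ m} => lab (u ++ w)) := ⟨u, rfl⟩
      simp only [Φ]
      rw [dif_pos hex]
      refine hty m _ _ fun w hw => ?_
      exact congrFun hex.choose_spec ⟨w, hw⟩
    · rw [← Set.ncard_eq_toFinset_card _ ((hfm m).image Φ)]
      exact Set.ncard_image_le (hfm m)
  set G : ℝ × (Fin d → ℝ) → EuclideanSpace ℝ (Fin (d + 1)) :=
    fun z => pt (z.1 / r) (fun a => z.2 a / r) with hG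
  have h1 := hausB (a := fun v => pos b δ α [] (dseq d b v)) hκ0 (fun ε hε => by
      obtain ⟨κ', hκ1, hκ2⟩ := exists_between hε
      refine goodAt_tree hb hd δ α hA (hκ0.trans hκ1.le) ?_ [] hκ2
      refine (hκ κ' hκ1).mono fun m hm => ?_
      obtain ⟨T, hT1, hT2⟩ := hT m
      refine ⟨T, hT1, le_trans ?_ hm⟩
      exact_mod_cast hT2) (G ⁻¹' K) V hV hV0 (fun v hv => by
      obtain ⟨t₁, t₂, h12, ht⟩ := h v hv
      refine ⟨r * t₁, r * t₂, mul_lt_mul_of_pos_left h12 hr0, fun τ hτ => ?_⟩
      have h3 := ht (τ / r) ⟨by rw [le_div_iff₀ hr0]; linarith [hτ.1],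
        by rw [div_le_iff₀ hr0]; linarith [hτ.2]⟩
      rw [mem_preimage, hG]
      convert h3 using 2
      funext a
      simp only
      rw [add_div]
      congr 1
      · unfold pos ser
        rw [div_eq_mul_inv, ← tsum_mul_right]
        congr 1
        funext n
        unfold outs
        simp only [α, δ]
        rw [st_app, List.nil_append]
        have h4 : (List.ofFn fun i : Fin n => dseq d b v i) ++ [dseq d b v n] =
            List.ofFn fun (j : Fin (n + 1)) (i : Fin d) => Real.digits (v i) b j := by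
          rw [List.ofFn_succ', List.concat_eq_append]
          rfl
        rw [h4]
        simp only [γ]
        rw [hg]
        field_simp
      · ring)
  exact h1.trans ((pt_anti (d := d) hr0).dimH_preimage_le K)

end Pool.Agent.N269.MX
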