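import Pool.Agent.N269.MX.Akc
import Pool.Agent.N269.MX.TMain

set_option autoImplicit false

/-!
# Progressions with all common differences: labelled trees
-/

open Set MeasureTheory
open scoped ENNReal

namespace Pool.Agent.N269.MX
open Pool.Agent.N269.AK

theorem akc_tree {d b : ℕ} [NeZero b] (hd : 1 ≤ d) (hb : 2 ≤ b) :
    ∃ C : ℝ, ∀ (m N A : ℕ) (lab : List (Fin d → Fin b) → Fin d → ℤ), 1 ≤ m →
      (∀ u i, |lab u i| ≤ A) →
      (∀ l : ℕ, ((fun (u : List (Fin d → Fin b)) (w : {w : List (Fin d → Fin b) // w.length ≤ m}) =>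
        lab (u ++ w)) '' {u | u.length = l}).ncard ≤ N) →
      ∀ (B : Set (EuclideanSpace ℝ (Fin d))) (V : Set (Fin d → ℝ)),
      (∀ v ∈ V, ∀ i, v i ∈ Set.Ico (0:ℝ) 1) → volume V ≠ 0 →
      (∀ v ∈ V, ∀ i : ℕ, i < b ^ m → (WithLp.toLp 2 fun j =>
        (∑' n, (lab (List.ofFn fun (k : Fin (n + 1)) (l : Fin d) =>
          Real.digits (v l) b k) j : ℝ) / (b:ℝ) ^ (n + 1)) + i * v j) ∈ B) →
      ∃ c : ℝ, 0 < c ∧ ∀ δ : ℝ, 0 < δ → δ < 1 → ∀ S : Finset (Set (EuclideanSpace ℝ (Fin d))),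
        (∀ Y ∈ S, ∀ x ∈ Y, ∀ y ∈ Y, dist x y ≤ δ) → B ⊆ ⋃ Y ∈ S, Y →
        c * δ ^ (-((d:ℝ) - (((d:ℝ) + 1) * Real.log N + C * Real.log (m + 1)) /
          (m * Real.log b))) ≤ S.card := by
  classical
  obtain ⟨K₀, E, hakc⟩ := akc (d := d) hb hd
  refine ⟨d * (Real.log (K₀ + 1) / Real.log 2 + E), ?_⟩
  intro m N A lab hm hA hN B V hV hV0 h
  have hne : Nonempty (Fin d → Fin b) := ⟨fun _ => ⟨0, by omega⟩⟩
  have hb0 : (0:ℝ) < b := by positivity
  have hb1 : (1:ℝ) < b := by exact_mod_cast (by omega : 1 < b)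
  have hm0 : (0:ℝ) < m := by exact_mod_cast hm
  have hm1 : (1:ℝ) ≤ m := by exact_mod_cast hm
  have hd0 : (0:ℝ) < d := by exact_mod_cast hd
  let del : List (Fin d → Fin b) → (Fin d → Fin b) → List (Fin d → Fin b) := fun u x => u ++ [x]
  let α : List (Fin d → Fin b) → (Fin d → Fin b) → Fin d → ℤ := fun u x i => lab (u ++ [x]) i
  have hα : ∀ s i a, |α s i a| ≤ A := fun s i a => hA _ _
  have hty : ∀ m u u', (∀ w : List (Fin d → Fin b), w.length ≤ m → lab (u ++ w) = lab (u' ++ w)) →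
      vA b del α u m = vA b del α u' m := by
    intro m u u' he
    funext w a
    unfold vA
    refine congrFun (hor_congr _ (fun j hj => ?_)) a
    unfold outs
    simp only [α, del]
    rw [st_app, st_app]
    rw [List.append_assoc, List.append_assoc, he _ (by simp; omega)]
  have hlfin : (Set.range lab).Finite := by
    refine (Set.Finite.pi' (fun _ : Fin d => (Set.finite_Icc (-(A:ℤ)) A))).subset ?_
    rintro f ⟨u, rfl⟩ i
    exact abs_le.1 (hA u i)
  have hfm : ∀ l : ℕ, ((fun (u : List (Fin d → Fin b))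
      (w : {w : List (Fin d → Fin b) // w.length ≤ m}) => lab (u ++ w)) ''
        {u | u.length = l}).Finite := by
    intro l
    have : Finite {w : List (Fin d → Fin b) // w.length ≤ m} :=
      (List.finite_length_le (Fin d → Fin b) m).to_subtype
    refine (Set.Finite.pi' (fun _ : {w : List (Fin d → Fin b) // w.length ≤ m} => hlfin)).subset ?_
    rintro f ⟨u, -, rfl⟩ w
    exact mem_range_self _
  have hT : ∀ k : ℕ, ∃ T : Finset ((Fin m → Fin d → Fin b) → Fin d → ℤ),
      (∀ u : List (Fin d → Fin b), u.length = m * k → vA b del α u m ∈ T) ∧ T.card ≤ N := by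
    intro k
    let Φ : ({w : List (Fin d → Fin b) // w.length ≤ m} → Fin d → ℤ) →
        ((Fin m → Fin d → Fin b) → Fin d → ℤ) := fun f =>
      if hf : ∃ u : List (Fin d → Fin b), (fun w : {w : List (Fin d → Fin b) // w.length ≤ m} =>
        lab (u ++ w)) = f then vA b del α hf.choose m else 0
    refine ⟨((hfm (m * k)).image Φ).toFinset, fun u hu => ?_, ?_⟩
    · rw [Set.Finite.mem_toFinset]
      refine ⟨_, mem_image_of_mem _ hu, ?_⟩
      have hex : ∃ u' : List (Fin d → Fin b),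
          (fun w : {w : List (Fin d → Fin b) // w.length ≤ m} => lab (u' ++ w)) =
          (fun w : {w : List (Fin d → Fin b) // w.length ≤ m} => lab (u ++ w)) := ⟨u, rfl⟩
      simp only [Φ]
      rw [dif_pos hex]
      refine hty m _ _ fun w hw => ?_
      exact congrFun hex.choose_spec ⟨w, hw⟩
    · rw [← Set.ncard_eq_toFinset_card _ ((hfm (m * k)).image Φ)]
      exact (Set.ncard_image_le (hfm (m * k))).trans (hN _)
  choose T hT1 hT2 using hT
  have hT3 : ∀ k, ∀ w : Fin (m * k) → Fin d → Fin b,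
      vA b del α (sS del [] (m * k) w) m ∈ T k := by
    intro k w
    refine hT1 k _ ?_
    unfold sS
    simp only [del]
    rw [st_app]
    simp
  have hN1 : 1 ≤ N := Nat.succ_le_of_lt (lt_of_lt_of_le
    (Finset.card_pos.2 ⟨_, hT3 0 (fun _ => Classical.arbitrary _)⟩) (hT2 0))
  have hN0 : (0:ℝ) < N := by exact_mod_cast hN1
  obtain ⟨c, hc, hcov⟩ := hakc (X := EuclideanSpace ℝ (Fin d)) del α m N A hm hα T [] hT3 hT2
    (fun x j => x j) B V hV hV0 (fun v hv i hi => by
      refine ⟨_, h v hv i hi, ?_⟩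
      funext j
      simp only
      congr 1
      unfold pos ser
      refine tsum_congr fun n => ?_
      unfold outs
      simp only [α, del]
      rw [st_app, List.nil_append]
      have h4 : (List.ofFn fun i : Fin n => dseq d b v i) ++ [dseq d b v n] =
          List.ofFn fun (k : Fin (n + 1)) (l : Fin d) => Real.digits (v l) b k := by
        rw [List.ofFn_succ', List.concat_eq_append]
        rfl
      rw [h4])
  -- the exponents
  set Z : ℝ := (N:ℝ) ^ (d + 1) * ((K₀ + 1) * (m:ℝ) ^ E) ^ d with hZ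
  have hZ0 : 0 < Z := by positivity
  set s : ℝ := d - Real.log Z / (m * Real.log b) with hs
  have hlogb : 0 < Real.log b := Real.log_pos hb1
  have hZs : ∀ J : ℕ, ((b:ℝ) ^ (d * m)) ^ J / Z ^ J = ((b:ℝ) ^ (m * J)) ^ s := by
    intro J
    have e1 : Z = (b:ℝ) ^ (Real.log Z / Real.log b) := by
      rw [Real.rpow_def_of_pos hb0, mul_div_cancel₀ _ hlogb.ne', Real.exp_log hZ0]
    rw [div_eq_iff (by positivity)]
    conv_rhs => rw [e1]
    rw [← Real.rpow_natCast ((b:ℝ) ^ (d * m)) J, ← Real.rpow_natCast b (d * m),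
      ← Real.rpow_natCast b (m * J), ← Real.rpow_mul hb0.le, ← Real.rpow_mul hb0.le,
      ← Real.rpow_natCast _ J, ← Real.rpow_mul hb0.le, ← Real.rpow_add hb0]
    congr 1
    rw [hs]
    push_cast
    field_simp
    ring
  have hss : (d:ℝ) - (((d:ℝ) + 1) * Real.log N + (d * (Real.log (K₀ + 1) / Real.log 2 + E)) *
      Real.log (m + 1)) / (m * Real.log b) ≤ s := by
    rw [hs]
    refine sub_le_sub_left (div_le_div_of_nonneg_right ?_ (by positivity)) _
    have e2 : Real.log Z = ((d:ℝ) + 1) * Real.log N + d * (Real.log (K₀ + 1) + E * Real.log m) := by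
      rw [hZ, Real.log_mul (by positivity) (by positivity), Real.log_pow, Real.log_pow,
        Real.log_mul (by positivity) (by positivity), Real.log_pow]
      push_cast
      ring
    have e3 : Real.log m ≤ Real.log (m + 1) := Real.log_le_log hm0 (by linarith)
    have e4 : Real.log 2 ≤ Real.log (m + 1) := Real.log_le_log (by norm_num) (by linarith)
    have e5 : 0 ≤ Real.log ((K₀:ℝ) + 1) := Real.log_nonneg (by
      have : (0:ℝ) ≤ K₀ := Nat.cast_nonneg _
      linarith)
    have e6 : 0 < Real.log 2 := Real.log_pos (by norm_num)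
    have e7 : Real.log ((K₀:ℝ) + 1) ≤ Real.log (K₀ + 1) / Real.log 2 * Real.log (m + 1) := by
      rw [div_mul_eq_mul_div, le_div_iff₀ e6]
      exact mul_le_mul_of_nonneg_left e4 e5
    have e8 : (E:ℝ) * Real.log m ≤ E * Real.log (m + 1) :=
      mul_le_mul_of_nonneg_left e3 (Nat.cast_nonneg _)
    rw [e2]
    have e9 : (d:ℝ) * (Real.log (K₀ + 1) + E * Real.log m) ≤
        d * (Real.log (K₀ + 1) / Real.log 2 * Real.log (m + 1) + E * Real.log (m + 1)) :=
      mul_le_mul_of_nonneg_left (add_le_add e7 e8) hd0.le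
    linarith
  refine ⟨c * ((b:ℝ) ^ m) ^ (-|s|), by positivity, fun δ hδ hδ1 S hS hBS => ?_⟩
  have hbm : (1:ℝ) < (b:ℝ) ^ m := one_lt_pow₀ hb1 (by omega)
  obtain ⟨J, hJ1, hJ2⟩ := exists_nat_pow_near (one_le_one_div hδ hδ1.le) hbm
  rw [← pow_mul] at hJ1 hJ2
  have hδJ : δ ≤ ((b:ℝ) ^ (m * J))⁻¹ := by
    rw [le_inv_comm₀ hδ (by positivity), ← one_div]
    exact hJ1
  have h1 := hcov J S hBS (fun Y hY x hx y hy j => by
    refine le_trans ?_ ((hS Y hY x hx y hy).trans hδJ)
    rw [dist_eq_norm]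
    have := PiLp.norm_apply_le (x - y) j
    rwa [PiLp.sub_apply, Real.norm_eq_abs] at this)
  have h2 : ((N:ℝ) ^ (d + 1) * ((K₀ * m ^ E : ℕ) : ℝ) ^ d) ^ J ≤ Z ^ J := by
    refine pow_le_pow_left₀ (by positivity) ?_ J
    rw [hZ]
    refine mul_le_mul_of_nonneg_left ?_ (by positivity)
    refine pow_le_pow_left₀ (by positivity) ?_ d
    push_cast
    exact mul_le_mul_of_nonneg_right (by linarith) (by positivity)
  have h3 : c * ((b:ℝ) ^ (m * J)) ^ s ≤ S.card := by
    rw [← hZs J, mul_div_assoc', div_le_iff₀ (by positivity)]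
    exact h1.trans (mul_le_mul_of_nonneg_left h2 (Nat.cast_nonneg _))
  refine le_trans ?_ h3
  rw [mul_assoc]
  refine mul_le_mul_of_nonneg_left ?_ hc.le
  have hδs : δ ^ (-((d:ℝ) - (((d:ℝ) + 1) * Real.log N +
      (d * (Real.log (K₀ + 1) / Real.log 2 + E)) * Real.log (m + 1)) / (m * Real.log b))) ≤
      (1 / δ) ^ s := by
    rw [one_div, Real.inv_rpow hδ.le, ← Real.rpow_neg hδ.le]
    exact Real.rpow_le_rpow_of_exponent_ge hδ hδ1.le (by linarith)
  refine (mul_le_mul_of_nonneg_left hδs (by positivity)).trans ?_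
  have hq : (1 / δ) ≤ (b:ℝ) ^ m * (b:ℝ) ^ (m * J) := by
    rw [← pow_add]
    refine hJ2.le.trans (le_of_eq ?_)
    congr 1
    ring
  rcases le_or_gt 0 s with hs0 | hs0
  · calc ((b:ℝ) ^ m) ^ (-|s|) * (1 / δ) ^ s ≤
          ((b:ℝ) ^ m) ^ (-|s|) * ((b:ℝ) ^ m * (b:ℝ) ^ (m * J)) ^ s :=
          mul_le_mul_of_nonneg_left (Real.rpow_le_rpow (by positivity) hq hs0) (by positivity)
      _ = (((b:ℝ) ^ m) ^ (-|s|) * ((b:ℝ) ^ m) ^ s) * ((b:ℝ) ^ (m * J)) ^ s := by
          rw [Real.mul_rpow (by positivity) (by positivity)]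
          ring
      _ = ((b:ℝ) ^ (m * J)) ^ s := by
          rw [abs_of_nonneg hs0, ← Real.rpow_add (by positivity), neg_add_cancel, Real.rpow_zero,
            one_mul]
  · calc ((b:ℝ) ^ m) ^ (-|s|) * (1 / δ) ^ s ≤ 1 * (1 / δ) ^ s := by
          refine mul_le_mul_of_nonneg_right ?_ (by positivity)
          exact Real.rpow_le_one_of_one_le_of_nonpos hbm.le (by simp)
      _ = (1 / δ) ^ s := one_mul _
      _ ≤ ((b:ℝ) ^ (m * J)) ^ s :=
          Real.rpow_le_rpow_of_nonpos (by positivity) hJ1 hs0.le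

end Pool.Agent.N269.MX
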