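import Pool.Agent.N269.MX.Pw
import Pool.Agent.N269.AK.Sym

set_option autoImplicit false

/-!
# Words: first and second parts, values
-/

open Finset

namespace Pool.Agent.N269.MX
open Pool.Agent.N269.AK

section
variable {Q ι : Type} [Nonempty ι] {d : ℕ}

/-- The output value of a word. -/
noncomputable def vA (M : ℤ) (δ : Q → ι → Q) (α : Q → ι → Fin d → ℤ) (s : Q) (n : ℕ)
    (w : Fin n → ι) (a : Fin d) : ℤ := hor M (outs δ α s (ext w)) n a

/-- The slope of a word. -/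
noncomputable def vD (M : ℤ) (dig : ι → Fin d → ℤ) (n : ℕ) (w : Fin n → ι) (a : Fin d) : ℤ :=
  hor M (fun j => dig (ext w j)) n a

/-- The state after a word. -/
noncomputable def sS (δ : Q → ι → Q) (s : Q) (n : ℕ) (w : Fin n → ι) : Q := st δ s (ext w) n

/-- The first part of a word. -/
def wl (m n : ℕ) (w : Fin (m + n) → ι) : Fin m → ι := fun i => w (Fin.castAdd n i)

/-- The second part of a word. -/
def wr (m n : ℕ) (w : Fin (m + n) → ι) : Fin n → ι := fun i => w (Fin.natAdd m i)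

theorem w_ext {m n : ℕ} {w w' : Fin (m + n) → ι} (h1 : wl m n w = wl m n w')
    (h2 : wr m n w = wr m n w') : w = w' := by
  funext i
  refine Fin.addCases (fun i => congrFun h1 i) (fun i => congrFun h2 i) i

theorem ext_wl {m n : ℕ} (w : Fin (m + n) → ι) : ∀ j < m, ext w j = ext (wl m n w) j := by
  intro j hj
  have h1 := ext_apply w (Fin.castAdd n ⟨j, hj⟩)
  have h2 := ext_apply (wl m n w) ⟨j, hj⟩
  simp only [Fin.val_castAdd] at h1
  rw [h1, h2]
  rfl

theorem ext_wr {m n : ℕ} (w : Fin (m + n) → ι) : ∀ j < n, ext w (m + j) = ext (wr m n w) j := by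
  intro j hj
  have h1 := ext_apply w (Fin.natAdd m ⟨j, hj⟩)
  have h2 := ext_apply (wr m n w) ⟨j, hj⟩
  simp only [Fin.val_natAdd] at h1
  rw [h1, h2]
  rfl

theorem vA_add (M : ℤ) (δ : Q → ι → Q) (α : Q → ι → Fin d → ℤ) (s : Q) (m n : ℕ)
    (w : Fin (m + n) → ι) (a : Fin d) :
    vA M δ α s (m + n) w a = M ^ n * vA M δ α s m (wl m n w) a +
      vA M δ α (sS δ s m (wl m n w)) n (wr m n w) a := by
  unfold vA sS
  rw [hor_add, hor_congr M (outs_congr δ α s (ext_wl w)), outs_add,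
    st_congr δ s (ext_wl w), hor_congr M (outs_congr δ α _ (ext_wr w))]

theorem vD_add (M : ℤ) (dig : ι → Fin d → ℤ) (m n : ℕ) (w : Fin (m + n) → ι) (a : Fin d) :
    vD M dig (m + n) w a = M ^ n * vD M dig m (wl m n w) a + vD M dig n (wr m n w) a := by
  unfold vD
  rw [hor_add, hor_congr M (f := fun j => dig (ext w j)) (f' := fun j => dig (ext (wl m n w) j))
    (fun j hj => by rw [ext_wl w j hj]), hor_congr M (f := fun j => dig (ext w (m + j)))
    (f' := fun j => dig (ext (wr m n w) j)) (fun j hj => by rw [ext_wr w j hj])]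

/-- Level sets of states. -/
theorem st_mem {δ : Q → ι → Q} {L : ℕ → Finset Q} (hL : ∀ i, ∀ s ∈ L i, ∀ x, δ s x ∈ L (i + 1))
    {i : ℕ} {s : Q} (hs : s ∈ L i) (Y : ℕ → ι) (n : ℕ) : st δ s Y n ∈ L (i + n) := by
  induction n with
  | zero => exact hs
  | succ n ih => exact hL _ _ ih _

end

section
variable {Q ι : Type} [Fintype ι] [Nonempty ι] {d M : ℕ}

/-- The residue of the point of the line of a word at the height `t₀`. -/
noncomputable def res (M : ℕ) (δ : Q → ι → Q) (α : Q → ι → Fin d → ℤ) (dig : ι → Fin d → ℤ) (m : ℕ)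
    (t₀ : ZMod (M ^ m)) (z : Q × (Fin m → ι)) (a : Fin d) : ZMod (M ^ m) :=
  ((vA M δ α z.1 m z.2 a : ℤ) : ZMod (M ^ m)) + t₀ * ((vD M dig m z.2 a : ℤ) : ZMod (M ^ m))

/-- The power sum of the multiplicities of the residues. -/
noncomputable def RM (θ : ℝ) (M : ℕ) (δ : Q → ι → Q) (α : Q → ι → Fin d → ℤ) (dig : ι → Fin d → ℤ)
    (L : ℕ → Finset Q) (m : ℕ) (t₀ : ZMod (M ^ m)) (i : ℕ) : ℝ :=
  pw θ (L i ×ˢ (univ : Finset (Fin m → ι))) (res M δ α dig m t₀)

/-- The point of the line of a word at the height `p / r`, times `r`. -/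
noncomputable def vZ (M : ℕ) (δ : Q → ι → Q) (α : Q → ι → Fin d → ℤ) (dig : ι → Fin d → ℤ) (r p : ℤ)
    (s : Q) (n : ℕ) (w : Fin n → ι) (a : Fin d) : ℤ := r * vA M δ α s n w a + p * vD M dig n w a

/-- The point of the line of a word at the height `t`. -/
noncomputable def vY (M : ℕ) (δ : Q → ι → Q) (α : Q → ι → Fin d → ℤ) (dig : ι → Fin d → ℤ) (t : ℝ)
    (s : Q) (n : ℕ) (w : Fin n → ι) (a : Fin d) : ℝ :=
  (vA M δ α s n w a : ℝ) + t * (vD M dig n w a : ℝ)

/-- The cells which contain the points of the lines at the height `t`. -/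
noncomputable def cel (M : ℕ) (δ : Q → ι → Q) (α : Q → ι → Fin d → ℤ) (dig : ι → Fin d → ℤ) (t : ℝ)
    (s : Q) (n : ℕ) (τ : Fin d → ℝ) (w : Fin n → ι) (a : Fin d) : ℤ :=
  ⌊vY M δ α dig t s n w a + τ a⌋

theorem vY_add (M : ℕ) (δ : Q → ι → Q) (α : Q → ι → Fin d → ℤ) (dig : ι → Fin d → ℤ) (t : ℝ)
    (s : Q) (m n : ℕ) (w : Fin (m + n) → ι) (a : Fin d) :
    vY M δ α dig t s (m + n) w a = (M:ℝ) ^ n * vY M δ α dig t s m (wl m n w) a +
      vY M δ α dig t (sS δ s m (wl m n w)) n (wr m n w) a := by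
  unfold vY
  rw [vA_add, vD_add]
  push_cast
  ring

end

end Pool.Agent.N269.MX
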