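import Pool.Agent.N269.MX.Dual
import Pool.Agent.N269.MX.Word
import Pool.Agent.N269.AK.Main

set_option autoImplicit false

/-!
# The maximal estimate for the lines of a program, from the power sums of the cells
-/

open Finset MeasureTheory
open scoped ENNReal

namespace Pool.Agent.N269.MX
open Pool.Agent.N269.AK

section
variable {Q : Type} {d b : ℕ}

/-- The first letters of a sequence. -/
def pre {ι : Type} (n : ℕ) (Y : ℕ → ι) : Fin n → ι := fun i => Y i

theorem ext_pre {ι : Type} [Nonempty ι] (n : ℕ) (Y : ℕ → ι) : ∀ j < n, Y j = ext (pre n Y) j := by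
  intro j hj
  have := ext_apply (pre n Y) ⟨j, hj⟩
  rw [this]
  rfl

theorem trunc_pos {ι : Type} [Nonempty ι] (hb : 2 ≤ b) (δ : Q → ι → Q) (α : Q → ι → Fin d → ℤ)
    {A₀ : ℕ} (hα : ∀ s i a, |α s i a| ≤ A₀) (s : Q) (Y : ℕ → ι) (n : ℕ) (a : Fin d) :
    |(b:ℝ) ^ n * pos b δ α s Y a - (vA b δ α s n (pre n Y) a : ℝ)| ≤ A₀ := by
  have hb1 : (1:ℝ) < b := by exact_mod_cast (by omega : 1 < b)
  have hb2 : (2:ℝ) ≤ b := by exact_mod_cast hb
  have hα' : ∀ j, |(outs δ α s Y j a : ℝ)| ≤ A₀ := fun j => by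
    have := hα (st δ s Y j) (Y j) a
    unfold outs
    exact_mod_cast this
  have h1 : pos b δ α s Y a = (vA b δ α s n (pre n Y) a : ℝ) / (b:ℝ) ^ n +
      ser b (fun j => (outs δ α s Y (n + j) a : ℝ)) / (b:ℝ) ^ n := by
    unfold pos vA
    rw [ser_split hb1 hα' n, sum_eq_hor hb (outs δ α s Y) a n,
      hor_congr b (outs_congr δ α s (ext_pre n Y))]
  have h2 : (b:ℝ) ^ n * pos b δ α s Y a - (vA b δ α s n (pre n Y) a : ℝ) =
      ser b (fun j => (outs δ α s Y (n + j) a : ℝ)) := by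
    rw [h1]
    field_simp
    ring
  rw [h2]
  refine (ser_abs_le hb1 (fun j => hα' (n + j))).trans ?_
  rw [div_le_iff₀ (by linarith)]
  nlinarith [(Nat.cast_nonneg A₀ : (0:ℝ) ≤ A₀)]

/-- The digits, as integers. -/
def dg (d b : ℕ) (w : Fin d → Fin b) (a : Fin d) : ℤ := ((w a : ℕ) : ℤ)

theorem dg_inj {d b : ℕ} (w w' : Fin d → Fin b) (hw : ∀ a, (b:ℤ) ∣ dg d b w a - dg d b w' a) :
    w = w' := by
  funext a
  apply Fin.ext
  have h1 := hw a
  simp only [dg] at h1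
  have h2 : ((w a : ℕ) : ℤ) < b := by exact_mod_cast (w a).2
  have h3 : ((w' a : ℕ) : ℤ) < b := by exact_mod_cast (w' a).2
  have h5 := (Int.emod_eq_emod_iff_emod_sub_eq_zero.2 (Int.emod_eq_zero_of_dvd h1))
  rw [Int.emod_eq_of_lt (by positivity) h2, Int.emod_eq_of_lt (by positivity) h3] at h5
  exact_mod_cast h5

/-- The sequence of digits of a vector. -/
noncomputable def dseq (d b : ℕ) [NeZero b] (v : Fin d → ℝ) (n : ℕ) (i : Fin d) : Fin b :=
  Real.digits (v i) b n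

theorem trunc_slo [NeZero b] (hb : 2 ≤ b) {v : Fin d → ℝ} (hv : ∀ i, v i ∈ Set.Ico (0:ℝ) 1) (n : ℕ)
    (a : Fin d) :
    (vD b (dg d b) n (pre n (dseq d b v)) a : ℝ) ≤ (b:ℝ) ^ n * v a ∧
      (b:ℝ) ^ n * v a ≤ (vD b (dg d b) n (pre n (dseq d b v)) a : ℝ) + 1 := by
  have hb1 : (1:ℝ) < b := by exact_mod_cast (by omega : 1 < b)
  have : Nonempty (Fin d → Fin b) := ⟨fun _ => ⟨0, by omega⟩⟩
  have h1 : Real.ofDigits (Real.digits (v a) b) = v a := Real.ofDigits_digits (by omega) (hv a)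
  have h2 := Real.ofDigits_eq_sum_add_ofDigits (Real.digits (v a) b) n
  rw [h1] at h2
  have h3 : ∑ j ∈ range n, Real.ofDigitsTerm (Real.digits (v a) b) j =
      (vD b (dg d b) n (pre n (dseq d b v)) a : ℝ) / (b:ℝ) ^ n := by
    unfold vD
    rw [← hor_congr b (f := fun j => dg d b (dseq d b v j))
      (f' := fun j => dg d b (ext (pre n (dseq d b v)) j))
      (fun j hj => congrArg _ (ext_pre n (dseq d b v) j hj)),
      ← sum_eq_hor hb (fun j => dg d b (dseq d b v j)) a n]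
    refine sum_congr rfl fun j _ => ?_
    simp [Real.ofDigitsTerm, dg, dseq, div_eq_mul_inv]
  have h4 := Real.ofDigits_nonneg (fun i => Real.digits (v a) b (i + n))
  have h5 := Real.ofDigits_le_one (fun i => Real.digits (v a) b (i + n))
  have hbn : (0:ℝ) < (b:ℝ) ^ n := by positivity
  set X := Real.ofDigits (fun i => Real.digits (v a) b (i + n)) with hX
  have h6 : (b:ℝ) ^ n * v a = (vD b (dg d b) n (pre n (dseq d b v)) a : ℝ) + X := by
    calc (b:ℝ) ^ n * v a = (b:ℝ) ^ n *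
          ((vD b (dg d b) n (pre n (dseq d b v)) a : ℝ) / (b:ℝ) ^ n + ((b:ℝ) ^ n)⁻¹ * X) := by
          rw [← h3, ← h2]
      _ = _ := by field_simp
  constructor <;> linarith

/-- The tube around a line, over an interval of heights. -/
def tub {d : ℕ} (h η r : ℝ) (p v : Fin d → ℝ) : Set (ℝ × (Fin d → ℝ)) :=
  {z | z.1 ∈ Set.Icc h (h + η) ∧ ∀ a, |z.2 a - (p a + z.1 * v a)| ≤ r}

/-- **The maximal estimate** for one scale. -/
theorem an [NeZero b] (hb : 2 ≤ b) (hd : 1 ≤ d) (δ : Q → (Fin d → Fin b) → Q)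
    (α : Q → (Fin d → Fin b) → Fin d → ℤ) {A₀ : ℕ} (hα : ∀ s i a, |α s i a| ≤ A₀) (s : Q)
    {h η T P r ρ : ℝ} (hT : ∀ t ∈ Set.Icc h (h + η), |t| ≤ T) (n : ℕ)
    (hP : ∀ t ∈ Set.Icc h (h + η), pw (1 / (d:ℝ)) (univ : Finset (Fin n → Fin d → Fin b))
      (cel b δ α (dg d b) t s n 0) ≤ P)
    (hρ : (b:ℝ) ^ n * r + A₀ + T ≤ ρ) {R : ℕ} (hR : ρ + 1 ≤ R)
    (f : ℝ × (Fin d → ℝ) → ℝ≥0∞) (hf : Measurable f) :
    ∃ Ψ : (Fin d → ℝ) → ℝ≥0∞, Measurable Ψ ∧
      (∀ v : Fin d → ℝ, (∀ i, v i ∈ Set.Ico (0:ℝ) 1) →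
        ∫⁻ z in tub h η r (pos b δ α s (dseq d b v)) v, f z ≤ Ψ v) ∧
      ∫⁻ v, Ψ v ≤ ENNReal.ofReal ((((b:ℝ) ^ n)⁻¹) ^ d) *
        ((∫⁻ t in Set.Icc h (h + η), (∫⁻ y, f (t, y) ^ ((d:ℝ) + 1)) ^ (1 / ((d:ℝ) + 1))) *
        (ENNReal.ofReal ((((2 * R + 1) ^ d : ℕ) : ℝ) ^ (1 + 1 / (d:ℝ)) *
          (((b:ℝ) ^ n)⁻¹) ^ d * P)) ^ (1 / (1 + 1 / (d:ℝ)))) := by
  classical
  have hb0 : (0:ℝ) < b := by positivity
  have : Nonempty (Fin d → Fin b) := ⟨fun _ => ⟨0, by omega⟩⟩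
  set N : ℝ := (b:ℝ) ^ n with hN
  have hN0 : 0 < N := by positivity
  set A : (Fin n → Fin d → Fin b) → Fin d → ℝ := fun w a => (vA b δ α s n w a : ℝ) with hA
  set D : (Fin n → Fin d → Fin b) → Fin d → ℝ := fun w a => (vD b (dg d b) n w a : ℝ) with hD
  set Bx : (Fin n → Fin d → Fin b) → Set (Fin d → ℝ) := fun w =>
    Set.Icc (fun a => D w a / N) (fun a => (D w a + 1) / N) with hBx
  have hBm : ∀ w, MeasurableSet (Bx w) := fun w => measurableSet_Icc
  have hBv : ∀ w, volume (Bx w) = ENNReal.ofReal ((N⁻¹) ^ d) := by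
    intro w
    rw [hBx]
    simp only
    rw [Real.volume_Icc_pi]
    have h1 : ∀ a : Fin d, (D w a + 1) / N - D w a / N = N⁻¹ := fun a => by
      field_simp
      ring
    simp only [h1]
    rw [prod_const, card_univ, Fintype.card_fin, ENNReal.ofReal_pow (by positivity)]
  refine ⟨fun v => ∑ w, (Bx w).indicator (fun _ => ∫⁻ z in TT h η N ρ (A w) (D w), f z) v,
    Finset.measurable_sum _ fun w _ => measurable_const.indicator (hBm w), ?_, ?_⟩
  · intro v hv
    set w := pre n (dseq d b v) with hw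
    have h1 : v ∈ Bx w := by
      rw [hBx]
      refine ⟨fun a => ?_, fun a => ?_⟩
      · show D w a / N ≤ v a
        rw [div_le_iff₀ hN0, mul_comm]
        exact (trunc_slo hb hv n a).1
      · show v a ≤ (D w a + 1) / N
        rw [le_div_iff₀ hN0, mul_comm]
        exact (trunc_slo hb hv n a).2
    have h2 : tub h η r (pos b δ α s (dseq d b v)) v ⊆ TT h η N ρ (A w) (D w) := by
      rintro z ⟨hz1, hz2⟩
      refine ⟨hz1, fun a => ?_⟩
      have e1 := trunc_pos hb δ α hα s (dseq d b v) n a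
      obtain ⟨e2, e3⟩ := trunc_slo hb hv n a
      have e4 := hz2 a
      have e5 := hT z.1 hz1
      rw [← hw] at e1 e2 e3
      rw [← hN] at e1 e2 e3
      have e6 : N * z.2 a - (A w a + z.1 * D w a) =
          N * (z.2 a - (pos b δ α s (dseq d b v) a + z.1 * v a)) +
          (N * pos b δ α s (dseq d b v) a - A w a) + z.1 * (N * v a - D w a) := by ring
      rw [e6]
      have e7 : |z.1 * (N * v a - D w a)| ≤ T := by
        rw [abs_mul, abs_of_nonneg (by simp only [hD]; linarith : 0 ≤ N * v a - D w a)]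
        calc |z.1| * (N * v a - D w a) ≤ |z.1| * 1 :=
              mul_le_mul_of_nonneg_left (by simp only [hD]; linarith) (abs_nonneg _)
          _ ≤ T := by rw [mul_one]; exact e5
      have e8 : |N * (z.2 a - (pos b δ α s (dseq d b v) a + z.1 * v a))| ≤ N * r := by
        rw [abs_mul, abs_of_pos hN0]
        exact mul_le_mul_of_nonneg_left e4 hN0.le
      refine ((abs_add_le _ _).trans (add_le_add (abs_add_le _ _) le_rfl)).trans ?_
      simp only [hA] at e1 ⊢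
      linarith
    calc ∫⁻ z in tub h η r (pos b δ α s (dseq d b v)) v, f z
        ≤ ∫⁻ z in TT h η N ρ (A w) (D w), f z := lintegral_mono_set h2
      _ = (Bx w).indicator (fun _ => ∫⁻ z in TT h η N ρ (A w) (D w), f z) v := by
          rw [Set.indicator_of_mem h1]
      _ ≤ _ := single_le_sum (f := fun w => (Bx w).indicator
          (fun _ => ∫⁻ z in TT h η N ρ (A w) (D w), f z) v) (fun _ _ => zero_le) (mem_univ w)
  · rw [lintegral_finsetSum _ fun w _ => measurable_const.indicator (hBm w)]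
    have h1 : ∀ w, ∫⁻ v, (Bx w).indicator (fun _ => ∫⁻ z in TT h η N ρ (A w) (D w), f z) v =
        ENNReal.ofReal ((N⁻¹) ^ d) * ∫⁻ z in TT h η N ρ (A w) (D w), f z := by
      intro w
      rw [lintegral_indicator_const (hBm w), hBv, mul_comm]
    simp only [h1]
    rw [← mul_sum]
    refine mul_le_mul_right ?_ _
    refine dual hd A D hN0 hR (fun t ht => ?_) f hf
    refine le_trans (le_of_eq ?_) (hP t ht)
    congr 1
    funext w a
    simp only [cel, vY, hA, hD, Pi.zero_apply, add_zero]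

end

end Pool.Agent.N269.MX
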