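import Pool.Agent.N269.MX.Word

set_option autoImplicit false

/-!
# The real stage
-/

open Finset

namespace Pool.Agent.N269.MX
open Pool.Agent.N269.AK

section
variable {Q ι : Type} [Fintype ι] [Nonempty ι] {d M : ℕ}

/-- **The real step**: one more block of letters at the beginning. -/
theorem real_step {θ : ℝ} (hθ : 0 ≤ θ) (hM : 2 ≤ M) (δ : Q → ι → Q) (α : Q → ι → Fin d → ℤ)
    (dig : ι → Fin d → ℤ) {L : ℕ → Finset Q} (hL : ∀ i, ∀ s ∈ L i, ∀ x, δ s x ∈ L (i + 1))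
    (ℓ n i : ℕ) {r : ℕ} {p : ℤ} (hr : 0 < r) {t B : ℝ}
    (hB0 : 0 ≤ B) (hB : ∀ s n (w : Fin n → ι) a, |vY M δ α dig t s n w a| ≤ B * (M:ℝ) ^ n)
    (hη : ∀ (w w' : Fin ℓ → ι) a,
      |t - p / r| * |(vD M dig ℓ w a : ℝ) - (vD M dig ℓ w' a : ℝ)| ≤ 1)
    {G : ℕ} (hG : (r:ℝ) * (2 + 2 * B) < G) {s : Q} (hs : s ∈ L i) {Bd : ℝ}
    (hBd : ∀ s' ∈ L (i + ℓ), ∀ τ' : Fin d → ℝ,
      pw θ (univ : Finset (Fin n → ι)) (cel M δ α dig t s' n τ') ≤ Bd) (τ : Fin d → ℝ) :
    pw θ (univ : Finset (Fin (ℓ + n) → ι)) (cel M δ α dig t s (ℓ + n) τ) ≤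
      ((G ^ d : ℕ) : ℝ) ^ θ * pw θ (univ : Finset (Fin ℓ → ι)) (vZ M δ α dig r p s ℓ) * Bd := by
  classical
  have hr0 : (0:ℝ) < r := by exact_mod_cast hr
  have hMn : (1:ℝ) ≤ (M:ℝ) ^ n := one_le_pow₀ (by exact_mod_cast (by omega : 1 ≤ M))
  have hG0 : (0:ℝ) < G := by nlinarith
  have : NeZero G := ⟨by rintro rfl; simp at hG0⟩
  -- near words have the same value
  have near : ∀ w w' : Fin (ℓ + n) → ι,
      (∀ a, ((vZ M δ α dig r p s ℓ (wl ℓ n w) a : ℤ) : ZMod G) =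
        ((vZ M δ α dig r p s ℓ (wl ℓ n w') a : ℤ) : ZMod G)) →
      cel M δ α dig t s (ℓ + n) τ w' = cel M δ α dig t s (ℓ + n) τ w →
      vZ M δ α dig r p s ℓ (wl ℓ n w') = vZ M δ α dig r p s ℓ (wl ℓ n w) := by
    intro w w' h1 h2
    funext a
    have h3 := congrFun h2 a
    unfold cel at h3
    have h4 := Int.abs_sub_lt_one_of_floor_eq_floor h3
    rw [vY_add, vY_add] at h4
    set u := wl ℓ n w
    set u' := wl ℓ n w'
    have e1 := hB (sS δ s ℓ u) n (wr ℓ n w) a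
    have e2 := hB (sS δ s ℓ u') n (wr ℓ n w') a
    set x := vY M δ α dig t s ℓ u a with hx
    set x' := vY M δ α dig t s ℓ u' a with hx'
    set y := vY M δ α dig t (sS δ s ℓ u) n (wr ℓ n w) a
    set y' := vY M δ α dig t (sS δ s ℓ u') n (wr ℓ n w') a
    have h5 : |x' - x| ≤ 1 + 2 * B := by
      have h6 : (M:ℝ) ^ n * |x' - x| ≤ 1 + 2 * (B * (M:ℝ) ^ n) := by
        rw [← abs_of_pos (by positivity : (0:ℝ) < (M:ℝ) ^ n), ← abs_mul,
          abs_of_pos (by positivity : (0:ℝ) < (M:ℝ) ^ n)]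
        have h7 : (M:ℝ) ^ n * (x' - x) = ((M:ℝ) ^ n * x' + y' + τ a - ((M:ℝ) ^ n * x + y + τ a)) -
            (y' - y) := by ring
        rw [h7]
        refine (abs_sub _ _).trans ?_
        have h8 := abs_sub y' y
        linarith
      have h7 : (M:ℝ) ^ n * |x' - x| ≤ (M:ℝ) ^ n * (1 + 2 * B) := by
        nlinarith
      exact le_of_mul_le_mul_left h7 (by linarith)
    have h6 := hη u' u a
    have h7 : (vZ M δ α dig r p s ℓ u' a : ℝ) - (vZ M δ α dig r p s ℓ u a : ℝ) =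
        r * ((x' - x) - (t - p / r) * ((vD M dig ℓ u' a : ℝ) - (vD M dig ℓ u a : ℝ))) := by
      rw [hx, hx']
      unfold vZ vY
      push_cast
      field_simp
      ring
    have h8 : |(vZ M δ α dig r p s ℓ u' a : ℝ) - (vZ M δ α dig r p s ℓ u a : ℝ)| < G := by
      rw [h7, abs_mul, abs_of_pos hr0]
      refine lt_of_le_of_lt ?_ hG
      refine mul_le_mul_of_nonneg_left ?_ hr0.le
      refine (abs_sub _ _).trans ?_
      rw [abs_mul]
      linarith
    have h9 : (G:ℤ) ∣ vZ M δ α dig r p s ℓ u' a - vZ M δ α dig r p s ℓ u a := by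
      rw [← ZMod.intCast_zmod_eq_zero_iff_dvd, Int.cast_sub, sub_eq_zero]
      exact (h1 a).symm
    have h10 : |vZ M δ α dig r p s ℓ u' a - vZ M δ α dig r p s ℓ u a| < G := by exact_mod_cast h8
    have h11 := Int.eq_zero_of_abs_lt_dvd h9 h10
    omega
  -- first decomposition: classes modulo `G`
  let cls : (Fin ℓ → ι) → (Fin d → ZMod G) := fun u a => ((vZ M δ α dig r p s ℓ u a : ℤ) : ZMod G)
  refine (pw_fib hθ (fun w => cls (wl ℓ n w)) univ (fun w _ => mem_univ _)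
    (fun _ => ((G ^ d : ℕ) : ℝ)) (fun w _ => ?_)).trans ?_
  · have : (fl univ fun u => ∃ w' ∈ (univ : Finset (Fin (ℓ + n) → ι)), cls (wl ℓ n w') = u ∧
        cel M δ α dig t s (ℓ + n) τ w' = cel M δ α dig t s (ℓ + n) τ w).card ≤ G ^ d := by
      refine (card_le_univ _).trans ?_
      rw [Fintype.card_fun, ZMod.card, Fintype.card_fin]
    exact_mod_cast this
  rw [← mul_sum, mul_assoc]
  refine mul_le_mul_of_nonneg_left ?_ (Real.rpow_nonneg (Nat.cast_nonneg _) _)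
  -- second decomposition: the first parts of the words
  have h2 : ∀ z : Fin d → ZMod G,
      pw θ (fl univ fun w : Fin (ℓ + n) → ι => cls (wl ℓ n w) = z)
        (cel M δ α dig t s (ℓ + n) τ) ≤
      ∑ u ∈ fl univ (fun u => cls u = z),
        ((fl univ fun u' => vZ M δ α dig r p s ℓ u' = vZ M δ α dig r p s ℓ u).card : ℝ) ^ θ *
          Bd := by
    intro z
    refine (pw_fib hθ (wl ℓ n) (fl univ (fun u => cls u = z)) (fun w hw => ?_)
      (fun u => ((fl univ fun u' => vZ M δ α dig r p s ℓ u' =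
        vZ M δ α dig r p s ℓ u).card : ℝ)) (fun w hw => ?_)).trans ?_
    · rw [mem_fl] at hw ⊢
      exact ⟨mem_univ _, hw.2⟩
    · rw [mem_fl] at hw
      have : (fl (fl univ (fun u => cls u = z)) fun u =>
          ∃ w' ∈ (fl univ fun w : Fin (ℓ + n) → ι => cls (wl ℓ n w) = z), wl ℓ n w' = u ∧
          cel M δ α dig t s (ℓ + n) τ w' = cel M δ α dig t s (ℓ + n) τ w) ⊆
          (fl univ fun u' => vZ M δ α dig r p s ℓ u' = vZ M δ α dig r p s ℓ (wl ℓ n w)) := by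
        intro u hu
        rw [mem_fl] at hu
        obtain ⟨-, w', hw', rfl, h3⟩ := hu
        rw [mem_fl] at hw'
        rw [mem_fl]
        exact ⟨mem_univ _, near w w' (fun a => congrFun (hw.2.trans hw'.2.symm) a) h3⟩
      exact_mod_cast card_le_card this
    · refine sum_le_sum fun u _ => ?_
      refine mul_le_mul_of_nonneg_left ?_ (Real.rpow_nonneg (Nat.cast_nonneg _) _)
      refine (pw_le_of_inj hθ (Ω' := univ) (wr ℓ n) (fun w _ => mem_univ _) ?_ ?_).trans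
        (hBd (sS δ s ℓ u) (st_mem hL hs _ _) (fun a => (M:ℝ) ^ n * vY M δ α dig t s ℓ u a + τ a))
      · intro w hw w' hw' h
        rw [mem_fl] at hw hw'
        exact w_ext (hw.2.trans hw'.2.symm) h
      · intro w hw w' hw' h
        rw [mem_fl] at hw hw'
        funext a
        have h1 := congrFun h a
        unfold cel at h1 ⊢
        rw [vY_add, vY_add, hw.2, hw'.2] at h1
        rw [show vY M δ α dig t (sS δ s ℓ u) n (wr ℓ n w') a +
          ((M:ℝ) ^ n * vY M δ α dig t s ℓ u a + τ a) = (M:ℝ) ^ n * vY M δ α dig t s ℓ u a +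
          vY M δ α dig t (sS δ s ℓ u) n (wr ℓ n w') a + τ a by ring, h1]
        congr 1
        ring
  calc _ ≤ ∑ z : Fin d → ZMod G, ∑ u ∈ fl univ (fun u => cls u = z),
        ((fl univ fun u' => vZ M δ α dig r p s ℓ u' = vZ M δ α dig r p s ℓ u).card : ℝ) ^ θ *
          Bd := sum_le_sum fun z _ => h2 z
    _ = ∑ u : Fin ℓ → ι,
        ((fl univ fun u' => vZ M δ α dig r p s ℓ u' = vZ M δ α dig r p s ℓ u).card : ℝ) ^ θ *
          Bd := sum_fl_of_maps (fun u _ => mem_univ _) _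
    _ = _ := by
        rw [← sum_mul]
        rfl

end

end Pool.Agent.N269.MX
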