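import Pool.Agent.N269.MX.Exact
import Pool.Agent.N269.MX.RealStep

set_option autoImplicit false

/-!
# The choice of the height; several steps
-/

open Finset Filter Topology

namespace Pool.Agent.N269.MX
open Pool.Agent.N269.AK

section
variable {Q ι : Type} [Fintype ι] [Nonempty ι] {d M : ℕ}

/-- The mean of the power sums over the heights modulo `M^m`. -/
theorem RM_sum (hd : 1 ≤ d) (hM : 2 ≤ M) {C D m c : ℕ} (hm : 1 ≤ m) [NeZero (M ^ m)]
    (hMx : Mx (ZMod (M ^ m)) d C D) (δ : Q → ι → Q) (α : Q → ι → Fin d → ℤ)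
    {dig : ι → Fin d → ℤ} (hdig : ∀ i i', (∀ a, (M:ℤ) ∣ dig i a - dig i' a) → i = i')
    {L : ℕ → Finset Q} {i : ℕ} (hc : (L i).card ≤ c) :
    ∑ t₀ : ZMod (M ^ m), RM (1 / (d:ℝ)) M δ α dig L m t₀ i ≤
      (c:ℝ) * (c * (2 * (C * (M * m) ^ D) * ((Fintype.card ι : ℝ) ^ m * (M:ℝ) ^ m))) := by
  classical
  have hd0 : (0:ℝ) < d := by exact_mod_cast hd
  have hd1 : (1:ℝ) ≤ d := by exact_mod_cast hd
  set θ : ℝ := 1 / (d:ℝ) with hθ
  have hθ0 : 0 ≤ θ := by rw [hθ]; positivity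
  have hθ1 : θ ≤ 1 := by rw [hθ, div_le_one hd0]; exact hd1
  have hM0 : (M:ℤ) ≠ 0 := by positivity
  have hcast : ∀ u v : ℤ, ((u : ZMod (M ^ m)) = (v : ZMod (M ^ m))) ↔ (M:ℤ) ^ m ∣ u - v := by
    intro u v
    rw [← sub_eq_zero, ← Int.cast_sub, ZMod.intCast_zmod_eq_zero_iff_dvd]
    push_cast
    rfl
  let S : (Fin m → ι) → Fin d → ZMod (M ^ m) := fun w a => ((vD M dig m w a : ℤ) : ZMod (M ^ m))
  have hS : Function.Injective S := by
    intro w w' h
    have h1 := hor_inj hM0 hdig m (ext w) (ext w') (fun a => (hcast _ _).1 (congrFun h a))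
    funext i
    rw [← ext_apply w i, ← ext_apply w' i]
    exact h1 i i.2
  have hJ : Fintype.card (ZMod (M ^ m)) < 2 ^ (M * m) := by
    rw [ZMod.card, pow_mul]
    exact Nat.pow_lt_pow_left Nat.lt_two_pow_self (by omega)
  have hJ1 : 1 ≤ M * m := Nat.mul_pos (by omega) hm
  have h1 : ∀ s : Q, ∑ t₀ : ZMod (M ^ m), pw θ (univ : Finset (Fin m → ι))
      (fun w => res M δ α dig m t₀ (s, w)) ≤
      2 * (C * (M * m) ^ D) * ((Fintype.card ι : ℝ) ^ m * (M:ℝ) ^ m) := by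
    intro s
    have h2 := ring_pw hd hMx hJ1 hJ
      (fun (w : Fin m → ι) a => ((vA M δ α s m w a : ℤ) : ZMod (M ^ m))) S hS
    rw [Fintype.card_fun, Fintype.card_fin, ZMod.card] at h2
    push_cast at h2
    exact h2
  have h2 : ∀ t₀ : ZMod (M ^ m), RM θ M δ α dig L m t₀ i ≤
      ∑ s ∈ L i, (c:ℝ) * pw θ (univ : Finset (Fin m → ι)) (fun w => res M δ α dig m t₀ (s, w)) := by
    intro t₀
    unfold RM
    refine (pw_fib hθ0 Prod.fst (L i) (fun z hz => (mem_product.1 hz).1)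
      (fun _ => ((L i).card : ℝ)) (fun z hz => ?_)).trans ?_
    · exact_mod_cast card_le_card fun u hu => (mem_fl.1 hu).1
    · refine sum_le_sum fun s hs => ?_
      have h3 : ((L i).card : ℝ) ^ θ ≤ c := by
        have h4 : (1:ℝ) ≤ (L i).card := by
          have : 0 < (L i).card := card_pos.2 ⟨s, hs⟩
          exact_mod_cast this
        calc ((L i).card : ℝ) ^ θ ≤ ((L i).card : ℝ) ^ (1:ℝ) :=
              Real.rpow_le_rpow_of_exponent_le h4 hθ1
          _ = (L i).card := Real.rpow_one _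
          _ ≤ c := by exact_mod_cast hc
      refine mul_le_mul h3 ?_ (pw_nonneg _ _ _) (Nat.cast_nonneg _)
      refine pw_le_of_inj hθ0 Prod.snd (fun z _ => mem_univ _) ?_ ?_
      · intro z hz z' hz' h
        rw [mem_fl] at hz hz'
        exact Prod.ext (hz.2.trans hz'.2.symm) h
      · intro z hz z' hz' h
        rw [mem_fl] at hz hz'
        obtain ⟨s1, w⟩ := z
        obtain ⟨s2, w'⟩ := z'
        have e1 := hz.2
        have e2 := hz'.2
        simp only at e1 e2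
        subst e1 e2
        exact h
  calc ∑ t₀ : ZMod (M ^ m), RM θ M δ α dig L m t₀ i
      ≤ ∑ t₀ : ZMod (M ^ m), ∑ s ∈ L i,
          (c:ℝ) * pw θ (univ : Finset (Fin m → ι)) (fun w => res M δ α dig m t₀ (s, w)) :=
        sum_le_sum fun t₀ _ => h2 t₀
    _ = (c:ℝ) * ∑ s ∈ L i, ∑ t₀ : ZMod (M ^ m),
          pw θ (univ : Finset (Fin m → ι)) (fun w => res M δ α dig m t₀ (s, w)) := by
        rw [sum_comm, mul_sum]
        exact sum_congr rfl fun s _ => (mul_sum _ _ _).symm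
    _ ≤ (c:ℝ) * ∑ _s ∈ L i, 2 * (C * (M * m) ^ D) * ((Fintype.card ι : ℝ) ^ m * (M:ℝ) ^ m) :=
        mul_le_mul_of_nonneg_left (sum_le_sum fun s _ => h1 s) (Nat.cast_nonneg _)
    _ ≤ _ := by
        rw [sum_const, nsmul_eq_mul]
        refine mul_le_mul_of_nonneg_left ?_ (Nat.cast_nonneg _)
        refine mul_le_mul_of_nonneg_right (by exact_mod_cast hc) (by positivity)

/-- A common good height for finitely many blocks. -/
theorem choose_height {T : Type} [Fintype T] [Nonempty T] (f : ℕ → T → ℝ) (hf : ∀ k t, 0 < f k t)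
    {X : ℝ} (hX : 0 < X) (h : ∀ k, ∑ t, f k t ≤ X * Fintype.card T) (n : ℕ) :
    ∃ t, ∏ k ∈ range n, f k t ≤ X ^ n := by
  have h1 : ∑ t : T, ∑ k ∈ range n, Real.log (f k t / X) ≤ ∑ _t : T, (0:ℝ) := by
    rw [sum_comm, sum_const_zero]
    refine sum_nonpos fun k _ => ?_
    calc ∑ t, Real.log (f k t / X) ≤ ∑ t, (f k t / X - 1) :=
          sum_le_sum fun t _ => Real.log_le_sub_one_of_pos (div_pos (hf k t) hX)
      _ = (∑ t, f k t) / X - Fintype.card T := by
          rw [sum_sub_distrib, ← sum_div, sum_const, card_univ, nsmul_eq_mul, mul_one]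
      _ ≤ 0 := by
          rw [sub_nonpos, div_le_iff₀ hX, mul_comm]
          exact h k
  obtain ⟨t, -, ht⟩ := exists_le_of_sum_le univ_nonempty h1
  refine ⟨t, ?_⟩
  have h2 : Real.log (∏ k ∈ range n, (f k t / X)) ≤ 0 := by
    rw [Real.log_prod fun k _ => (div_pos (hf k t) hX).ne']
    exact ht
  have h3 : 0 < ∏ k ∈ range n, (f k t / X) := prod_pos fun k _ => div_pos (hf k t) hX
  rw [Real.log_nonpos_iff h3.le, prod_div_distrib, prod_const, card_range, div_le_one (by positivity)]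
    at h2
  exact h2

theorem RM_pos {θ : ℝ} (hθ : 0 ≤ θ) (δ : Q → ι → Q) (α : Q → ι → Fin d → ℤ) (dig : ι → Fin d → ℤ)
    {L : ℕ → Finset Q} (m i : ℕ) (t₀ : ZMod (M ^ m)) (h : (L i).Nonempty) :
    0 < RM θ M δ α dig L m t₀ i := by
  unfold RM
  refine lt_of_lt_of_le ?_ (card_le_pw hθ _ _)
  have h1 : 0 < (L i ×ˢ (univ : Finset (Fin m → ι))).card :=
    card_pos.2 (h.product univ_nonempty)
  exact_mod_cast h1

/-- Several real steps. -/
theorem real_steps {θ : ℝ} (hθ : 0 ≤ θ) (hM : 2 ≤ M) (δ : Q → ι → Q) (α : Q → ι → Fin d → ℤ)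
    (dig : ι → Fin d → ℤ) {L : ℕ → Finset Q} (hL : ∀ i, ∀ s ∈ L i, ∀ x, δ s x ∈ L (i + 1))
    (m K : ℕ) {r : ℕ} {p t₀ : ℤ} (hr0 : 0 < r) (hr : (M:ℤ) ^ m ∣ (r:ℤ) - 1)
    (hp : (M:ℤ) ^ m ∣ p - t₀) {t B : ℝ} (hB0 : 0 ≤ B)
    (hB : ∀ s n (w : Fin n → ι) a, |vY M δ α dig t s n w a| ≤ B * (M:ℝ) ^ n)
    (hη : ∀ (w w' : Fin (m * K) → ι) a,
      |t - p / r| * |(vD M dig (m * K) w a : ℝ) - (vD M dig (m * K) w' a : ℝ)| ≤ 1)
    {G : ℕ} (hG : (r:ℝ) * (2 + 2 * B) < G) (J : ℕ) :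
    ∀ (i : ℕ) (s : Q), s ∈ L i → ∀ n, n = m * K * J → ∀ τ : Fin d → ℝ,
      pw θ (univ : Finset (Fin n → ι)) (cel M δ α dig t s n τ) ≤
        (((G ^ d : ℕ) : ℝ) ^ θ) ^ J *
          ∏ k ∈ range (K * J), RM θ M δ α dig L m (t₀ : ZMod (M ^ m)) (i + m * k) := by
  classical
  induction J with
  | zero =>
    intro i s hs n hn τ
    rw [Nat.mul_zero] at hn
    subst hn
    have h1 : pw θ (univ : Finset (Fin 0 → ι)) (cel M δ α dig t s 0 τ) ≤ 1 := by
      unfold pw
      rw [Fintype.sum_subsingleton _ (fun i : Fin 0 => i.elim0)]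
      calc _ ≤ (1:ℝ) ^ θ := by
            refine Real.rpow_le_rpow (Nat.cast_nonneg _) ?_ hθ
            have h1 : (fl (univ : Finset (Fin 0 → ι)) fun w' => cel M δ α dig t s 0 τ w' =
                cel M δ α dig t s 0 τ (fun i : Fin 0 => i.elim0)).card ≤ 1 := by
              refine (card_le_univ _).trans ?_
              simp
            exact_mod_cast h1
        _ = 1 := Real.one_rpow _
    simpa using h1
  | succ J ih =>
    intro i s hs n hn τ
    obtain rfl : n = m * K + m * K * J := by rw [hn]; ring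
    have h1 := real_step hθ hM δ α dig hL (m * K) (m * K * J) i hr0 hB0 hB hη hG hs
      (Bd := (((G ^ d : ℕ) : ℝ) ^ θ) ^ J *
          ∏ k ∈ range (K * J), RM θ M δ α dig L m (t₀ : ZMod (M ^ m)) (i + m * K + m * k))
      (fun s' hs' τ' => ih (i + m * K) s' hs' (m * K * J) rfl τ') τ
    refine h1.trans ?_
    have h2 := exact_steps hθ hM δ α dig hL m i hr hp hs K
    have h3 : ∏ k ∈ range (K * (J + 1)), RM θ M δ α dig L m (t₀ : ZMod (M ^ m)) (i + m * k) =
        (∏ k ∈ range K, RM θ M δ α dig L m (t₀ : ZMod (M ^ m)) (i + m * k)) *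
          ∏ k ∈ range (K * J), RM θ M δ α dig L m (t₀ : ZMod (M ^ m)) (i + m * K + m * k) := by
      rw [show K * (J + 1) = K + K * J by ring, prod_range_add]
      congr 1
      refine prod_congr rfl fun k _ => ?_
      congr 1
      ring
    rw [h3, pow_succ]
    have hG1 : 0 ≤ ((G ^ d : ℕ) : ℝ) ^ θ := Real.rpow_nonneg (Nat.cast_nonneg _) _
    have hP : 0 ≤ ∏ k ∈ range (K * J),
        RM θ M δ α dig L m (t₀ : ZMod (M ^ m)) (i + m * K + m * k) :=
      prod_nonneg fun k _ => pw_nonneg _ _ _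
    calc _ ≤ ((G ^ d : ℕ) : ℝ) ^ θ *
          (∏ k ∈ range K, RM θ M δ α dig L m (t₀ : ZMod (M ^ m)) (i + m * k)) *
          ((((G ^ d : ℕ) : ℝ) ^ θ) ^ J *
          ∏ k ∈ range (K * J), RM θ M δ α dig L m (t₀ : ZMod (M ^ m)) (i + m * K + m * k)) := by
          refine mul_le_mul_of_nonneg_right (mul_le_mul_of_nonneg_left h2 hG1) ?_
          exact mul_nonneg (pow_nonneg hG1 _) hP
      _ = _ := by ring

/-- A prefix of any length. -/
theorem prefix_step {θ : ℝ} (hθ : 0 ≤ θ) (hθ1 : θ ≤ 1) (δ : Q → ι → Q) (α : Q → ι → Fin d → ℤ)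
    (dig : ι → Fin d → ℤ) {L : ℕ → Finset Q} (hL : ∀ i, ∀ s ∈ L i, ∀ x, δ s x ∈ L (i + 1))
    (ρ n i : ℕ) {t : ℝ} {s : Q} (hs : s ∈ L i) {Bd : ℝ}
    (hBd : ∀ s' ∈ L (i + ρ), ∀ τ' : Fin d → ℝ,
      pw θ (univ : Finset (Fin n → ι)) (cel M δ α dig t s' n τ') ≤ Bd) (τ : Fin d → ℝ) :
    pw θ (univ : Finset (Fin (ρ + n) → ι)) (cel M δ α dig t s (ρ + n) τ) ≤
      (Fintype.card ι : ℝ) ^ (2 * ρ) * Bd := by
  classical
  have hι : (1:ℝ) ≤ (Fintype.card ι : ℝ) ^ ρ :=
    one_le_pow₀ (by exact_mod_cast Fintype.card_pos)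
  refine (pw_fib hθ (wl ρ n) univ (fun w _ => mem_univ _)
    (fun _ => (Fintype.card ι : ℝ) ^ ρ) (fun w _ => ?_)).trans ?_
  · have : (fl univ fun u => ∃ w' ∈ (univ : Finset (Fin (ρ + n) → ι)), wl ρ n w' = u ∧
        cel M δ α dig t s (ρ + n) τ w' = cel M δ α dig t s (ρ + n) τ w).card ≤
        Fintype.card ι ^ ρ := by
      refine (card_le_univ _).trans ?_
      rw [Fintype.card_fun, Fintype.card_fin]
    exact_mod_cast this
  calc _ ≤ ∑ _u : Fin ρ → ι, (Fintype.card ι : ℝ) ^ ρ * Bd := by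
        refine sum_le_sum fun u _ => ?_
        refine mul_le_mul ?_ ?_ (pw_nonneg _ _ _) (by linarith)
        · calc ((Fintype.card ι : ℝ) ^ ρ) ^ θ ≤ ((Fintype.card ι : ℝ) ^ ρ) ^ (1:ℝ) :=
                Real.rpow_le_rpow_of_exponent_le hι hθ1
            _ = _ := Real.rpow_one _
        · refine (pw_le_of_inj hθ (Ω' := univ) (wr ρ n) (fun w _ => mem_univ _) ?_ ?_).trans
            (hBd (sS δ s ρ u) (st_mem hL hs _ _) (fun a => (M:ℝ) ^ n * vY M δ α dig t s ρ u a + τ a))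
          · intro w hw w' hw' h
            rw [mem_fl] at hw hw'
            exact w_ext (hw.2.trans hw'.2.symm) h
          · intro w hw w' hw' h
            rw [mem_fl] at hw hw'
            funext a
            have h1 := congrFun h a
            unfold cel at h1 ⊢
            rw [vY_add, vY_add, hw.2, hw'.2] at h1
            rw [show vY M δ α dig t (sS δ s ρ u) n (wr ρ n w') a +
              ((M:ℝ) ^ n * vY M δ α dig t s ρ u a + τ a) = (M:ℝ) ^ n * vY M δ α dig t s ρ u a +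
              vY M δ α dig t (sS δ s ρ u) n (wr ρ n w') a + τ a by ring, h1]
            congr 1
            ring
    _ = _ := by
        rw [sum_const, card_univ, Fintype.card_fun, Fintype.card_fin, nsmul_eq_mul]
        push_cast
        ring

end

end Pool.Agent.N269.MX
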