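import Pool.Agent.N269.MX.Choose
import Pool.Agent.N269.AK.SS

set_option autoImplicit false

/-!
# Power sums of the multiplicities of cells over an interval of heights

The dependence on the width is polynomial: for the width `M^k` everything is bounded by powers
`M^(λ k)`.
-/

open Finset Filter Topology

namespace Pool.Agent.N269.MX
open Pool.Agent.N269.AK

theorem exists_n (A : ℝ) (k : ℕ) {b : ℝ} (hb : 1 < b) :
    ∃ n₀ : ℕ, ∀ n : ℕ, n₀ ≤ n → A * (n:ℝ) ^ k ≤ b ^ n := by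
  have h := (tendsto_pow_const_div_const_pow_of_one_lt k hb).const_mul A
  rw [mul_zero] at h
  obtain ⟨n₀, hn₀⟩ := eventually_atTop.1 (h.eventually (gt_mem_nhds one_pos))
  refine ⟨n₀, fun n hn => ?_⟩
  have hbm : 0 < b ^ n := by positivity
  have h1 := hn₀ n hn
  rw [← mul_div_assoc, div_lt_one hbm] at h1
  exact h1.le

/-- Rational heights near every real number with a given residue modulo `M`, bounded
denominators. -/
theorem exists_height' {x y : ℝ} (hxy : x < y) : ∃ n₁ : ℕ, ∀ M : ℕ, 2 ≤ M → ∀ t₀ : ℤ,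
    ∃ (r : ℕ) (p : ℤ), 0 < r ∧ r ≤ n₁ * M ∧ (M:ℤ) ∣ (r:ℤ) - 1 ∧ (M:ℤ) ∣ p - t₀ ∧
      x < p / r ∧ (p:ℝ) / r < y := by
  obtain ⟨n, hn⟩ := exists_nat_gt (1 / (y - x))
  have hyx : 0 < y - x := by linarith
  have hn1 : 1 < (y - x) * n := by
    rw [div_lt_iff₀ hyx] at hn
    linarith
  refine ⟨n + 1, fun M hM t₀ => ?_⟩
  have hM0 : (0:ℝ) < M := by positivity
  set r : ℕ := M * n + 1 with hr
  have hr0 : (0:ℝ) < r := by rw [hr]; positivity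
  have hrM : (M:ℝ) < (y - x) * r := by
    rw [hr]
    push_cast
    nlinarith
  set b : ℤ := ⌊(x * r - t₀) / M⌋ + 1 with hb
  have h1 : (x * r - t₀) / M < b := by
    rw [hb]; push_cast; exact Int.lt_floor_add_one _
  have h2 : (b:ℝ) ≤ (x * r - t₀) / M + 1 := by
    rw [hb]; push_cast
    have := Int.floor_le ((x * r - t₀) / M)
    linarith
  refine ⟨r, t₀ + M * b, by omega, by rw [hr]; nlinarith, ⟨n, by rw [hr]; push_cast; ring⟩,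
    ⟨b, by ring⟩, ?_, ?_⟩
  · rw [lt_div_iff₀ hr0]
    rw [div_lt_iff₀ hM0] at h1
    push_cast
    linarith
  · rw [div_lt_iff₀ hr0]
    have h3 : (b:ℝ) * M ≤ x * r - t₀ + M := by
      have := mul_le_mul_of_nonneg_right h2 hM0.le
      rwa [add_mul, div_mul_cancel₀ _ hM0.ne', one_mul] at this
    push_cast
    linarith

theorem vA_bd {Q ι : Type} [Nonempty ι] {d M : ℕ} (hM : 2 ≤ M) (δ : Q → ι → Q)
    (α : Q → ι → Fin d → ℤ) {A₀ : ℕ} (hα : ∀ s i a, |α s i a| ≤ A₀) (s : Q) (n : ℕ)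
    (w : Fin n → ι) (a : Fin d) : |(vA M δ α s n w a : ℝ)| ≤ A₀ * (M:ℝ) ^ n := by
  have h1 := hor_abs_le hM (f := outs δ α s (ext w)) (a := a) (K := A₀) (fun j => hα _ _ _) n
  have h2 : |(vA M δ α s n w a : ℝ)| ≤ A₀ * ((M:ℝ) ^ n - 1) := by
    unfold vA
    exact_mod_cast h1
  exact h2.trans (mul_le_mul_of_nonneg_left (sub_le_self _ zero_le_one) (Nat.cast_nonneg _))

theorem vD_bd {ι : Type} [Nonempty ι] {d M : ℕ} (hM : 2 ≤ M) {dig : ι → Fin d → ℤ} {D₀ : ℕ}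
    (hD₀ : ∀ (v : ι) (a : Fin d), |dig v a| ≤ D₀) (n : ℕ)
    (w : Fin n → ι) (a : Fin d) : |(vD M dig n w a : ℝ)| ≤ D₀ * (M:ℝ) ^ n := by
  have h1 := hor_abs_le hM (f := fun j => dig (ext w j)) (a := a) (K := D₀) (fun j => hD₀ _ _) n
  have h2 : |(vD M dig n w a : ℝ)| ≤ D₀ * ((M:ℝ) ^ n - 1) := by
    unfold vD
    exact_mod_cast h1
  exact h2.trans (mul_le_mul_of_nonneg_left (sub_le_self _ zero_le_one) (Nat.cast_nonneg _))

theorem eta_bd {D₀ : ℕ} {x y N : ℝ} (hyx : 0 < y - x) (hN : 1 ≤ N) :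
    1 / ((2 * D₀ + 1 + 4 / (y - x)) * N) * (2 * D₀ * N + 1) ≤ 1 := by
  have h0 : (0:ℝ) ≤ D₀ := Nat.cast_nonneg _
  have h4 : (0:ℝ) ≤ 4 / (y - x) := by positivity
  have h5 : 0 < (2 * (D₀:ℝ) + 1 + 4 / (y - x)) * N := by positivity
  rw [div_mul_eq_mul_div, div_le_one h5, one_mul]
  nlinarith

/-- **The core estimate**, width `M^k`. -/
theorem core {ι : Type} [Fintype ι] [Nonempty ι] {d M : ℕ} (hd : 1 ≤ d) (hM : 2 ≤ M)
    {dig : ι → Fin d → ℤ} (hdig : ∀ i i', (∀ a, (M:ℤ) ∣ dig i a - dig i' a) → i = i')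
    (A₀ : ℕ) {ε : ℝ} (hε : 0 < ε) {x y : ℝ} (hxy : x < y) :
    ∃ (lam : ℕ) (C₁ : ℝ), 0 < C₁ ∧ ∀ k : ℕ, 1 ≤ k →
    ∃ (m K : ℕ) (_ : NeZero (M ^ m)) (h : ZMod (M ^ m) → ℝ) (X : ℝ),
      1 ≤ m * K ∧ 0 < X ∧ (∀ t₀, x < h t₀ ∧ h t₀ + 1 / (C₁ * (M:ℝ) ^ (lam * k)) < y) ∧
      (∀ (Q : Type) (δ : Q → ι → Q) (α : Q → ι → Fin d → ℤ) (L : ℕ → Finset Q),
        (∀ i, (L i).card ≤ M ^ k) → ∀ i,
        ∑ t₀ : ZMod (M ^ m), RM (1 / (d:ℝ)) M δ α dig L m t₀ i ≤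
          X * Fintype.card (ZMod (M ^ m))) ∧
      (∀ (Q : Type) (δ : Q → ι → Q) (α : Q → ι → Fin d → ℤ), (∀ s i a, |α s i a| ≤ A₀) →
        ∀ L : ℕ → Finset Q, (∀ i, ∀ s ∈ L i, ∀ x, δ s x ∈ L (i + 1)) → ∀ s ∈ L 0,
        ∀ n J ρ, n = ρ + m * K * J → ρ < m * K → ∀ t₀ : ZMod (M ^ m),
        ∏ k ∈ range (K * J), RM (1 / (d:ℝ)) M δ α dig L m t₀ (ρ + m * k) ≤ X ^ (K * J) →
        ∀ t ∈ Set.Icc (h t₀) (h t₀ + 1 / (C₁ * (M:ℝ) ^ (lam * k))), ∀ τ : Fin d → ℝ,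
          pw (1 / (d:ℝ)) (univ : Finset (Fin n → ι)) (cel M δ α dig t s n τ) ≤
            (Fintype.card ι : ℝ) ^ (2 * (lam * k)) *
              ((Fintype.card ι : ℝ) * (M:ℝ) ^ ε) ^ n) := by
  classical
  have hM1 : (1:ℝ) < M := by exact_mod_cast (by omega : 1 < M)
  have hM0 : (0:ℝ) < M := by linarith
  have hd0 : (0:ℝ) < d := by exact_mod_cast hd
  have hd1 : (1:ℝ) ≤ d := by exact_mod_cast hd
  set θ : ℝ := 1 / (d:ℝ) with hθ
  have hθ0 : 0 ≤ θ := by rw [hθ]; positivity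
  have hθ1 : θ ≤ 1 := by rw [hθ, div_le_one hd0]; exact hd1
  set I : ℝ := (Fintype.card ι : ℝ) with hI
  have hI1 : (1:ℝ) ≤ I := by rw [hI]; exact_mod_cast Fintype.card_pos
  set b' : ℝ := (M:ℝ) ^ (ε / 4) with hb'
  have hb'1 : 1 < b' := Real.one_lt_rpow hM1 (by linarith)
  set b : ℝ := (M:ℝ) ^ (ε / 2) with hb
  have hb1 : 1 < b := Real.one_lt_rpow hM1 (by linarith)
  have hbb' : b' * b' = b := by
    rw [hb, hb', ← Real.rpow_add hM0]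
    congr 1
    ring
  have hb2 : b * b = (M:ℝ) ^ ε := by
    rw [hb, ← Real.rpow_add hM0]
    congr 1
    ring
  obtain ⟨D₀, hD₀⟩ : ∃ K : ℕ, ∀ (v : ι) (a : Fin d), |dig v a| ≤ K := by
    obtain ⟨K, hK⟩ := (Set.finite_range fun x : ι × Fin d => (|dig x.1 x.2|).toNat).bddAbove
    refine ⟨K, fun v a => ?_⟩
    have := hK ⟨(v, a), rfl⟩
    simp only at this
    have h0 := abs_nonneg (dig v a)
    omega
  set T : ℝ := |x| + |y| with hT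
  have hT0 : 0 ≤ T := by positivity
  have hTτ : ∀ τ ∈ Set.Icc x y, |τ| ≤ T := by
    intro τ hτ
    rw [abs_le]
    have h1 := neg_abs_le x
    have h2 := le_abs_self y
    have h3 := abs_nonneg x
    have h4 := abs_nonneg y
    constructor <;> [linarith [hτ.1]; linarith [hτ.2]]
  set B : ℝ := A₀ + T * D₀ with hB
  have hB0 : 0 ≤ B := by positivity
  -- the length of the blocks
  obtain ⟨K₀, E, D, hKED⟩ := mx_pow d M (by omega)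
  obtain ⟨n₀, hn₀⟩ := exists_n (2 * (K₀ * (M:ℝ) ^ D) + 1) (E + D) hb'1
  obtain ⟨m₂, hm₂⟩ := pow_unbounded_of_one_lt ((M:ℝ) * M) hb'1
  set m₁ : ℕ := n₀ + m₂ + 1 with hm₁
  -- the rational heights
  have hxy2 : x < (x + y) / 2 := by linarith
  obtain ⟨n₁, hn₁⟩ := exists_height' hxy2
  obtain ⟨G₁, hG₁⟩ := exists_nat_gt ((n₁:ℝ) * (2 + 2 * B))
  have hG₁0 : (1:ℝ) ≤ G₁ := by
    have : 0 ≤ (n₁:ℝ) * (2 + 2 * B) := by positivity
    have h1 : (0:ℝ) < G₁ := by linarith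
    exact_mod_cast h1
  obtain ⟨K, hK⟩ := pow_unbounded_of_one_lt ((G₁:ℝ) * M) hb1
  have hK1 : ((G₁:ℝ) * M) ≤ b ^ (K + 1) :=
    hK.le.trans (pow_le_pow_right₀ hb1.le (Nat.le_succ K))
  set lam : ℕ := m₁ * (K + 1) with hlam
  set C₁ : ℝ := 2 * D₀ + 1 + 4 / (y - x) with hC₁
  have hyx : 0 < y - x := by linarith
  have hC₁0 : 0 < C₁ := by positivity
  refine ⟨lam, C₁, hC₁0, fun k hk => ?_⟩
  set m : ℕ := m₁ * k with hm
  have hm1 : 1 ≤ m := Nat.mul_pos (by omega) hk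
  have hNZ : NeZero (M ^ m) := ⟨pow_ne_zero _ (by omega)⟩
  have hMm2 : 2 ≤ M ^ m := by
    calc 2 ≤ M := hM
      _ = M ^ 1 := (pow_one M).symm
      _ ≤ M ^ m := Nat.pow_le_pow_right (by omega) hm1
  set X : ℝ := (b * I) ^ m with hX
  have hX0 : 0 < X := by positivity
  have hXm : ((M ^ k : ℕ) : ℝ) * (((M ^ k : ℕ) : ℝ) * (2 * (K₀ * (M:ℝ) ^ D))) * (m:ℝ) ^ (E + D) ≤
      b ^ m := by
    have e1 : (2 * (K₀ * (M:ℝ) ^ D)) * (m:ℝ) ^ (E + D) ≤ b' ^ m := by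
      have h1 := hn₀ m (by
        calc n₀ ≤ m₁ := by omega
          _ = m₁ * 1 := (mul_one _).symm
          _ ≤ m₁ * k := Nat.mul_le_mul_left _ hk)
      refine le_trans ?_ h1
      exact mul_le_mul_of_nonneg_right (by linarith) (by positivity)
    have e2 : ((M ^ k : ℕ) : ℝ) * ((M ^ k : ℕ) : ℝ) ≤ b' ^ m := by
      push_cast
      calc (M:ℝ) ^ k * (M:ℝ) ^ k = ((M:ℝ) * M) ^ k := (mul_pow _ _ _).symm
        _ ≤ (b' ^ m₁) ^ k := by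
            refine pow_le_pow_left₀ (by positivity) ?_ k
            exact hm₂.le.trans (pow_le_pow_right₀ hb'1.le (by omega))
        _ = b' ^ m := by rw [← pow_mul]
    calc _ = (((M ^ k : ℕ) : ℝ) * ((M ^ k : ℕ) : ℝ)) *
          ((2 * (K₀ * (M:ℝ) ^ D)) * (m:ℝ) ^ (E + D)) := by ring
      _ ≤ b' ^ m * b' ^ m := mul_le_mul e2 e1 (by positivity) (by positivity)
      _ = b ^ m := by rw [← mul_pow, hbb']
  have hh : ∀ t₀ : ZMod (M ^ m), ∃ (r : ℕ) (p : ℤ), 0 < r ∧ r ≤ n₁ * (M ^ m) ∧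
      ((M ^ m : ℕ) : ℤ) ∣ (r:ℤ) - 1 ∧ ((M ^ m : ℕ) : ℤ) ∣ p - (t₀.val : ℤ) ∧ x < p / r ∧
      (p:ℝ) / r < (x + y) / 2 := fun t₀ => hn₁ (M ^ m) hMm2 _
  choose r p hr0 hrn hr hp hx hy using hh
  set G : ℕ := G₁ * M ^ m with hG'
  have hG : ∀ t₀, (r t₀ : ℝ) * (2 + 2 * B) < G := by
    intro t₀
    have h1 : (r t₀ : ℝ) ≤ n₁ * (M:ℝ) ^ m := by exact_mod_cast hrn t₀
    have hMm : (0:ℝ) < (M:ℝ) ^ m := by positivity
    calc (r t₀ : ℝ) * (2 + 2 * B) ≤ (n₁ * (M:ℝ) ^ m) * (2 + 2 * B) :=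
          mul_le_mul_of_nonneg_right h1 (by linarith)
      _ = (n₁ * (2 + 2 * B)) * (M:ℝ) ^ m := by ring
      _ < G₁ * (M:ℝ) ^ m := mul_lt_mul_of_pos_right hG₁ hMm
      _ = G := by rw [hG']; push_cast; rfl
  have hGb : (G:ℝ) ≤ b ^ (m * (K + 1)) := by
    rw [hG']
    push_cast
    calc (G₁:ℝ) * (M:ℝ) ^ m ≤ (G₁:ℝ) ^ m * (M:ℝ) ^ m :=
          mul_le_mul_of_nonneg_right (le_self_pow₀ hG₁0 (by omega)) (by positivity)
      _ = ((G₁:ℝ) * M) ^ m := (mul_pow _ _ _).symm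
      _ ≤ (b ^ (K + 1)) ^ m := pow_le_pow_left₀ (by positivity) hK1 m
      _ = _ := by rw [← pow_mul, mul_comm]
  set ℓ : ℕ := m * (K + 1) with hℓ
  have hℓ1 : 1 ≤ ℓ := Nat.mul_pos hm1 (Nat.succ_pos K)
  have hℓk : lam * k = ℓ := by rw [hlam, hℓ, hm]; ring
  rw [hℓk]
  set η : ℝ := 1 / (C₁ * (M:ℝ) ^ ℓ) with hη
  have hMℓ : (1:ℝ) ≤ (M:ℝ) ^ ℓ := one_le_pow₀ hM1.le
  have hη0 : 0 < η := by positivity
  have hη1 : ∀ t₀, (p t₀ : ℝ) / r t₀ + η < y := by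
    intro t₀
    have h1 : η ≤ (y - x) / 4 := by
      rw [hη, div_le_iff₀ (by positivity)]
      have h2 : 4 / (y - x) ≤ C₁ := by rw [hC₁]; have : (0:ℝ) ≤ D₀ := Nat.cast_nonneg _; linarith
      have h3 : 4 / (y - x) ≤ C₁ * (M:ℝ) ^ ℓ := h2.trans (le_mul_of_one_le_right hC₁0.le hMℓ)
      have h4 : (y - x) / 4 * (4 / (y - x)) = 1 := by field_simp
      calc (1:ℝ) = (y - x) / 4 * (4 / (y - x)) := h4.symm
        _ ≤ _ := mul_le_mul_of_nonneg_left h3 (by linarith)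
    have h2 := hy t₀
    linarith
  have hη2 : η * (2 * D₀ * (M:ℝ) ^ ℓ + 1) ≤ 1 := by
    rw [hη, hC₁]
    exact eta_bd hyx hMℓ
  refine ⟨m, K + 1, hNZ, fun t₀ => (p t₀ : ℝ) / r t₀, X, hℓ1, hX0,
    fun t₀ => ⟨hx t₀, hη1 t₀⟩, ?_, ?_⟩
  · -- the mean over the heights
    intro Q δ α L hc i
    refine (RM_sum hd hM hm1 (hKED m hm1 hNZ) δ α hdig (hc i)).trans ?_
    rw [ZMod.card, hX, mul_pow b I m, ← hI]
    calc ((M ^ k : ℕ) : ℝ) * (((M ^ k : ℕ) : ℝ) *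
          (2 * (((K₀ * m ^ E : ℕ) : ℝ) * ((M:ℝ) * m) ^ D) * (I ^ m * (M:ℝ) ^ m)))
        = (((M ^ k : ℕ) : ℝ) * (((M ^ k : ℕ) : ℝ) * (2 * (K₀ * (M:ℝ) ^ D))) * (m:ℝ) ^ (E + D)) *
            (I ^ m * (M:ℝ) ^ m) := by
          push_cast
          rw [mul_pow, pow_add]; ring
      _ ≤ b ^ m * (I ^ m * (M:ℝ) ^ m) := mul_le_mul_of_nonneg_right hXm (by positivity)
      _ = _ := by push_cast; ring
  · -- the cells
    intro Q δ α hα L hL s hs n J ρ hn hρ t₀ hprod t ht τ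
    have htx : t ∈ Set.Icc x y :=
      ⟨(hx t₀).le.trans ht.1, ht.2.trans (hη1 t₀).le⟩
    have hvA : ∀ s n (w : Fin n → ι) a, |(vA M δ α s n w a : ℝ)| ≤ A₀ * (M:ℝ) ^ n :=
      vA_bd hM δ α hα
    have hvD : ∀ n (w : Fin n → ι) a, |(vD M dig n w a : ℝ)| ≤ D₀ * (M:ℝ) ^ n :=
      vD_bd hM hD₀
    have hvY : ∀ s n (w : Fin n → ι) a, |vY M δ α dig t s n w a| ≤ B * (M:ℝ) ^ n := by
      intro s n w a
      unfold vY
      calc _ ≤ |(vA M δ α s n w a : ℝ)| + |t * (vD M dig n w a : ℝ)| := abs_add_le _ _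
        _ ≤ A₀ * (M:ℝ) ^ n + T * (D₀ * (M:ℝ) ^ n) := by
            rw [abs_mul]
            exact add_le_add (hvA _ _ _ _) (mul_le_mul (hTτ t htx) (hvD _ _ _) (abs_nonneg _) hT0)
        _ = _ := by rw [hB]; ring
    have hηw : ∀ (w w' : Fin ℓ → ι) a,
        |t - p t₀ / r t₀| * |(vD M dig ℓ w a : ℝ) - (vD M dig ℓ w' a : ℝ)| ≤ 1 := by
      intro w w' a
      have h1 : |t - p t₀ / r t₀| ≤ η := by
        rw [abs_of_nonneg (by linarith [ht.1])]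
        linarith [ht.2]
      have h2 : |(vD M dig ℓ w a : ℝ) - (vD M dig ℓ w' a : ℝ)| ≤ 2 * D₀ * (M:ℝ) ^ ℓ + 1 := by
        have h3 := abs_sub (vD M dig ℓ w a : ℝ) (vD M dig ℓ w' a : ℝ)
        have h4 := hvD ℓ w a
        have h5 := hvD ℓ w' a
        linarith
      exact (mul_le_mul h1 h2 (abs_nonneg _) hη0.le).trans hη2
    have hMm : ((M ^ m : ℕ) : ℤ) = (M:ℤ) ^ m := by push_cast; rfl
    have hcast : (((t₀.val : ℕ) : ℤ) : ZMod (M ^ m)) = t₀ := by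
      rw [Int.cast_natCast, ZMod.natCast_zmod_val]
    have hGθ : ((G ^ d : ℕ) : ℝ) ^ θ = G := by
      rw [Nat.cast_pow, ← Real.rpow_natCast, ← Real.rpow_mul (Nat.cast_nonneg _), hθ, one_div,
        mul_inv_cancel₀ hd0.ne', Real.rpow_one]
    have h1 : ∀ s' ∈ L (0 + ρ), ∀ τ' : Fin d → ℝ,
        pw θ (univ : Finset (Fin (ℓ * J) → ι)) (cel M δ α dig t s' (ℓ * J) τ') ≤
          (G:ℝ) ^ J * X ^ ((K + 1) * J) := by
      intro s' hs' τ'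
      have h2 := real_steps hθ0 hM δ α dig hL m (K + 1) (hr0 t₀) (hMm ▸ hr t₀) (hMm ▸ hp t₀) hB0 hvY
        hηw (hG t₀) J (0 + ρ) s' hs' (ℓ * J) rfl τ'
      rw [hGθ, hcast, Nat.zero_add] at h2
      exact h2.trans (mul_le_mul_of_nonneg_left hprod (by positivity))
    subst hn
    refine (prefix_step hθ0 hθ1 δ α dig hL ρ (ℓ * J) 0 hs h1 τ).trans ?_
    have h2 : I ^ (2 * ρ) ≤ I ^ (2 * ℓ) := pow_le_pow_right₀ hI1 (by omega)
    have h3 : (G:ℝ) ^ J * X ^ ((K + 1) * J) ≤ (I * (M:ℝ) ^ ε) ^ (ℓ * J) := by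
      calc (G:ℝ) ^ J * X ^ ((K + 1) * J) ≤ (b ^ ℓ) ^ J * X ^ ((K + 1) * J) :=
            mul_le_mul_of_nonneg_right (pow_le_pow_left₀ (Nat.cast_nonneg _) hGb _) (by positivity)
        _ = (b ^ ℓ) ^ J * (b * I) ^ (ℓ * J) := by
            congr 1
            rw [hX, ← pow_mul, hℓ]
            congr 1
            ring
        _ = (I * (M:ℝ) ^ ε) ^ (ℓ * J) := by
            rw [← hb2, ← pow_mul, ← mul_pow]
            congr 1
            ring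
    have h4 : (I * (M:ℝ) ^ ε) ^ (ℓ * J) ≤ (I * (M:ℝ) ^ ε) ^ (ρ + ℓ * J) := by
      refine pow_le_pow_right₀ ?_ (Nat.le_add_left _ _)
      exact one_le_mul_of_one_le_of_one_le hI1 (Real.one_le_rpow hM1.le hε.le)
    calc I ^ (2 * ρ) * ((G:ℝ) ^ J * X ^ ((K + 1) * J))
        ≤ I ^ (2 * ℓ) * (I * (M:ℝ) ^ ε) ^ (ρ + ℓ * J) :=
          mul_le_mul h2 (h3.trans h4) (by positivity) (by positivity)
      _ = _ := rfl

/-- **Programs of bounded width** (not necessarily stationary): at every scale the estimate holds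
over one of finitely many intervals of heights. -/
theorem width {ι : Type} [Fintype ι] [Nonempty ι] {d M : ℕ} (hd : 1 ≤ d) (hM : 2 ≤ M)
    {dig : ι → Fin d → ℤ} (hdig : ∀ i i', (∀ a, (M:ℤ) ∣ dig i a - dig i' a) → i = i')
    (A₀ : ℕ) {ε : ℝ} (hε : 0 < ε) {x y : ℝ} (hxy : x < y) :
    ∃ (lam : ℕ) (C₁ : ℝ), 0 < C₁ ∧ ∀ k : ℕ, 1 ≤ k → ∃ H : Finset ℝ,
      (∀ h ∈ H, x < h ∧ h + 1 / (C₁ * (M:ℝ) ^ (lam * k)) < y) ∧
      ∀ (Q : Type) (δ : Q → ι → Q) (α : Q → ι → Fin d → ℤ), (∀ s i a, |α s i a| ≤ A₀) →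
        ∀ L : ℕ → Finset Q, (∀ i, ∀ s ∈ L i, ∀ x, δ s x ∈ L (i + 1)) →
        (∀ i, (L i).card ≤ M ^ k) →
        ∀ s ∈ L 0, ∀ n, ∃ h ∈ H, ∀ t ∈ Set.Icc h (h + 1 / (C₁ * (M:ℝ) ^ (lam * k))),
        ∀ τ : Fin d → ℝ,
          pw (1 / (d:ℝ)) (univ : Finset (Fin n → ι)) (cel M δ α dig t s n τ) ≤
            (Fintype.card ι : ℝ) ^ (2 * (lam * k)) *
              ((Fintype.card ι : ℝ) * (M:ℝ) ^ ε) ^ n := by
  classical
  obtain ⟨lam, C₁, hC₁, hcore⟩ := core hd hM hdig A₀ hε hxy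
  refine ⟨lam, C₁, hC₁, fun k hk => ?_⟩
  obtain ⟨m, K, hNZ, h, X, hℓ, hX, hh, hsum, hcell⟩ := hcore k hk
  refine ⟨univ.image h, ?_, ?_⟩
  · intro z hz
    rw [mem_image] at hz
    obtain ⟨t₀, -, rfl⟩ := hz
    exact hh t₀
  · intro Q δ α hα L hL hc s hs n
    have hne : ∀ i, (L i).Nonempty := fun i => by
      have := st_mem (ι := ι) hL hs (fun _ => Classical.arbitrary ι) i
      rw [Nat.zero_add] at this
      exact ⟨_, this⟩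
    have hθ0 : (0:ℝ) ≤ 1 / d := by positivity
    obtain ⟨t₀, ht₀⟩ := choose_height (T := ZMod (M ^ m))
      (fun k t₀ => RM (1 / (d:ℝ)) M δ α dig L m t₀ (n % (m * K) + m * k))
      (fun k t₀ => RM_pos hθ0 δ α dig m _ t₀ (hne _)) hX (fun k => hsum Q δ α L hc _)
      (K * (n / (m * K)))
    refine ⟨h t₀, mem_image_of_mem _ (mem_univ _), fun t ht τ => ?_⟩
    exact hcell Q δ α hα L hL s hs n (n / (m * K)) (n % (m * K)) (Nat.mod_add_div _ _).symm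
      (Nat.mod_lt _ hℓ) t₀ ht₀ t ht τ

/-- **Automata**: the estimate holds at all scales over one interval of heights. -/
theorem stationary {ι : Type} [Fintype ι] [Nonempty ι] {d M : ℕ} (hd : 1 ≤ d) (hM : 2 ≤ M)
    {dig : ι → Fin d → ℤ} (hdig : ∀ i i', (∀ a, (M:ℤ) ∣ dig i a - dig i' a) → i = i')
    (A₀ : ℕ) {ε : ℝ} (hε : 0 < ε) {x y : ℝ} (hxy : x < y) :
    ∃ (lam : ℕ) (C₁ : ℝ), 0 < C₁ ∧ ∀ k : ℕ, 1 ≤ k → ∃ H : Finset ℝ,
      (∀ h ∈ H, x < h ∧ h + 1 / (C₁ * (M:ℝ) ^ (lam * k)) < y) ∧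
      ∀ (Q : Type) (_ : Fintype Q) (δ : Q → ι → Q) (α : Q → ι → Fin d → ℤ),
        (∀ s i a, |α s i a| ≤ A₀) → Fintype.card Q ≤ M ^ k →
        ∃ h ∈ H, ∀ s n, ∀ t ∈ Set.Icc h (h + 1 / (C₁ * (M:ℝ) ^ (lam * k))), ∀ τ : Fin d → ℝ,
          pw (1 / (d:ℝ)) (univ : Finset (Fin n → ι)) (cel M δ α dig t s n τ) ≤
            (Fintype.card ι : ℝ) ^ (2 * (lam * k)) *
              ((Fintype.card ι : ℝ) * (M:ℝ) ^ ε) ^ n := by
  classical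
  obtain ⟨lam, C₁, hC₁, hcore⟩ := core hd hM hdig A₀ hε hxy
  refine ⟨lam, C₁, hC₁, fun k hk => ?_⟩
  obtain ⟨m, K, hNZ, h, X, hℓ, hX, hh, hsum, hcell⟩ := hcore k hk
  refine ⟨univ.image h, ?_, ?_⟩
  · intro z hz
    rw [mem_image] at hz
    obtain ⟨t₀, -, rfl⟩ := hz
    exact hh t₀
  · intro Q _ δ α hα hc
    have h1 := hsum Q δ α (fun _ => univ) (fun _ => by rw [card_univ]; exact hc) 0
    obtain ⟨t₀, ht₀⟩ : ∃ t₀ : ZMod (M ^ m),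
        RM (1 / (d:ℝ)) M δ α dig (fun _ => (univ : Finset Q)) m t₀ 0 ≤ X := by
      by_contra hcon
      push Not at hcon
      have h2 : ∑ _t₀ : ZMod (M ^ m), X < ∑ t₀ : ZMod (M ^ m),
          RM (1 / (d:ℝ)) M δ α dig (fun _ => (univ : Finset Q)) m t₀ 0 :=
        sum_lt_sum_of_nonempty univ_nonempty fun t₀ _ => hcon t₀
      rw [sum_const, card_univ, nsmul_eq_mul] at h2
      linarith
    refine ⟨h t₀, mem_image_of_mem _ (mem_univ _), fun s n t ht τ => ?_⟩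
    refine hcell Q δ α hα (fun _ => univ) (fun _ _ _ _ => mem_univ _) s (mem_univ _) n
      (n / (m * K)) (n % (m * K)) (Nat.mod_add_div _ _).symm
      (Nat.mod_lt _ hℓ) t₀ ?_ t ht τ
    have h2 : ∀ k, RM (1 / (d:ℝ)) M δ α dig (fun _ => (univ : Finset Q)) m t₀
        (n % (m * K) + m * k) ≤ X := fun k => ht₀
    calc _ ≤ ∏ _k ∈ range (K * (n / (m * K))), X :=
          prod_le_prod (fun k _ => pw_nonneg _ _ _) fun k _ => h2 k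
      _ = _ := by rw [prod_const, card_range]

end Pool.Agent.N269.MX
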