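import Pool.Agent.N269.MX.Slice
import Mathlib.MeasureTheory.Integral.MeanInequalities
import Mathlib.MeasureTheory.Measure.Prod

set_option autoImplicit false

/-!
# The dual estimate for finitely many tubes
-/

open Finset MeasureTheory
open scoped ENNReal

namespace Pool.Agent.N269.MX

/-- The tube of a word. -/
def TT {d : ℕ} (h η N ρ : ℝ) (A D : Fin d → ℝ) : Set (ℝ × (Fin d → ℝ)) :=
  {z | z.1 ∈ Set.Icc h (h + η) ∧ ∀ a, |N * z.2 a - (A a + z.1 * D a)| ≤ ρ}

theorem TT_closed {d : ℕ} (h η N ρ : ℝ) (A D : Fin d → ℝ) : IsClosed (TT h η N ρ A D) := by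
  unfold TT
  refine (isClosed_Icc.preimage continuous_fst).inter ?_
  have h1 : {z : ℝ × (Fin d → ℝ) | ∀ a, |N * z.2 a - (A a + z.1 * D a)| ≤ ρ} =
      ⋂ a, {z | |N * z.2 a - (A a + z.1 * D a)| ≤ ρ} := by
    ext z; simp
  show IsClosed {z : ℝ × (Fin d → ℝ) | ∀ a, |N * z.2 a - (A a + z.1 * D a)| ≤ ρ}
  rw [h1]
  refine isClosed_iInter fun a => isClosed_le ?_ continuous_const
  have h2 : Continuous fun z : ℝ × (Fin d → ℝ) => z.2 a := (continuous_apply a).comp continuous_snd
  fun_prop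

/-- **The dual estimate**, mixed norm. -/
theorem dual {W : Type} [Fintype W] {d : ℕ} (hd : 1 ≤ d) (A D : W → Fin d → ℝ) {h η N ρ P : ℝ}
    (hN : 0 < N) {R : ℕ} (hR : ρ + 1 ≤ R)
    (hP : ∀ t ∈ Set.Icc h (h + η), pw (1 / (d:ℝ)) univ (fun w a => ⌊A w a + t * D w a⌋) ≤ P)
    (f : ℝ × (Fin d → ℝ) → ℝ≥0∞) (hf : Measurable f) :
    ∑ w : W, ∫⁻ z in TT h η N ρ (A w) (D w), f z ≤
      (∫⁻ t in Set.Icc h (h + η), (∫⁻ y, f (t, y) ^ ((d:ℝ) + 1)) ^ (1 / ((d:ℝ) + 1))) *
        (ENNReal.ofReal ((((2 * R + 1) ^ d : ℕ) : ℝ) ^ (1 + 1 / (d:ℝ)) * (N⁻¹) ^ d * P)) ^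
          (1 / (1 + 1 / (d:ℝ))) := by
  classical
  have hd0 : (0:ℝ) < d := by exact_mod_cast hd
  set θ : ℝ := 1 / (d:ℝ) with hθ
  have hθ0 : 0 < θ := by rw [hθ]; positivity
  have hmeas : ∀ w, MeasurableSet (TT h η N ρ (A w) (D w)) := fun w => (TT_closed _ _ _ _ _ _).measurableSet
  set g : ℝ × (Fin d → ℝ) → ℝ≥0∞ := fun z =>
    ∑ w : W, (TT h η N ρ (A w) (D w)).indicator (fun _ => 1) z with hg
  have hgm : Measurable g := Finset.measurable_sum _ fun w _ => measurable_const.indicator (hmeas w)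
  have h1 : ∑ w : W, ∫⁻ z in TT h η N ρ (A w) (D w), f z = ∫⁻ z, (f * g) z := by
    have h2 : ∀ z, (f * g) z = ∑ w : W, (TT h η N ρ (A w) (D w)).indicator f z := by
      intro z
      rw [Pi.mul_apply, hg]
      simp only
      rw [mul_sum]
      refine sum_congr rfl fun w _ => ?_
      by_cases hz : z ∈ TT h η N ρ (A w) (D w)
      · rw [Set.indicator_of_mem hz, Set.indicator_of_mem hz, mul_one]
      · rw [Set.indicator_of_notMem hz, Set.indicator_of_notMem hz, mul_zero]
    simp only [h2]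
    rw [lintegral_finsetSum _ fun w _ => hf.indicator (hmeas w)]
    exact sum_congr rfl fun w _ => (lintegral_indicator (hmeas w) f).symm
  rw [h1]
  have hpq : ((d:ℝ) + 1).HolderConjugate (1 + θ) := by
    rw [Real.holderConjugate_iff]
    refine ⟨by linarith, ?_⟩
    rw [hθ]
    field_simp
    ring
  have hval : ∀ t y, g (t, y) = if t ∈ Set.Icc h (h + η) then
      ((mul (fun w a => A w a + t * D w a) N ρ y : ℕ) : ℝ≥0∞) else 0 := by
    intro t y
    rw [hg]
    simp only
    split_ifs with ht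
    · unfold mul
      rw [card_eq_sum_ones, Nat.cast_sum, ← sum_subset (s₁ := fl (univ : Finset W) fun w =>
        ∀ a, |N * y a - (A w a + t * D w a)| ≤ ρ) (subset_univ _)]
      · refine sum_congr rfl fun w hw => ?_
        rw [mem_fl] at hw
        rw [Set.indicator_of_mem (show (t, y) ∈ TT h η N ρ (A w) (D w) from ⟨ht, hw.2⟩), Nat.cast_one]
      · intro w _ hw
        rw [Set.indicator_of_notMem]
        intro hz
        exact hw (mem_fl.2 ⟨mem_univ _, hz.2⟩)
    · refine sum_eq_zero fun w _ => ?_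
      rw [Set.indicator_of_notMem]
      intro hz
      exact ht hz.1
  rw [Measure.volume_eq_prod, lintegral_prod _ (hf.mul hgm).aemeasurable]
  set Z : ℝ≥0∞ := (ENNReal.ofReal ((((2 * R + 1) ^ d : ℕ) : ℝ) ^ (1 + θ) * (N⁻¹) ^ d * P)) ^
    (1 / (1 + θ)) with hZ
  have hfm : Measurable fun t : ℝ => (∫⁻ y, f (t, y) ^ ((d:ℝ) + 1)) ^ (1 / ((d:ℝ) + 1)) :=
    (Measurable.lintegral_prod_right' (hf.pow_const _)).pow_const _
  calc ∫⁻ t : ℝ, ∫⁻ y : Fin d → ℝ, (f * g) (t, y)
      ≤ ∫⁻ t : ℝ, (Set.Icc h (h + η)).indicator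
          (fun t => (∫⁻ y, f (t, y) ^ ((d:ℝ) + 1)) ^ (1 / ((d:ℝ) + 1)) * Z) t := by
        refine lintegral_mono fun t => ?_
        by_cases ht : t ∈ Set.Icc h (h + η)
        · rw [Set.indicator_of_mem ht]
          have h2 := slice hθ0.le (fun w a => A w a + t * D w a) hN hR
          have h3 := ENNReal.lintegral_mul_le_Lp_mul_Lq (volume : Measure (Fin d → ℝ)) hpq
            (f := fun y => f (t, y)) (g := fun y => g (t, y))
            (hf.comp measurable_prodMk_left).aemeasurable (hgm.comp measurable_prodMk_left).aemeasurable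
          refine h3.trans (mul_le_mul_right (ENNReal.rpow_le_rpow ?_ (by positivity)) _)
          refine le_trans (le_of_eq ?_) (h2.trans (ENNReal.ofReal_le_ofReal ?_))
          · refine lintegral_congr fun y => ?_
            rw [hval, if_pos ht, ← ENNReal.ofReal_natCast,
              ENNReal.ofReal_rpow_of_nonneg (Nat.cast_nonneg _) (by linarith)]
          · exact mul_le_mul_of_nonneg_left (hP t ht) (by positivity)
        · rw [Set.indicator_of_notMem ht]
          have h2 : ∀ y, (f * g) (t, y) = 0 := fun y => by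
            rw [Pi.mul_apply, hval, if_neg ht, mul_zero]
          simp only [h2, lintegral_zero, le_refl]
    _ = _ := by
        rw [lintegral_indicator measurableSet_Icc, lintegral_mul_const _ hfm]

end Pool.Agent.N269.MX
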