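import Pool.Agent.N269.MX.Word

set_option autoImplicit false

/-!
# The exact stage
-/

open Finset

namespace Pool.Agent.N269.MX
open Pool.Agent.N269.AK

section
variable {Q ι : Type} [Fintype ι] [Nonempty ι] {d M : ℕ}

/-- **The exact step**: one more block of letters at the end. -/
theorem exact_step {θ : ℝ} (hθ : 0 ≤ θ) (hM : 2 ≤ M) (δ : Q → ι → Q) (α : Q → ι → Fin d → ℤ)
    (dig : ι → Fin d → ℤ) {L : ℕ → Finset Q} (hL : ∀ i, ∀ s ∈ L i, ∀ x, δ s x ∈ L (i + 1))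
    (m n i : ℕ) {r p t₀ : ℤ} (hr : (M:ℤ) ^ m ∣ r - 1) (hp : (M:ℤ) ^ m ∣ p - t₀)
    {s : Q} (hs : s ∈ L i) :
    pw θ (univ : Finset (Fin (n + m) → ι)) (vZ M δ α dig r p s (n + m)) ≤
      RM θ M δ α dig L m (t₀ : ZMod (M ^ m)) (i + n) *
        pw θ (univ : Finset (Fin n → ι)) (vZ M δ α dig r p s n) := by
  classical
  have hM0 : (M:ℤ) ≠ 0 := by positivity
  have key : ∀ w : Fin (n + m) → ι, ∀ a, vZ M δ α dig r p s (n + m) w a =
      (M:ℤ) ^ m * vZ M δ α dig r p s n (wl n m w) a +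
        vZ M δ α dig r p (sS δ s n (wl n m w)) m (wr n m w) a := by
    intro w a
    unfold vZ
    rw [vA_add, vD_add]
    ring
  have hres : ∀ w : Fin (n + m) → ι, ∀ a, ((vZ M δ α dig r p s (n + m) w a : ℤ) : ZMod (M ^ m)) =
      res M δ α dig m (t₀ : ZMod (M ^ m)) (sS δ s n (wl n m w), wr n m w) a := by
    intro w a
    rw [key]
    unfold res vZ
    have h1 : ((M:ℤ) ^ m : ℤ) = ((M ^ m : ℕ) : ℤ) := by push_cast; rfl
    have h2 : ((r : ℤ) : ZMod (M ^ m)) = 1 := by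
      rw [← sub_eq_zero, ← Int.cast_one, ← Int.cast_sub, ZMod.intCast_zmod_eq_zero_iff_dvd, ← h1]
      exact hr
    have h3 : ((p : ℤ) : ZMod (M ^ m)) = ((t₀ : ℤ) : ZMod (M ^ m)) := by
      rw [← sub_eq_zero, ← Int.cast_sub, ZMod.intCast_zmod_eq_zero_iff_dvd, ← h1]
      exact hp
    have h4 : (((M:ℤ) ^ m : ℤ) : ZMod (M ^ m)) = 0 := by
      rw [ZMod.intCast_zmod_eq_zero_iff_dvd, ← h1]
    rw [Int.cast_add, Int.cast_mul, h4, zero_mul, zero_add, Int.cast_add, Int.cast_mul,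
      Int.cast_mul, h2, h3, one_mul]
  refine (pw_fib hθ (fun w => (sS δ s n (wl n m w), wr n m w)) (L (i + n) ×ˢ univ)
    (fun w _ => mem_product.2 ⟨st_mem hL hs _ _, mem_univ _⟩)
    (fun z => ((fl (L (i + n) ×ˢ (univ : Finset (Fin m → ι))) fun z' =>
      res M δ α dig m (t₀ : ZMod (M ^ m)) z' = res M δ α dig m (t₀ : ZMod (M ^ m)) z).card : ℝ))
    (fun w _ => ?_)).trans ?_
  · have h1 : (fl (L (i + n) ×ˢ (univ : Finset (Fin m → ι))) fun u =>
        ∃ w' ∈ (univ : Finset (Fin (n + m) → ι)), (sS δ s n (wl n m w'), wr n m w') = u ∧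
          vZ M δ α dig r p s (n + m) w' = vZ M δ α dig r p s (n + m) w) ⊆
        (fl (L (i + n) ×ˢ (univ : Finset (Fin m → ι))) fun z' =>
          res M δ α dig m (t₀ : ZMod (M ^ m)) z' =
            res M δ α dig m (t₀ : ZMod (M ^ m)) (sS δ s n (wl n m w), wr n m w)) := by
      intro z hz
      rw [mem_fl] at hz ⊢
      obtain ⟨hz1, w', -, rfl, hw'⟩ := hz
      refine ⟨hz1, ?_⟩
      funext a
      rw [← hres, ← hres, hw']
    exact_mod_cast card_le_card h1
  · unfold RM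
    rw [pw, sum_mul]
    refine sum_le_sum fun z _ => ?_
    refine mul_le_mul_of_nonneg_left ?_ (Real.rpow_nonneg (Nat.cast_nonneg _) _)
    refine pw_le_of_inj hθ (wl n m) (fun w _ => mem_univ _) ?_ ?_
    · intro w hw w' hw' h
      rw [mem_fl] at hw hw'
      exact w_ext h (by
        have := hw.2.trans hw'.2.symm
        simp only [Prod.mk.injEq] at this
        exact this.2)
    · intro w hw w' hw' h
      rw [mem_fl] at hw hw'
      funext a
      have h1 := congrFun h a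
      rw [key, key] at h1
      have h2 := hw.2.trans hw'.2.symm
      simp only [Prod.mk.injEq] at h2
      rw [h2.1, h2.2] at h1
      have h3 : (M:ℤ) ^ m * vZ M δ α dig r p s n (wl n m w') a =
          (M:ℤ) ^ m * vZ M δ α dig r p s n (wl n m w) a := by linarith
      exact mul_left_cancel₀ (pow_ne_zero _ hM0) h3

/-- Several exact steps. -/
theorem exact_steps {θ : ℝ} (hθ : 0 ≤ θ) (hM : 2 ≤ M) (δ : Q → ι → Q) (α : Q → ι → Fin d → ℤ)
    (dig : ι → Fin d → ℤ) {L : ℕ → Finset Q} (hL : ∀ i, ∀ s ∈ L i, ∀ x, δ s x ∈ L (i + 1))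
    (m i : ℕ) {r p t₀ : ℤ} (hr : (M:ℤ) ^ m ∣ r - 1) (hp : (M:ℤ) ^ m ∣ p - t₀)
    {s : Q} (hs : s ∈ L i) (K : ℕ) :
    pw θ (univ : Finset (Fin (m * K) → ι)) (vZ M δ α dig r p s (m * K)) ≤
      ∏ k ∈ range K, RM θ M δ α dig L m (t₀ : ZMod (M ^ m)) (i + m * k) := by
  classical
  induction K with
  | zero =>
    unfold pw
    simp only [Nat.mul_zero, range_zero, prod_empty]
    rw [Fintype.sum_subsingleton _ (fun i : Fin 0 => i.elim0)]
    have h1 : (fl (univ : Finset (Fin 0 → ι)) fun w' => vZ M δ α dig r p s 0 w' =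
        vZ M δ α dig r p s 0 (fun i : Fin 0 => i.elim0)).card ≤ 1 := by
      refine (card_le_univ _).trans ?_
      simp
    calc _ ≤ (1:ℝ) ^ θ := by
          refine Real.rpow_le_rpow (Nat.cast_nonneg _) ?_ hθ
          exact_mod_cast h1
      _ = 1 := Real.one_rpow _
  | succ K ih =>
    rw [prod_range_succ, mul_comm (∏ k ∈ range K, _)]
    refine (exact_step hθ hM δ α dig hL m (m * K) i hr hp hs).trans ?_
    exact mul_le_mul_of_nonneg_left ih (pw_nonneg _ _ _)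

end

end Pool.Agent.N269.MX
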