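import Pool.Agent.N269.MX.An
import Pool.Agent.N269.MX.Discrete

set_option autoImplicit false

/-!
# The maximal estimate for programs of bounded width and for automata, all scales
-/

open Finset MeasureTheory
open scoped ENNReal

namespace Pool.Agent.N269.MX
open Pool.Agent.N269.AK

/-- The scale. -/
theorem exists_scale {b : ℕ} (hb : 2 ≤ b) {r : ℝ} (hr : 0 < r) (hr1 : r < 1) :
    ∃ n : ℕ, ((b:ℝ) ^ n)⁻¹ ≤ r ∧ (b:ℝ) ^ n * r ≤ b := by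
  have hb1 : (1:ℝ) < b := by exact_mod_cast (by omega : 1 < b)
  have hb0 : (0:ℝ) < b := by linarith
  obtain ⟨n, hn1, hn2⟩ := exists_nat_pow_near (one_le_one_div hr hr1.le) hb1
  refine ⟨n + 1, ?_, ?_⟩
  · rw [inv_le_comm₀ (by positivity) hr, ← one_div]
    exact hn2.le
  · rw [le_div_iff₀ hr] at hn1
    rw [pow_succ]
    nlinarith

/-- The bound at one scale, in terms of the radius. -/
theorem scale_bound {b d : ℕ} (hb : 2 ≤ b) (hd : 1 ≤ d) {ε κ C₀ r : ℝ} (hε : 0 < ε)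
    (hκ : 0 ≤ κ) (hC₀ : 0 ≤ C₀) (hr : 0 < r) {n : ℕ} (h1 : ((b:ℝ) ^ n)⁻¹ ≤ r)
    (h2 : (b:ℝ) ^ n * r ≤ b) (F : ℝ≥0∞) :
    ENNReal.ofReal ((((b:ℝ) ^ n)⁻¹) ^ d) * (F *
      (ENNReal.ofReal (κ * (((b:ℝ) ^ n)⁻¹) ^ d *
        (C₀ * (((b:ℝ) ^ d) * (b:ℝ) ^ ε) ^ n))) ^ (1 / (1 + 1 / (d:ℝ)))) ≤
    ENNReal.ofReal (r ^ d) *
      (ENNReal.ofReal ((κ * C₀ + 1) * (b:ℝ) ^ ε * r ^ (-ε)) * F) := by
  have hb1 : (1:ℝ) < b := by exact_mod_cast (by omega : 1 < b)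
  have hb0 : (0:ℝ) < b := by linarith
  have hd0 : (0:ℝ) < d := by exact_mod_cast hd
  set N : ℝ := (b:ℝ) ^ n with hN
  have hN0 : 0 < N := by positivity
  have hN1 : 1 ≤ N := one_le_pow₀ hb1.le
  have hq : (0:ℝ) < 1 / (1 + 1 / (d:ℝ)) := by positivity
  have hq1 : 1 / (1 + 1 / (d:ℝ)) ≤ 1 := by
    rw [div_le_one (by positivity)]
    have : 0 < 1 / (d:ℝ) := by positivity
    linarith
  have hNε : 1 ≤ N ^ ε := Real.one_le_rpow hN1 hε.le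
  set Z : ℝ := κ * C₀ with hZ
  have hZ0 : 0 ≤ Z := by positivity
  have e1 : κ * (N⁻¹) ^ d * (C₀ * (((b:ℝ) ^ d) * (b:ℝ) ^ ε) ^ n) = Z * N ^ ε := by
    have e2 : (((b:ℝ) ^ d) * (b:ℝ) ^ ε) ^ n = N ^ d * N ^ ε := by
      rw [mul_pow, hN, ← pow_mul, ← pow_mul, mul_comm d n, ← Real.rpow_natCast ((b:ℝ) ^ ε) n,
        ← Real.rpow_mul hb0.le, ← Real.rpow_natCast (b:ℝ) n, ← Real.rpow_mul hb0.le, mul_comm ε]
    rw [e2, inv_pow, hZ]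
    field_simp
  have e3 : (ENNReal.ofReal (Z * N ^ ε)) ^ (1 / (1 + 1 / (d:ℝ))) ≤
      ENNReal.ofReal ((Z + 1) * (b:ℝ) ^ ε * r ^ (-ε)) := by
    rw [ENNReal.ofReal_rpow_of_nonneg (by positivity) hq.le]
    refine ENNReal.ofReal_le_ofReal ?_
    have e4 : 1 ≤ (Z + 1) * N ^ ε := by nlinarith
    calc (Z * N ^ ε) ^ (1 / (1 + 1 / (d:ℝ))) ≤ ((Z + 1) * N ^ ε) ^ (1 / (1 + 1 / (d:ℝ))) :=
          Real.rpow_le_rpow (by positivity) (by nlinarith) hq.le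
      _ ≤ ((Z + 1) * N ^ ε) ^ (1:ℝ) := Real.rpow_le_rpow_of_exponent_le e4 hq1
      _ = (Z + 1) * N ^ ε := Real.rpow_one _
      _ ≤ (Z + 1) * ((b:ℝ) ^ ε * r ^ (-ε)) := by
          refine mul_le_mul_of_nonneg_left ?_ (by linarith)
          rw [Real.rpow_neg hr.le, ← div_eq_mul_inv, ← Real.div_rpow hb0.le hr.le]
          refine Real.rpow_le_rpow hN0.le ?_ hε.le
          rw [le_div_iff₀ hr]
          exact h2
      _ = _ := by ring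
  rw [e1]
  refine mul_le_mul' (ENNReal.ofReal_le_ofReal (pow_le_pow_left₀ (by positivity) h1 d)) ?_
  rw [mul_comm]
  exact mul_le_mul_left e3 _

/-- The power of the base which bounds the width. -/
theorem exists_k {b : ℕ} (hb : 2 ≤ b) (c : ℕ) (hc : 1 ≤ c) :
    ∃ k : ℕ, 1 ≤ k ∧ c ≤ b ^ k ∧ b ^ k ≤ b * c := by
  rcases Nat.eq_or_lt_of_le hc with h | h
  · exact ⟨1, le_refl 1, by rw [← h, pow_one]; omega, by rw [← h, pow_one, mul_one]⟩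
  · refine ⟨Nat.clog b c, Nat.clog_pos (by omega) h, Nat.le_pow_clog (by omega) c, ?_⟩
    have h1 := Nat.pow_pred_clog_lt_self (b := b) (x := c) (by omega) h
    have h2 : b ^ Nat.clog b c = b * b ^ (Nat.clog b c).pred := by
      rw [← pow_succ']
      congr 1
      have := Nat.clog_pos (b := b) (n := c) (by omega) h
      rw [Nat.pred_eq_sub_one]
      omega
    rw [h2]
    exact Nat.mul_le_mul_left _ h1.le

theorem const_bound {b d lam k c : ℕ} (hb : 2 ≤ b) (hk : b ^ k ≤ b * c) {C₁ : ℝ}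
    (hC₁ : 0 < C₁) {κ ε : ℝ} (hκ : 0 ≤ κ) {C : ℝ} (hc1 : 1 ≤ c)
    (hC : ∀ j : ℕ, j ≤ 1 → (C₁ * (b:ℝ) ^ lam) ^ j ≤ C)
    (hC2 : (κ + 1) * (b:ℝ) ^ (2 * d * lam) * (b:ℝ) ^ ε ≤ C) {r : ℝ}
    (hr : 0 < r) :
    C₁ * (b:ℝ) ^ (lam * k) ≤ C * (c:ℝ) ^ ((2 * d + 1) * lam) ∧
    (κ * ((b:ℝ) ^ d) ^ (2 * (lam * k)) + 1) * (b:ℝ) ^ ε * r ^ (-ε) ≤
      C * (c:ℝ) ^ ((2 * d + 1) * lam) * r ^ (-ε) := by
  have hb1 : (1:ℝ) ≤ b := by exact_mod_cast (by omega : 1 ≤ b)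
  have hb0 : (0:ℝ) < b := by linarith
  have hc : (1:ℝ) ≤ c := by exact_mod_cast hc1
  have hk' : (b:ℝ) ^ k ≤ b * c := by exact_mod_cast hk
  have h1 : (b:ℝ) ^ (lam * k) ≤ (b:ℝ) ^ lam * (c:ℝ) ^ lam := by
    rw [← mul_pow, mul_comm lam k, pow_mul]
    exact pow_le_pow_left₀ (by positivity) hk' _
  have hclam : (1:ℝ) ≤ (c:ℝ) ^ lam := one_le_pow₀ hc
  constructor
  · have h2 := hC 1 (le_refl 1)
    rw [pow_one] at h2
    calc C₁ * (b:ℝ) ^ (lam * k) ≤ C₁ * ((b:ℝ) ^ lam * (c:ℝ) ^ lam) :=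
          mul_le_mul_of_nonneg_left h1 hC₁.le
      _ = (C₁ * (b:ℝ) ^ lam) * (c:ℝ) ^ lam := by ring
      _ ≤ C * (c:ℝ) ^ lam := mul_le_mul_of_nonneg_right h2 (by positivity)
      _ ≤ C * (c:ℝ) ^ ((2 * d + 1) * lam) := by
          refine mul_le_mul_of_nonneg_left (pow_le_pow_right₀ hc ?_) ?_
          · nlinarith
          · exact (by positivity : 0 ≤ C₁ * (b:ℝ) ^ lam).trans h2
  · refine mul_le_mul_of_nonneg_right ?_ (Real.rpow_nonneg hr.le _)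
    have h3 : ((b:ℝ) ^ d) ^ (2 * (lam * k)) ≤ (b:ℝ) ^ (2 * d * lam) * (c:ℝ) ^ (2 * d * lam) := by
      rw [← mul_pow, ← pow_mul, show d * (2 * (lam * k)) = k * (2 * d * lam) by ring, pow_mul]
      exact pow_le_pow_left₀ (by positivity) hk' _
    have h5 : (1:ℝ) ≤ (b:ℝ) ^ (2 * d * lam) * (c:ℝ) ^ (2 * d * lam) := by
      have e1 : (1:ℝ) ≤ (b:ℝ) ^ (2 * d * lam) := one_le_pow₀ hb1
      have e2 : (1:ℝ) ≤ (c:ℝ) ^ (2 * d * lam) := one_le_pow₀ hc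
      nlinarith
    calc (κ * ((b:ℝ) ^ d) ^ (2 * (lam * k)) + 1) * (b:ℝ) ^ ε
        ≤ (κ * ((b:ℝ) ^ (2 * d * lam) * (c:ℝ) ^ (2 * d * lam)) +
            (b:ℝ) ^ (2 * d * lam) * (c:ℝ) ^ (2 * d * lam)) * (b:ℝ) ^ ε := by
          refine mul_le_mul_of_nonneg_right (add_le_add ?_ h5) (by positivity)
          exact mul_le_mul_of_nonneg_left h3 hκ
      _ = ((κ + 1) * (b:ℝ) ^ (2 * d * lam) * (b:ℝ) ^ ε) * (c:ℝ) ^ (2 * d * lam) := by ring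
      _ ≤ C * (c:ℝ) ^ (2 * d * lam) := mul_le_mul_of_nonneg_right hC2 (by positivity)
      _ ≤ C * (c:ℝ) ^ ((2 * d + 1) * lam) := by
          refine mul_le_mul_of_nonneg_left (pow_le_pow_right₀ hc ?_) ?_
          · nlinarith
          · exact le_trans (by positivity) hC2

/-- **Programs of bounded width**: the dependence on the width `c` is polynomial. -/
theorem max_width {d b : ℕ} [NeZero b] (hb : 2 ≤ b) (hd : 1 ≤ d) (A₀ : ℕ) {ε : ℝ} (hε : 0 < ε)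
    {x y : ℝ} (hxy : x < y) :
    ∃ (K : ℕ) (C : ℝ), 1 ≤ C ∧ ∀ c : ℕ, 1 ≤ c → ∃ H : Finset ℝ,
      (∀ h ∈ H, x < h ∧ h + 1 / (C * (c:ℝ) ^ K) < y) ∧
      ∀ (Q : Type) (δ : Q → (Fin d → Fin b) → Q) (α : Q → (Fin d → Fin b) → Fin d → ℤ),
        (∀ s i a, |α s i a| ≤ A₀) →
        ∀ L : ℕ → Finset Q, (∀ i, ∀ s ∈ L i, ∀ x, δ s x ∈ L (i + 1)) → (∀ i, (L i).card ≤ c) →
        ∀ s ∈ L 0, ∀ r : ℝ, 0 < r → r < 1 → ∃ h ∈ H,
        ∀ f : ℝ × (Fin d → ℝ) → ℝ≥0∞, Measurable f →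
        ∃ Ψ : (Fin d → ℝ) → ℝ≥0∞, Measurable Ψ ∧
          (∀ v : Fin d → ℝ, (∀ i, v i ∈ Set.Ico (0:ℝ) 1) →
            ∫⁻ z in tub h (1 / (C * (c:ℝ) ^ K)) r (pos b δ α s (dseq d b v)) v, f z ≤ Ψ v) ∧
          ∫⁻ v, Ψ v ≤ ENNReal.ofReal (r ^ d) * (ENNReal.ofReal (C * (c:ℝ) ^ K * r ^ (-ε)) *
            ∫⁻ t in Set.Icc h (h + 1 / (C * (c:ℝ) ^ K)),
              (∫⁻ y, f (t, y) ^ ((d:ℝ) + 1)) ^ (1 / ((d:ℝ) + 1))) := by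
  have hne : Nonempty (Fin d → Fin b) := ⟨fun _ => ⟨0, by omega⟩⟩
  obtain ⟨lam, C₁, hC₁, hw⟩ := width (ι := Fin d → Fin b) hd hb (dig := dg d b)
    dg_inj A₀ hε hxy
  obtain ⟨R, hR⟩ := exists_nat_ge ((b:ℝ) + A₀ + (|x| + |y|) + 1)
  set κ : ℝ := (((2 * R + 1) ^ d : ℕ) : ℝ) ^ (1 + 1 / (d:ℝ)) with hκ
  have hκ0 : 0 ≤ κ := Real.rpow_nonneg (Nat.cast_nonneg _) _
  have hb0 : (0:ℝ) < b := by positivity
  set C : ℝ := C₁ * (b:ℝ) ^ lam + 1 + (κ + 1) * (b:ℝ) ^ (2 * d * lam) * (b:ℝ) ^ ε with hC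
  have hC0 : 0 < C := by positivity
  have hC1 : 1 ≤ C := by
    have e1 : (0:ℝ) ≤ C₁ * (b:ℝ) ^ lam := by positivity
    have e2 : (0:ℝ) ≤ (κ + 1) * (b:ℝ) ^ (2 * d * lam) * (b:ℝ) ^ ε := by positivity
    rw [hC]; linarith
  refine ⟨(2 * d + 1) * lam, C, hC1, fun c hc1 => ?_⟩
  obtain ⟨k, hk1, hck, hkc⟩ := exists_k hb c hc1
  obtain ⟨H, hH, hw⟩ := hw k hk1
  have hcb : ∀ {r : ℝ}, 0 < r → _ := fun {r : ℝ} (hr : 0 < r) => const_bound (d := d) (lam := lam)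
    (C := C) hb hkc hC₁ hκ0 hc1 (by
      intro j hj
      have e1 : (0:ℝ) ≤ C₁ * (b:ℝ) ^ lam := by positivity
      have e2 : (0:ℝ) ≤ (κ + 1) * (b:ℝ) ^ (2 * d * lam) * (b:ℝ) ^ ε := by positivity
      interval_cases j
      · rw [pow_zero, hC]; linarith
      · rw [pow_one, hC]; linarith) (by
      have e1 : (0:ℝ) ≤ C₁ * (b:ℝ) ^ lam := by positivity
      rw [hC]; linarith) hr
  have hη0 : 0 < 1 / (C₁ * (b:ℝ) ^ (lam * k)) := by positivity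
  have hηη : 1 / (C * (c:ℝ) ^ ((2 * d + 1) * lam)) ≤ 1 / (C₁ * (b:ℝ) ^ (lam * k)) :=
    one_div_le_one_div_of_le (by positivity) (hcb one_pos).1
  refine ⟨H, fun h hh => ⟨(hH h hh).1, by linarith [(hH h hh).2]⟩, ?_⟩
  intro Q δ α hα L hL hc s hs r hr hr1
  obtain ⟨n, hn1, hn2⟩ := exists_scale hb hr hr1
  obtain ⟨h, hh, hcell⟩ := hw Q δ α hα L hL (fun i => (hc i).trans hck) s hs n
  refine ⟨h, hh, fun f hf => ?_⟩
  set η : ℝ := 1 / (C * (c:ℝ) ^ ((2 * d + 1) * lam)) with hη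
  have hT : ∀ t ∈ Set.Icc h (h + η), |t| ≤ |x| + |y| := by
    intro t ht
    have h1 := hH h hh
    rw [abs_le]
    have h3 := neg_abs_le x
    have h4 := le_abs_self y
    have h5 := abs_nonneg x
    have h6 := abs_nonneg y
    constructor <;> [linarith [ht.1]; linarith [ht.2]]
  obtain ⟨Ψ, hΨ1, hΨ2, hΨ3⟩ := an hb hd δ α hα s hT n
    (fun t ht => hcell t ⟨ht.1, ht.2.trans (by linarith)⟩ 0)
    (r := r) (ρ := (b:ℝ) + A₀ + (|x| + |y|)) (by linarith) hR f hf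
  refine ⟨Ψ, hΨ1, hΨ2, hΨ3.trans ?_⟩
  have hcard : (Fintype.card (Fin d → Fin b) : ℝ) = (b:ℝ) ^ d := by
    rw [Fintype.card_fun, Fintype.card_fin, Fintype.card_fin]
    push_cast
    rfl
  rw [hcard]
  refine (scale_bound hb hd hε hκ0 (by positivity) hr hn1 hn2 _).trans ?_
  refine mul_le_mul_right (mul_le_mul_left (ENNReal.ofReal_le_ofReal (hcb hr).2) _) _

/-- **Automata.** -/
theorem max_aut {d b : ℕ} [NeZero b] (hb : 2 ≤ b) (hd : 1 ≤ d) (A₀ : ℕ) {ε : ℝ} (hε : 0 < ε)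
    {x y : ℝ} (hxy : x < y) (c : ℕ) :
    ∃ (H : Finset ℝ) (η C : ℝ), 0 < η ∧ (∀ h ∈ H, x < h ∧ h + η < y) ∧
      ∀ (Q : Type) (_ : Fintype Q) (δ : Q → (Fin d → Fin b) → Q)
        (α : Q → (Fin d → Fin b) → Fin d → ℤ),
        (∀ s i a, |α s i a| ≤ A₀) → Fintype.card Q ≤ c → ∃ h ∈ H,
        ∀ (s : Q) (r : ℝ), 0 < r → r < 1 →
        ∀ f : ℝ × (Fin d → ℝ) → ℝ≥0∞, Measurable f →
        ∃ Ψ : (Fin d → ℝ) → ℝ≥0∞, Measurable Ψ ∧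
          (∀ v : Fin d → ℝ, (∀ i, v i ∈ Set.Ico (0:ℝ) 1) →
            ∫⁻ z in tub h η r (pos b δ α s (dseq d b v)) v, f z ≤ Ψ v) ∧
          ∫⁻ v, Ψ v ≤ ENNReal.ofReal (r ^ d) * (ENNReal.ofReal (C * r ^ (-ε)) *
            ∫⁻ t in Set.Icc h (h + η), (∫⁻ y, f (t, y) ^ ((d:ℝ) + 1)) ^ (1 / ((d:ℝ) + 1))) := by
  have hne : Nonempty (Fin d → Fin b) := ⟨fun _ => ⟨0, by omega⟩⟩
  have hb0 : (0:ℝ) < b := by positivity
  obtain ⟨lam, C₁, hC₁, hw⟩ := stationary (ι := Fin d → Fin b) hd hb (dig := dg d b)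
    dg_inj A₀ hε hxy
  obtain ⟨k, hk1, hck, hkc⟩ := exists_k hb (c + 1) (by omega)
  obtain ⟨H, hH, hw⟩ := hw k hk1
  set η : ℝ := 1 / (C₁ * (b:ℝ) ^ (lam * k)) with hη
  have hη0 : 0 < η := by positivity
  obtain ⟨R, hR⟩ := exists_nat_ge ((b:ℝ) + A₀ + (|x| + |y|) + 1)
  refine ⟨H, η, ((((2 * R + 1) ^ d : ℕ) : ℝ) ^ (1 + 1 / (d:ℝ)) *
    ((b:ℝ) ^ d) ^ (2 * (lam * k)) + 1) * (b:ℝ) ^ ε, hη0, hH, ?_⟩
  intro Q _ δ α hα hc
  obtain ⟨h, hh, hcell⟩ := hw Q inferInstance δ α hα (by omega)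
  refine ⟨h, hh, fun s r hr hr1 f hf => ?_⟩
  obtain ⟨n, hn1, hn2⟩ := exists_scale hb hr hr1
  have hT : ∀ t ∈ Set.Icc h (h + η), |t| ≤ |x| + |y| := by
    intro t ht
    have h1 := hH h hh
    rw [abs_le]
    have h3 := neg_abs_le x
    have h4 := le_abs_self y
    have h5 := abs_nonneg x
    have h6 := abs_nonneg y
    constructor <;> [linarith [ht.1]; linarith [ht.2]]
  obtain ⟨Ψ, hΨ1, hΨ2, hΨ3⟩ := an hb hd δ α hα s hT n (fun t ht => hcell s n t ht 0)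
    (r := r) (ρ := (b:ℝ) + A₀ + (|x| + |y|)) (by linarith) hR f hf
  refine ⟨Ψ, hΨ1, hΨ2, hΨ3.trans ?_⟩
  have hcard : (Fintype.card (Fin d → Fin b) : ℝ) = (b:ℝ) ^ d := by
    rw [Fintype.card_fun, Fintype.card_fin, Fintype.card_fin]
    push_cast
    rfl
  rw [hcard]
  exact scale_bound hb hd hε (Real.rpow_nonneg (Nat.cast_nonneg _) _) (by positivity) hr
    hn1 hn2 _

end Pool.Agent.N269.MX
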