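import Pool.Agent.N269.MX.Final
import Pool.Agent.W605.HD.Cov

set_option autoImplicit false

/-!
# From the maximal estimate over small intervals of heights to the Hausdorff dimension
-/

open Set MeasureTheory
open scoped ENNReal NNReal

namespace Pool.Agent.N269.MX
open Pool.Agent.N269.AK

/-- The maximal estimate with an arbitrarily small loss over small intervals of heights. -/
def Good {d : ℕ} (a : (Fin d → ℝ) → Fin d → ℝ) : Prop :=
  ∀ ε : ℝ, 0 < ε → ∀ x y : ℝ, x < y → ∃ h η C : ℝ, 0 < η ∧ x < h ∧ h + η < y ∧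
    ∀ r : ℝ, 0 < r → r < 1 → ∀ f : ℝ × (Fin d → ℝ) → ℝ≥0∞, Measurable f →
    ∃ Ψ : (Fin d → ℝ) → ℝ≥0∞, Measurable Ψ ∧
      (∀ v : Fin d → ℝ, (∀ i, v i ∈ Ico (0:ℝ) 1) → ∫⁻ z in tub h η r (a v) v, f z ≤ Ψ v) ∧
      ∫⁻ v, Ψ v ≤ ENNReal.ofReal (r ^ d) * (ENNReal.ofReal (C * r ^ (-ε)) *
        ∫⁻ t in Icc h (h + η), (∫⁻ y, f (t, y) ^ ((d:ℝ) + 1)) ^ (1 / ((d:ℝ) + 1)))

/-- The mixed norm over an interval of length at most one is at most the `L^n` norm. -/
theorem mixed_le {d : ℕ} {h η : ℝ} {f : ℝ × (Fin d → ℝ) → ℝ≥0∞} (hf : Measurable f) (hη : η ≤ 1) :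
    ∫⁻ t in Icc h (h + η), (∫⁻ u, f (t, u) ^ ((d : ℝ) + 1)) ^ (1 / ((d : ℝ) + 1)) ≤
      (∫⁻ z, f z ^ ((d : ℝ) + 1)) ^ (1 / ((d : ℝ) + 1)) := by
  have hfm : Measurable fun t : ℝ => ∫⁻ u, f (t, u) ^ ((d : ℝ) + 1) :=
    Measurable.lintegral_prod_right' (hf.pow_const _)
  have hd : (0 : ℝ) < (d : ℝ) + 1 := by positivity
  have h1 : ∫⁻ t in Icc h (h + η), (∫⁻ u, f (t, u) ^ ((d : ℝ) + 1)) ^ (1 / ((d : ℝ) + 1)) ≤
      (∫⁻ t in Icc h (h + η), ∫⁻ u, f (t, u) ^ ((d : ℝ) + 1)) ^ (1 / ((d : ℝ) + 1)) := by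
    have h2 := eLpNorm'_le_eLpNorm'_mul_rpow_measure_univ (p := 1) (q := (d : ℝ) + 1) one_pos
      (by linarith [(Nat.cast_nonneg d : (0:ℝ) ≤ d)])
      (f := fun t => (∫⁻ u, f (t, u) ^ ((d : ℝ) + 1)) ^ (1 / ((d : ℝ) + 1)))
      (μ := volume.restrict (Icc h (h + η))) ((hfm.pow_const _).aestronglyMeasurable)
    unfold eLpNorm' at h2
    simp only [enorm_eq_self, ENNReal.rpow_one, div_one, Measure.restrict_apply_univ,
      Real.volume_Icc, add_sub_cancel_left, ← ENNReal.rpow_mul, one_div,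
      inv_mul_cancel₀ hd.ne'] at h2
    simp only [one_div]
    refine h2.trans ?_
    calc _ ≤ (∫⁻ t in Icc h (h + η), ∫⁻ u, f (t, u) ^ ((d : ℝ) + 1)) ^ ((d : ℝ) + 1)⁻¹ * 1 := by
          refine mul_le_mul_right ?_ _
          refine ENNReal.rpow_le_one ?_ ?_
          · rw [← ENNReal.ofReal_one]
            exact ENNReal.ofReal_le_ofReal hη
          · rw [sub_nonneg]
            exact inv_le_one_of_one_le₀ (by linarith [(Nat.cast_nonneg d : (0:ℝ) ≤ d)])
      _ = _ := mul_one _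
  refine h1.trans (ENNReal.rpow_le_rpow ?_ (by positivity))
  rw [Measure.volume_eq_prod, lintegral_prod _ (hf.pow_const _).aemeasurable]
  exact setLIntegral_le_lintegral _ _

/-- The tube contains the cubes over the heights in `T`. -/
theorem tub_ge {d : ℕ} {h η r : ℝ} {p v : Fin d → ℝ} {U : Set (ℝ × (Fin d → ℝ))}
    (hU : MeasurableSet U) {T : Set ℝ} (hT : MeasurableSet T)
    (hT1 : ∀ t ∈ T, t ∈ Icc h (h + η) ∧
      ∀ y : Fin d → ℝ, (∀ a, |y a - (p a + t * v a)| ≤ r) → (t, y) ∈ U) (hr : 0 ≤ r) :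
    volume T * ENNReal.ofReal ((2 * r) ^ d) ≤ ∫⁻ z in tub h η r p v, U.indicator 1 z := by
  have htub : MeasurableSet (tub h η r p v) := by
    have h1 : tub h η r p v = TT h η 1 r p v := by
      unfold tub TT
      simp only [one_mul]
    rw [h1]
    exact (TT_closed _ _ _ _ _ _).measurableSet
  rw [← lintegral_indicator htub, Measure.volume_eq_prod, lintegral_prod _
    ((measurable_one.indicator hU).indicator htub).aemeasurable]
  calc volume T * ENNReal.ofReal ((2 * r) ^ d)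
      = ∫⁻ t, T.indicator (fun _ => ENNReal.ofReal ((2 * r) ^ d)) t := by
        rw [lintegral_indicator_const hT, mul_comm]
    _ ≤ _ := by
        refine lintegral_mono fun t => ?_
        by_cases ht : t ∈ T
        · rw [indicator_of_mem ht]
          obtain ⟨ht1, ht2⟩ := hT1 t ht
          have h1 : volume (Icc (fun a => p a + t * v a - r) (fun a => p a + t * v a + r)) =
              ENNReal.ofReal ((2 * r) ^ d) := by
            rw [Real.volume_Icc_pi]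
            have e1 : ∀ a : Fin d, p a + t * v a + r - (p a + t * v a - r) = 2 * r := fun a => by ring
            simp only [e1]
            rw [Finset.prod_const, Finset.card_univ, Fintype.card_fin,
              ENNReal.ofReal_pow (by positivity)]
          rw [← h1, ← lintegral_indicator_one measurableSet_Icc]
          refine lintegral_mono fun y => ?_
          by_cases hy : y ∈ Icc (fun a => p a + t * v a - r) (fun a => p a + t * v a + r)
          · have e2 : ∀ a, |y a - (p a + t * v a)| ≤ r := fun a => by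
              rw [abs_le]
              have e3 := hy.1 a
              have e4 := hy.2 a
              simp only at e3 e4
              constructor <;> linarith
            rw [indicator_of_mem hy, indicator_of_mem (show (t, y) ∈ tub h η r p v from ⟨ht1, e2⟩),
              indicator_of_mem (ht2 y e2)]
            exact le_refl _
          · rw [indicator_of_notMem hy]
            exact zero_le
        · rw [indicator_of_notMem ht]
          exact zero_le

/-- **The maximal estimate implies the full Hausdorff dimension.** -/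
theorem haus {d : ℕ} {a : (Fin d → ℝ) → Fin d → ℝ} (ha : Good a) (K : Set (ℝ × (Fin d → ℝ)))
    (V : Set (Fin d → ℝ)) (hV : ∀ v ∈ V, ∀ i, v i ∈ Ico (0:ℝ) 1) (hV0 : volume V ≠ 0)
    (hK : ∀ v ∈ V, ∃ t₁ t₂ : ℝ, t₁ < t₂ ∧
      ∀ t ∈ Icc t₁ t₂, ((t, fun i => a v i + t * v i) : ℝ × (Fin d → ℝ)) ∈ K) :
    (d + 1 : ℕ) ≤ dimH K := by
  classical
  by_contra hcon
  push Not at hcon
  obtain ⟨α, hα1, hα2⟩ := ENNReal.lt_iff_exists_nnreal_btwn.1 hcon
  have hαn : (α : ℝ) < d + 1 := by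
    have : (α : ℝ≥0∞) < ((d + 1 : ℕ) : ℝ≥0∞) := hα2
    have h2 : α < ((d + 1 : ℕ) : ℝ≥0) := by exact_mod_cast this
    have h3 : (α : ℝ) < ((d + 1 : ℕ) : ℝ) := by exact_mod_cast h2
    simpa using h3
  have hα0 : (0:ℝ) ≤ α := α.2
  set n : ℝ := (d:ℝ) + 1 with hn
  have hn0 : 0 < n := by positivity
  set γ : ℝ := n - α with hγ
  have hγ0 : 0 < γ := by rw [hγ, hn]; linarith
  -- a common interval
  obtain ⟨x, y, hxy, hxy1, hV1⟩ : ∃ x y : ℝ, x < y ∧ y < x + 1 ∧ volume {v ∈ V |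
      ∀ t ∈ Icc x y, ((t, fun i => a v i + t * v i) : ℝ × (Fin d → ℝ)) ∈ K} ≠ 0 := by
    by_contra hno
    push Not at hno
    apply hV0
    have h1 : V ⊆ ⋃ q : {q : ℚ × ℚ // (q.1 : ℝ) < q.2 ∧ (q.2 : ℝ) < q.1 + 1},
        {v ∈ V | ∀ t ∈ Icc (q.1.1 : ℝ) q.1.2,
          ((t, fun i => a v i + t * v i) : ℝ × (Fin d → ℝ)) ∈ K} := by
      intro v hv
      obtain ⟨t₁, t₂, h12, ht⟩ := hK v hv
      obtain ⟨q₁, hq1, hq2⟩ := exists_rat_btwn h12
      obtain ⟨q₂, hq3, hq4⟩ := exists_rat_btwn (lt_min hq2 (by linarith : (q₁:ℝ) < q₁ + 1))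
      rw [mem_iUnion]
      refine ⟨⟨(q₁, q₂), hq3, hq4.trans_le (min_le_right _ _)⟩, hv, fun t htt => ht t ?_⟩
      exact ⟨hq1.le.trans htt.1, htt.2.trans (hq4.le.trans (min_le_left _ _))⟩
    refine measure_mono_null h1 (measure_iUnion_null fun q => ?_)
    exact hno _ _ q.2.1 q.2.2
  set V' := {v ∈ V | ∀ t ∈ Icc x y, ((t, fun i => a v i + t * v i) : ℝ × (Fin d → ℝ)) ∈ K}
    with hV'
  -- the good interval
  obtain ⟨h, η, C, hη, hh1, hh2, hgood⟩ := ha (γ / (4 * n)) (by positivity) x y hxy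
  have hη1 : η ≤ 1 := by linarith
  set ρ : ℝ := (2:ℝ) ^ (-(γ / (8 * n))) with hρ
  have hρ0 : 0 < ρ := by positivity
  have hρ1 : ρ < 1 := Real.rpow_lt_one_of_one_lt_of_neg (by norm_num) (by
    have : 0 < γ / (8 * n) := by positivity
    linarith)
  obtain ⟨x₀, hx₀, hx₀V⟩ : ∃ x₀ : ℝ, 0 < x₀ ∧ ENNReal.ofReal x₀ ≤ volume V' := by
    have h1 : volume V' ≠ ⊤ := by
      refine ne_top_of_le_ne_top (b := volume (Icc (0 : Fin d → ℝ) 1)) ?_ (measure_mono ?_)
      · exact isCompact_Icc.measure_lt_top.ne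
      · intro v hv
        exact ⟨fun i => (hV v hv.1 i).1, fun i => (hV v hv.1 i).2.le⟩
    refine ⟨(volume V').toReal, ENNReal.toReal_pos hV1 h1, ?_⟩
    rw [ENNReal.ofReal_toReal h1]
  -- the numerical contradiction for large `k`
  set c₁ : ℝ := x₀ * (1 - ρ) / 2 with hc₁
  set c₂ : ℝ := η * (1 - ρ) / 2 with hc₂
  have h1ρ : 0 < 1 - ρ := by linarith
  have hc₁0 : 0 < c₁ := by positivity
  have hc₂0 : 0 < c₂ := by positivity
  obtain ⟨k0, hk0⟩ : ∃ k0 : ℕ, ∀ k : ℕ, k0 ≤ k →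
      (|C| + 1) * ((2:ℝ) ^ (α : ℝ) * 4 ^ n) ^ (1 / n) / (c₁ * c₂) <
        ((2:ℝ) ^ (γ / (2 * n))) ^ k := by
    have hb : 1 < (2:ℝ) ^ (γ / (2 * n)) := Real.one_lt_rpow (by norm_num) (by positivity)
    obtain ⟨k0, hk0⟩ := pow_unbounded_of_one_lt
      ((|C| + 1) * ((2:ℝ) ^ (α : ℝ) * 4 ^ n) ^ (1 / n) / (c₁ * c₂)) hb
    exact ⟨k0, fun k hk => hk0.trans_le (pow_le_pow_right₀ hb.le hk)⟩
  -- the cover
  obtain ⟨t, κ, htK, htκ, htd, htc⟩ := Pool.Agent.W605.HD.cover K α hα1 (k0 + 1)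
  have hfin : ∀ k, {i | κ i = k}.Finite := by
    intro k
    by_contra hinf
    obtain ⟨N, hN⟩ := exists_nat_gt ((2:ℝ) ^ ((α : ℝ) * (k + 1)))
    obtain ⟨S, hS1, hS2⟩ := (show {i | κ i = k}.Infinite from hinf).exists_subset_card_eq N
    have h1 := htc k S (fun i hi => hS1 hi)
    rw [hS2] at h1
    linarith
  have hp : ∀ i, ∃ p : ℝ × (Fin d → ℝ), t i ⊆ Metric.closedBall p ((1 / 2 : ℝ) ^ κ i) := by
    intro i
    rcases (t i).eq_empty_or_nonempty with he | ⟨p, hp⟩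
    · exact ⟨0, by rw [he]; exact empty_subset _⟩
    · exact ⟨p, fun z hz => htd i z hz p hp⟩
  choose p hp using hp
  let U : ℕ → Set (ℝ × (Fin d → ℝ)) := fun k =>
    ⋃ i ∈ (hfin k).toFinset, Metric.closedBall (p i) ((1 / 2 : ℝ) ^ k)
  let U' : ℕ → Set (ℝ × (Fin d → ℝ)) := fun k =>
    ⋃ i ∈ (hfin k).toFinset, Metric.closedBall (p i) (2 * (1 / 2 : ℝ) ^ k)
  have hUc : ∀ k, IsClosed (U k) := fun k =>
    Set.Finite.isClosed_biUnion (Finset.finite_toSet _) fun i _ => Metric.isClosed_closedBall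
  have hU'c : ∀ k, IsClosed (U' k) := fun k =>
    Set.Finite.isClosed_biUnion (Finset.finite_toSet _) fun i _ => Metric.isClosed_closedBall
  have hU0 : ∀ k, k < k0 + 1 → U k = ∅ := by
    intro k hk
    have : (hfin k).toFinset = ∅ := by
      rw [Finset.eq_empty_iff_forall_notMem]
      intro i hi
      rw [Set.Finite.mem_toFinset] at hi
      have h1 : κ i = k := hi
      have := htκ i
      omega
    simp only [U, this]
    simp
  have hKU : K ⊆ ⋃ k, U k := by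
    intro z hz
    obtain ⟨i, hi⟩ := mem_iUnion.1 (htK hz)
    refine mem_iUnion.2 ⟨κ i, mem_iUnion₂.2 ⟨i, ?_, hp i hi⟩⟩
    rw [Set.Finite.mem_toFinset]
    rfl
  have hvolU' : ∀ k, volume (U' k) ≤
      ENNReal.ofReal ((2:ℝ) ^ ((α : ℝ) * (k + 1)) * (4 * (1 / 2 : ℝ) ^ k) ^ (d + 1)) := by
    intro k
    refine (measure_biUnion_finset_le _ _).trans ?_
    have h1 : ∀ i, volume (Metric.closedBall (p i) (2 * (1 / 2 : ℝ) ^ k)) =
        ENNReal.ofReal ((4 * (1 / 2 : ℝ) ^ k) ^ (d + 1)) := by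
      intro i
      rw [← closedBall_prod_same, Measure.volume_eq_prod, Measure.prod_prod, Real.volume_closedBall,
        Real.volume_pi_closedBall _ (by positivity), Fintype.card_fin,
        ← ENNReal.ofReal_mul (by positivity)]
      congr 1
      ring
    simp only [h1]
    rw [Finset.sum_const, nsmul_eq_mul, ENNReal.ofReal_mul (by positivity)]
    refine mul_le_mul_left ?_ _
    rw [← ENNReal.ofReal_natCast]
    exact ENNReal.ofReal_le_ofReal (htc k _ fun i hi => by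
      rw [Set.Finite.mem_toFinset] at hi
      exact hi)
  -- the heights at which a line is covered at the scale `k`
  let T : (Fin d → ℝ) → ℕ → Set ℝ := fun v k =>
    {τ | τ ∈ Icc h (h + η) ∧ ((τ, fun i => a v i + τ * v i) : ℝ × (Fin d → ℝ)) ∈ U k}
  have hTc : ∀ v k, IsClosed (T v k) := by
    intro v k
    have h1 : Continuous fun τ : ℝ => ((τ, fun i => a v i + τ * v i) : ℝ × (Fin d → ℝ)) := by
      fun_prop
    exact isClosed_Icc.inter ((hUc k).preimage h1)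
  let E : ℕ → Set (Fin d → ℝ) := fun k =>
    {v | (∀ i, v i ∈ Ico (0:ℝ) 1) ∧ ENNReal.ofReal (c₂ * ρ ^ k) ≤ volume (T v k)}
  have hVE : V' ⊆ ⋃ k, E k := by
    intro v hv
    have h1 : Icc h (h + η) ⊆ ⋃ k, T v k := by
      intro τ hτ
      have h2 := hv.2 τ ⟨by linarith [hτ.1], by linarith [hτ.2]⟩
      obtain ⟨k, hk⟩ := mem_iUnion.1 (hKU h2)
      exact mem_iUnion.2 ⟨k, hτ, hk⟩
    obtain ⟨k, hk⟩ := Pool.Agent.W605.HD.pigeon volume (Icc h (h + η)) (T v) h1 η ρ hη hρ0 hρ1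
      (by rw [Real.volume_Icc, add_sub_cancel_left])
    exact mem_iUnion.2 ⟨k, hV v hv.1, hk⟩
  obtain ⟨k, hk⟩ := Pool.Agent.W605.HD.pigeon volume V' E hVE x₀ ρ hx₀ hρ0 hρ1 hx₀V
  have hpk : 0 < ρ ^ k := by positivity
  have hkk : k0 + 1 ≤ k := by
    by_contra hlt
    push Not at hlt
    have h1 : E k = ∅ := by
      rw [Set.eq_empty_iff_forall_notMem]
      rintro v ⟨-, hv⟩
      have h2 : T v k = ∅ := by
        rw [Set.eq_empty_iff_forall_notMem]
        rintro τ ⟨-, hτ⟩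
        rw [hU0 k hlt] at hτ
        exact hτ
      rw [h2, measure_empty, nonpos_iff_eq_zero, ENNReal.ofReal_eq_zero] at hv
      have : 0 < c₂ * ρ ^ k := by positivity
      linarith
    rw [h1, measure_empty, nonpos_iff_eq_zero, ENNReal.ofReal_eq_zero] at hk
    have : 0 < x₀ * (1 - ρ) / 2 * ρ ^ k := by positivity
    linarith
  -- the maximal estimate at the scale `k`
  set r : ℝ := (1 / 2 : ℝ) ^ k with hr
  have hr0 : 0 < r := by positivity
  have hr1 : r < 1 := pow_lt_one₀ (by norm_num) (by norm_num) (by omega)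
  obtain ⟨Ψ, hΨ1, hΨ2, hΨ3⟩ := hgood r hr0 hr1 ((U' k).indicator 1)
    (measurable_one.indicator (hU'c k).measurableSet)
  set w : ℝ := c₂ * ρ ^ k * (2 * r) ^ d with hw
  have hw0 : 0 < w := by positivity
  have hEΨ : E k ⊆ {v | ENNReal.ofReal w ≤ Ψ v} := by
    rintro v ⟨hv1, hv2⟩
    refine le_trans ?_ (hΨ2 v hv1)
    refine le_trans ?_ (tub_ge (hU'c k).measurableSet (hTc v k).measurableSet ?_ hr0.le)
    · rw [hw, ENNReal.ofReal_mul (by positivity)]
      exact mul_le_mul_left hv2 _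
    · rintro τ ⟨hτ1, hτ2⟩
      refine ⟨hτ1, fun y hy => ?_⟩
      obtain ⟨i, hi, hz⟩ := mem_iUnion₂.1 hτ2
      refine mem_iUnion₂.2 ⟨i, hi, ?_⟩
      rw [Metric.mem_closedBall] at hz ⊢
      have h1 : dist ((τ, y) : ℝ × (Fin d → ℝ)) (τ, fun i => a v i + τ * v i) ≤ r := by
        rw [Prod.dist_eq]
        refine max_le (by simp [hr0.le]) ((dist_pi_le_iff hr0.le).2 fun i => ?_)
        rw [Real.dist_eq]
        exact hy i
      have h2 := dist_triangle ((τ, y) : ℝ × (Fin d → ℝ)) (τ, fun i => a v i + τ * v i) (p i)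
      linarith
  have hmark : ENNReal.ofReal w * volume (E k) ≤ ∫⁻ v, Ψ v :=
    (mul_le_mul_right (measure_mono hEΨ) _).trans (mul_meas_ge_le_lintegral hΨ1 _)
  -- the norm of the indicator
  have hnorm : ∫⁻ t in Icc h (h + η), (∫⁻ y, (U' k).indicator (1 : ℝ × (Fin d → ℝ) → ℝ≥0∞) (t, y) ^
      ((d:ℝ) + 1)) ^ (1 / ((d:ℝ) + 1)) ≤
      ENNReal.ofReal (((2:ℝ) ^ ((α : ℝ) * (k + 1)) * (4 * r) ^ (d + 1)) ^ (1 / n)) := by
    refine (mixed_le (measurable_one.indicator (hU'c k).measurableSet) hη1).trans ?_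
    rw [← ENNReal.ofReal_rpow_of_nonneg (by positivity) (by positivity)]
    refine ENNReal.rpow_le_rpow ?_ (by positivity)
    refine le_trans (le_of_eq ?_) (hvolU' k)
    rw [← lintegral_indicator_one (hU'c k).measurableSet]
    refine lintegral_congr fun z => ?_
    by_cases hz : z ∈ U' k
    · rw [indicator_of_mem hz, Pi.one_apply, ENNReal.one_rpow]
    · rw [indicator_of_notMem hz, ENNReal.zero_rpow_of_pos (by positivity)]
  have hC : ENNReal.ofReal (C * r ^ (-(γ / (4 * n)))) ≤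
      ENNReal.ofReal ((|C| + 1) * r ^ (-(γ / (4 * n)))) := by
    refine ENNReal.ofReal_le_ofReal (mul_le_mul_of_nonneg_right ?_ (Real.rpow_nonneg hr0.le _))
    linarith [le_abs_self C]
  have hfinal : ENNReal.ofReal (w * (c₁ * ρ ^ k)) ≤ ENNReal.ofReal (r ^ d *
      (((|C| + 1) * r ^ (-(γ / (4 * n)))) *
        ((2:ℝ) ^ ((α : ℝ) * (k + 1)) * (4 * r) ^ (d + 1)) ^ (1 / n))) := by
    rw [ENNReal.ofReal_mul hw0.le, ENNReal.ofReal_mul (p := r ^ d) (by positivity),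
      ENNReal.ofReal_mul (p := (|C| + 1) * r ^ (-(γ / (4 * n)))) (by positivity)]
    calc ENNReal.ofReal w * ENNReal.ofReal (c₁ * ρ ^ k) ≤ ENNReal.ofReal w * volume (E k) :=
          mul_le_mul_right hk _
      _ ≤ _ := hmark.trans (hΨ3.trans (mul_le_mul_right (mul_le_mul' hC hnorm) _))
  have hfinal2 := (ENNReal.ofReal_le_ofReal_iff (by positivity)).1 hfinal
  -- the numerical contradiction
  have e1 : r = (2:ℝ) ^ (-(k:ℝ)) := by
    rw [hr, one_div, inv_pow, Real.rpow_neg (by norm_num), Real.rpow_natCast]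
  have e2 : ((2:ℝ) ^ ((α : ℝ) * (k + 1)) * (4 * r) ^ (d + 1)) ^ (1 / n) =
      ((2:ℝ) ^ (α : ℝ) * 4 ^ n) ^ (1 / n) * (2:ℝ) ^ (-(γ / n) * k) := by
    have e3 : (4 * r) ^ (d + 1) = (4:ℝ) ^ n * (2:ℝ) ^ (-(k:ℝ) * n) := by
      rw [← Real.rpow_natCast, Real.mul_rpow (by norm_num) hr0.le, e1,
        ← Real.rpow_mul (by norm_num)]
      push_cast
      rfl
    have e4 : (2:ℝ) ^ ((α : ℝ) * (k + 1)) * (4 * r) ^ (d + 1) =
        ((2:ℝ) ^ (α : ℝ) * 4 ^ n) * (2:ℝ) ^ (-γ * k) := by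
      have f1 : (2:ℝ) ^ ((α : ℝ) * (k + 1)) = (2:ℝ) ^ ((α : ℝ) * k) * (2:ℝ) ^ (α : ℝ) := by
        rw [← Real.rpow_add (by norm_num)]
        congr 1
        ring
      have f2 : (2:ℝ) ^ (-γ * k) = (2:ℝ) ^ ((α : ℝ) * k) * (2:ℝ) ^ (-(k:ℝ) * n) := by
        rw [← Real.rpow_add (by norm_num)]
        congr 1
        rw [hγ]
        ring
      rw [e3, f1, f2]
      ring
    rw [e4, Real.mul_rpow (by positivity) (by positivity), ← Real.rpow_mul (by norm_num)]
    congr 2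
    field_simp
  have e5 : r ^ (-(γ / (4 * n))) = (2:ℝ) ^ (γ / (4 * n) * k) := by
    rw [e1, ← Real.rpow_mul (by norm_num)]
    congr 1
    ring
  have e6 : ρ ^ k = (2:ℝ) ^ (-(γ / (8 * n)) * k) := by
    rw [hρ, ← Real.rpow_natCast, ← Real.rpow_mul (by norm_num)]
  rw [e2, e5, hw] at hfinal2
  have hrd : 0 < r ^ d := by positivity
  have h2d : (1:ℝ) ≤ 2 ^ d := one_le_pow₀ (by norm_num)
  have e7 : c₁ * c₂ * (2:ℝ) ^ (-(γ / (4 * n)) * k) ≤
      (|C| + 1) * ((2:ℝ) ^ (α : ℝ) * 4 ^ n) ^ (1 / n) * (2:ℝ) ^ (-(3 * γ / (4 * n)) * k) := by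
    have e8 : ρ ^ k * ρ ^ k = (2:ℝ) ^ (-(γ / (4 * n)) * k) := by
      rw [e6, ← Real.rpow_add (by norm_num)]
      congr 1
      field_simp
      ring
    have e9 : (2:ℝ) ^ (γ / (4 * n) * k) * (2:ℝ) ^ (-(γ / n) * k) =
        (2:ℝ) ^ (-(3 * γ / (4 * n)) * k) := by
      rw [← Real.rpow_add (by norm_num)]
      congr 1
      field_simp
      ring
    have e10 : r ^ d * (c₁ * c₂ * (2:ℝ) ^ (-(γ / (4 * n)) * k)) ≤
        r ^ d * ((|C| + 1) * ((2:ℝ) ^ (α : ℝ) * 4 ^ n) ^ (1 / n) *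
          (2:ℝ) ^ (-(3 * γ / (4 * n)) * k)) := by
      rw [← e8, ← e9]
      calc r ^ d * (c₁ * c₂ * (ρ ^ k * ρ ^ k))
          ≤ 2 ^ d * (r ^ d * (c₁ * c₂ * (ρ ^ k * ρ ^ k))) :=
            le_mul_of_one_le_left (by positivity) h2d
        _ = c₂ * ρ ^ k * (2 * r) ^ d * (c₁ * ρ ^ k) := by rw [mul_pow]; ring
        _ ≤ _ := hfinal2
        _ = _ := by ring
    exact le_of_mul_le_mul_left e10 hrd
  have e11 := hk0 k (by omega)
  rw [div_lt_iff₀ (by positivity)] at e11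
  have e12 : ((2:ℝ) ^ (γ / (2 * n))) ^ k = (2:ℝ) ^ (-(γ / (4 * n)) * k) /
      (2:ℝ) ^ (-(3 * γ / (4 * n)) * k) := by
    rw [← Real.rpow_natCast, ← Real.rpow_mul (by norm_num), ← Real.rpow_sub (by norm_num)]
    congr 1
    field_simp
    ring
  rw [e12, div_mul_eq_mul_div, lt_div_iff₀ (by positivity)] at e11
  linarith

end Pool.Agent.N269.MX
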