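import Pool.Agent.N269.AK.Main
import Pool.Agent.N269.MX.Haus

set_option autoImplicit false

/-!
# Automatic selections: full Hausdorff dimension, arbitrary sets, positive outer measure
-/

open Set MeasureTheory
open scoped ENNReal NNReal

namespace Pool.Agent.N269.MX
open Pool.Agent.N269.AK

theorem good_aut {d b : ℕ} [NeZero b] (hb : 2 ≤ b) (hd : 1 ≤ d) {Q : Type} [Fintype Q]
    (δ : Q → (Fin d → Fin b) → Q) (α : Q → (Fin d → Fin b) → Fin d → ℤ) (s : Q) :
    Good (fun v => pos b δ α s (dseq d b v)) := by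
  intro ε hε x y hxy
  obtain ⟨A₀, hA⟩ : ∃ A₀ : ℕ, ∀ s i a, |α s i a| ≤ A₀ := by
    classical
    refine ⟨∑ z : Q × (Fin d → Fin b) × Fin d, (α z.1 z.2.1 z.2.2).natAbs, fun s i a => ?_⟩
    have h1 := Finset.single_le_sum (f := fun z : Q × (Fin d → Fin b) × Fin d =>
      (α z.1 z.2.1 z.2.2).natAbs) (fun _ _ => Nat.zero_le _) (Finset.mem_univ (s, i, a))
    rw [Int.abs_eq_natAbs]
    exact_mod_cast h1
  obtain ⟨H, η, C, hη, hH, hmax⟩ := max_aut (d := d) hb hd A₀ hε hxy (Fintype.card Q)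
  obtain ⟨h, hh, hf⟩ := hmax Q inferInstance δ α hA le_rfl
  exact ⟨h, η, C, hη, (hH h hh).1, (hH h hh).2, fun r hr hr1 f hfm => hf s r hr hr1 f hfm⟩

/-- **Automatic selections.** -/
theorem hmain {d b : ℕ} [NeZero b] (hb : 2 ≤ b) (hd : 1 ≤ d) {c : ℕ} (q₀ : Fin c)
    (next : Fin c → (Fin d → Fin b) → Fin c) (out : Fin c → (Fin d → Fin b) → Fin d → ℚ)
    (K : Set (EuclideanSpace ℝ (Fin (d + 1))))
    (V : Set (Fin d → ℝ)) (hV : ∀ v ∈ V, ∀ i, v i ∈ Ico (0:ℝ) 1) (hV0 : volume V ≠ 0)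
    (h : ∀ v ∈ V, ∃ t₁ t₂ : ℝ, t₁ < t₂ ∧ ∀ t ∈ Icc t₁ t₂,
      pt t (fun i => (∑' n, (out (st next q₀ (fun n i => Real.digits (v i) b n) n)
        (fun i => Real.digits (v i) b n) i : ℝ) / (b:ℝ) ^ (n + 1)) + t * v i) ∈ K) :
    dimH K = (d + 1 : ℕ) := by
  refine le_antisymm ?_ ?_
  · have h1 := dimH_mono (subset_univ K)
    rw [Real.dimH_univ_eq_finrank] at h1
    simpa using h1
  obtain ⟨r, g, hr, hg⟩ := exists_den
    (fun x : Fin c × (Fin d → Fin b) × Fin d => out x.1 x.2.1 x.2.2)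
  have hr0 : (0:ℝ) < r := by exact_mod_cast hr
  let α : Fin c → (Fin d → Fin b) → Fin d → ℤ := fun q w i => g (q, w, i)
  set G : ℝ × (Fin d → ℝ) → EuclideanSpace ℝ (Fin (d + 1)) :=
    fun z => pt (z.1 / r) (fun a => z.2 a / r) with hG
  have h1 := haus (good_aut hb hd next α q₀) (G ⁻¹' K) V hV hV0 (fun v hv => by
      obtain ⟨t₁, t₂, h12, ht⟩ := h v hv
      refine ⟨r * t₁, r * t₂, mul_lt_mul_of_pos_left h12 hr0, fun τ hτ => ?_⟩
      have h3 := ht (τ / r) ⟨by rw [le_div_iff₀ hr0]; linarith [hτ.1],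
        by rw [div_le_iff₀ hr0]; linarith [hτ.2]⟩
      rw [mem_preimage, hG]
      convert h3 using 2
      funext a
      simp only
      rw [add_div]
      congr 1
      · unfold pos ser
        rw [div_eq_mul_inv, ← tsum_mul_right]
        congr 1
        funext n
        unfold outs dseq
        simp only [α]
        rw [hg]
        field_simp
      · ring)
  exact h1.trans ((pt_anti (d := d) hr0).dimH_preimage_le K)

end Pool.Agent.N269.MX
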