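import Pool.Agent.N269.MX.PCard

set_option autoImplicit false

/-!
# The maximal estimate over finite rings

`Mx R d C D`: for every function `f < 2^J` on `R^(d+1)` and every choice of one line in each of the
directions `(1, b)` the sum over the directions of the `(d+1)`-st powers of the sums of `f` over the
lines is at most `C J^D |R|^d ∑ f^(d+1)`.
-/

open Finset

namespace Pool.Agent.N269.MX
open Pool.Agent.N269.AK

/-- The maximal estimate. -/
def Mx (R : Type*) [CommRing R] [Fintype R] [DecidableEq R] (d C D : ℕ) : Prop :=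
  ∀ J : ℕ, 1 ≤ J → ∀ f : R × (Fin d → R) → ℕ, (∀ z, f z < 2 ^ J) →
    ∀ x : (Fin d → R) → (Fin d → R),
      ∑ b, (∑ t, f (t, x b + t • b)) ^ (d + 1) ≤
        C * J ^ D * (Fintype.card R ^ d * ∑ z, f z ^ (d + 1))

theorem pow_sum_nat {α : Type*} (s : Finset α) (f : α → ℕ) (n : ℕ) :
    (∑ i ∈ s, f i) ^ (n + 1) ≤ s.card ^ n * ∑ i ∈ s, f i ^ (n + 1) := by
  exact_mod_cast pow_sum_le_card_mul_sum_pow (fun i _ => Nat.zero_le _) n

theorem dyadic (J n : ℕ) (hn : n < 2 ^ J) :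
    n ≤ ∑ j ∈ range J, if 2 ^ j ≤ n then 2 ^ j else 0 := by
  induction J with
  | zero => simp at hn; omega
  | succ J ih =>
    rw [sum_range_succ]
    by_cases h : n < 2 ^ J
    · exact (ih h).trans (Nat.le_add_right _ _)
    · push Not at h
      have h1 : ∑ j ∈ range J, (if 2 ^ j ≤ n then 2 ^ j else 0) = 2 ^ J - 1 := by
        have h2 := Nat.geomSum_eq (le_refl 2) J
        rw [show (2 : ℕ) - 1 = 1 from rfl, Nat.div_one] at h2
        rw [← h2]
        refine sum_congr rfl fun j hj => ?_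
        rw [mem_range] at hj
        rw [if_pos ((Nat.pow_le_pow_right (by norm_num) hj.le).trans h)]
      rw [h1, if_pos h]
      rw [pow_succ] at hn
      omega

/-- **The maximal estimate over `ℤ/p^k`.** -/
theorem mx_prime_pow (p k d : ℕ) [hp : Fact p.Prime] (hk : 1 ≤ k) :
    Mx (ZMod (p ^ k)) d (2 * (2 * (d + 1) * k) ^ d) (d + 1) := by
  classical
  intro J hJ f hf x
  set C := 2 * (2 * (d + 1) * k) ^ d with hC
  have h1 : ∀ j, ∑ b, (univ.filter fun t => 2 ^ j ≤ f (t, x b + t • b)).card ^ (d + 1) ≤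
      C * ((p ^ k) ^ d * (univ.filter fun z => 2 ^ j ≤ f z).card) := fun j =>
    pow_card p k d hk x (fun b => univ.filter fun t => 2 ^ j ≤ f (t, x b + t • b))
      (univ.filter fun z => 2 ^ j ≤ f z) (fun b t ht => by
        rw [mem_filter] at ht ⊢
        exact ⟨mem_univ _, ht.2⟩)
  have h2 : ∀ b, ∑ t, f (t, x b + t • b) ≤
      ∑ j ∈ range J, 2 ^ j * (univ.filter fun t => 2 ^ j ≤ f (t, x b + t • b)).card := by
    intro b
    calc ∑ t, f (t, x b + t • b)
        ≤ ∑ t, ∑ j ∈ range J, (if 2 ^ j ≤ f (t, x b + t • b) then 2 ^ j else 0) :=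
          sum_le_sum fun t _ => dyadic J _ (hf _)
      _ = ∑ j ∈ range J, ∑ t, (if 2 ^ j ≤ f (t, x b + t • b) then 2 ^ j else 0) := sum_comm
      _ = _ := by
          refine sum_congr rfl fun j _ => ?_
          rw [← sum_filter, sum_const, smul_eq_mul, mul_comm]
  calc ∑ b, (∑ t, f (t, x b + t • b)) ^ (d + 1)
      ≤ ∑ b, (∑ j ∈ range J, 2 ^ j *
          (univ.filter fun t => 2 ^ j ≤ f (t, x b + t • b)).card) ^ (d + 1) :=
        sum_le_sum fun b _ => Nat.pow_le_pow_left (h2 b) _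
    _ ≤ ∑ b, J ^ d * ∑ j ∈ range J, (2 ^ j *
          (univ.filter fun t => 2 ^ j ≤ f (t, x b + t • b)).card) ^ (d + 1) := by
        refine sum_le_sum fun b _ => ?_
        have := pow_sum_nat (range J) (fun j => 2 ^ j *
          (univ.filter fun t => 2 ^ j ≤ f (t, x b + t • b)).card) d
        rwa [card_range] at this
    _ = J ^ d * ∑ j ∈ range J, (2 ^ j) ^ (d + 1) *
          ∑ b, (univ.filter fun t => 2 ^ j ≤ f (t, x b + t • b)).card ^ (d + 1) := by
        rw [← mul_sum, sum_comm]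
        congr 1
        refine sum_congr rfl fun j _ => ?_
        rw [mul_sum]
        exact sum_congr rfl fun b _ => mul_pow _ _ _
    _ ≤ J ^ d * ∑ j ∈ range J, (2 ^ j) ^ (d + 1) *
          (C * ((p ^ k) ^ d * (univ.filter fun z => 2 ^ j ≤ f z).card)) :=
        Nat.mul_le_mul_left _ (sum_le_sum fun j _ => Nat.mul_le_mul_left _ (h1 j))
    _ = C * J ^ d * ((p ^ k) ^ d * ∑ j ∈ range J,
          ∑ z, (if 2 ^ j ≤ f z then (2 ^ j) ^ (d + 1) else 0)) := by
        have : ∀ j, ∑ z, (if 2 ^ j ≤ f z then (2 ^ j) ^ (d + 1) else 0) =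
            (2 ^ j) ^ (d + 1) * (univ.filter fun z => 2 ^ j ≤ f z).card := by
          intro j
          rw [← sum_filter, sum_const, smul_eq_mul, mul_comm]
        simp only [this, mul_sum]
        refine sum_congr rfl fun j _ => ?_
        ring
    _ ≤ C * J ^ d * ((p ^ k) ^ d * ∑ z, J * f z ^ (d + 1)) := by
        rw [sum_comm]
        refine Nat.mul_le_mul_left _ (Nat.mul_le_mul_left _ (sum_le_sum fun z _ => ?_))
        calc ∑ j ∈ range J, (if 2 ^ j ≤ f z then (2 ^ j) ^ (d + 1) else 0)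
            ≤ ∑ _j ∈ range J, f z ^ (d + 1) := by
              refine sum_le_sum fun j _ => ?_
              split_ifs with h
              · exact Nat.pow_le_pow_left h _
              · exact Nat.zero_le _
          _ = J * f z ^ (d + 1) := by rw [sum_const, card_range, smul_eq_mul]
    _ = C * J ^ (d + 1) * (Fintype.card (ZMod (p ^ k)) ^ d * ∑ z, f z ^ (d + 1)) := by
        rw [← mul_sum, ZMod.card]
        ring

/-- The maximal estimate for a product of two rings. -/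
theorem Mx.prod {R₁ R₂ : Type*} [CommRing R₁] [Fintype R₁] [DecidableEq R₁] [CommRing R₂]
    [Fintype R₂] [DecidableEq R₂] {d C₁ D₁ C₂ D₂ l : ℕ} (hl : Fintype.card R₁ ≤ 2 ^ l)
    (h₁ : Mx R₁ d C₁ D₁) (h₂ : Mx R₂ d C₂ D₂) :
    Mx (R₁ × R₂) d (C₁ * C₂ * (1 + l) ^ D₂) (D₁ + D₂) := by
  classical
  intro J hJ f hf x
  -- the partial maximal function
  let F : (Fin d → R₁) → (R₂ × (Fin d → R₂)) → (Fin d → R₁) → ℕ := fun b₁ z x₁ =>
    ∑ t₁, f ((t₁, z.1), fun a => (x₁ a + t₁ * b₁ a, z.2 a))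
  let g : (Fin d → R₁) → (R₂ × (Fin d → R₂)) → ℕ := fun b₁ z => univ.sup (F b₁ z)
  have hch : ∀ b₁ z, ∃ x₁, g b₁ z = F b₁ z x₁ := by
    intro b₁ z
    obtain ⟨x₁, -, h⟩ := exists_mem_eq_sup univ univ_nonempty (F b₁ z)
    exact ⟨x₁, h⟩
  choose X hX using hch
  have hgJ : ∀ b₁ z, g b₁ z < 2 ^ (J + l) := by
    intro b₁ z
    rw [hX]
    have : Nonempty R₁ := ⟨0⟩
    calc F b₁ z (X b₁ z) < ∑ _t : R₁, 2 ^ J :=
          sum_lt_sum_of_nonempty univ_nonempty fun t _ => hf _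
      _ = Fintype.card R₁ * 2 ^ J := by rw [sum_const, card_univ, smul_eq_mul]
      _ ≤ 2 ^ l * 2 ^ J := Nat.mul_le_mul_right _ hl
      _ = 2 ^ (J + l) := by rw [pow_add]; ring
  have hJl : J + l ≤ J * (1 + l) := by nlinarith
  -- the first factor
  have e1 : ∀ z, ∑ b₁, g b₁ z ^ (d + 1) ≤ C₁ * J ^ D₁ * (Fintype.card R₁ ^ d *
      ∑ w : R₁ × (Fin d → R₁), f ((w.1, z.1), fun a => (w.2 a, z.2 a)) ^ (d + 1)) := by
    intro z
    have := h₁ J hJ (fun w => f ((w.1, z.1), fun a => (w.2 a, z.2 a))) (fun w => hf _)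
      (fun b₁ => X b₁ z)
    refine le_trans (le_of_eq ?_) this
    refine sum_congr rfl fun b₁ _ => ?_
    rw [hX]
    rfl
  -- the second factor
  have e2 : ∀ b₁ : Fin d → R₁, ∑ b₂ : Fin d → R₂,
      (∑ t₂, g b₁ (t₂, (fun a => (x (fun a => (b₁ a, b₂ a)) a).2) + t₂ • b₂)) ^ (d + 1) ≤
      C₂ * (J * (1 + l)) ^ D₂ * (Fintype.card R₂ ^ d * ∑ z, g b₁ z ^ (d + 1)) := by
    intro b₁
    refine (h₂ (J + l) (by omega) (g b₁) (hgJ b₁)
      (fun b₂ a => (x (fun a => (b₁ a, b₂ a)) a).2)).trans ?_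
    exact Nat.mul_le_mul_right _ (Nat.mul_le_mul_left _ (Nat.pow_le_pow_left hJl _))
  -- the sum over a line
  have e3 : ∀ b₁ b₂, ∑ t : R₁ × R₂, f (t, x (fun a => (b₁ a, b₂ a)) +
      t • (fun a => (b₁ a, b₂ a))) ≤
      ∑ t₂, g b₁ (t₂, (fun a => (x (fun a => (b₁ a, b₂ a)) a).2) + t₂ • b₂) := by
    intro b₁ b₂
    rw [Fintype.sum_prod_type, sum_comm]
    refine sum_le_sum fun t₂ _ => ?_
    refine le_trans (le_of_eq ?_) (le_sup (f := F b₁ _)
      (mem_univ (fun a => (x (fun a => (b₁ a, b₂ a)) a).1)))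
    refine sum_congr rfl fun t₁ _ => ?_
    congr 1
  have e4 : ∑ b, (∑ t, f (t, x b + t • b)) ^ (d + 1) =
      ∑ b₁ : Fin d → R₁, ∑ b₂ : Fin d → R₂,
        (∑ t, f (t, x (fun a => (b₁ a, b₂ a)) + t • (fun a => (b₁ a, b₂ a)))) ^ (d + 1) := by
    rw [← Fintype.sum_prod_type']
    exact Fintype.sum_equiv (Equiv.arrowProdEquivProdArrow (Fin d) (fun _ => R₁) (fun _ => R₂))
      _ _ (fun b => rfl)
  have e5 : ∑ z : (R₁ × R₂) × (Fin d → R₁ × R₂), f z ^ (d + 1) =
      ∑ z : R₂ × (Fin d → R₂), ∑ w : R₁ × (Fin d → R₁),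
        f ((w.1, z.1), fun a => (w.2 a, z.2 a)) ^ (d + 1) := by
    rw [← Fintype.sum_prod_type']
    refine Fintype.sum_equiv
      (⟨fun z => ((z.1.2, fun a => (z.2 a).2), (z.1.1, fun a => (z.2 a).1)),
        fun z => ((z.2.1, z.1.1), fun a => (z.2.2 a, z.1.2 a)), fun z => rfl, fun z => rfl⟩ :
        ((R₁ × R₂) × (Fin d → R₁ × R₂)) ≃ ((R₂ × (Fin d → R₂)) × (R₁ × (Fin d → R₁)))) _ _
      (fun z => rfl)
  rw [e4, e5, Fintype.card_prod]
  calc _ ≤ ∑ b₁ : Fin d → R₁, ∑ b₂ : Fin d → R₂,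
      (∑ t₂, g b₁ (t₂, (fun a => (x (fun a => (b₁ a, b₂ a)) a).2) + t₂ • b₂)) ^ (d + 1) :=
        sum_le_sum fun b₁ _ => sum_le_sum fun b₂ _ => Nat.pow_le_pow_left (e3 b₁ b₂) _
    _ ≤ ∑ b₁ : Fin d → R₁, C₂ * (J * (1 + l)) ^ D₂ *
          (Fintype.card R₂ ^ d * ∑ z, g b₁ z ^ (d + 1)) := sum_le_sum fun b₁ _ => e2 b₁
    _ = C₂ * (J * (1 + l)) ^ D₂ * (Fintype.card R₂ ^ d * ∑ z, ∑ b₁, g b₁ z ^ (d + 1)) := by
        rw [← mul_sum, ← mul_sum, sum_comm]
    _ ≤ C₂ * (J * (1 + l)) ^ D₂ * (Fintype.card R₂ ^ d * ∑ z : R₂ × (Fin d → R₂),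
          C₁ * J ^ D₁ * (Fintype.card R₁ ^ d * ∑ w : R₁ × (Fin d → R₁),
            f ((w.1, z.1), fun a => (w.2 a, z.2 a)) ^ (d + 1))) :=
        Nat.mul_le_mul_left _ (Nat.mul_le_mul_left _ (sum_le_sum fun z _ => e1 z))
    _ = _ := by
        rw [← mul_sum, ← mul_sum, mul_pow J (1 + l) D₂, pow_add J D₁ D₂, mul_pow _ _ d]
        ring

/-- The maximal estimate is invariant under isomorphisms. -/
theorem Mx.equiv {R R' : Type*} [CommRing R] [Fintype R] [DecidableEq R] [CommRing R']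
    [Fintype R'] [DecidableEq R'] {d C D : ℕ} (e : R ≃+* R') (h : Mx R d C D) : Mx R' d C D := by
  classical
  intro J hJ f hf x
  have h1 := h J hJ (fun z => f (e z.1, fun a => e (z.2 a))) (fun z => hf _)
    (fun b a => e.symm (x (fun a => e (b a)) a))
  rw [Fintype.card_congr e.toEquiv] at h1
  have e1 : ∑ z : R × (Fin d → R), f (e z.1, fun a => e (z.2 a)) ^ (d + 1) =
      ∑ z : R' × (Fin d → R'), f z ^ (d + 1) :=
    Fintype.sum_equiv (Equiv.prodCongr e.toEquiv (Equiv.arrowCongr (Equiv.refl _) e.toEquiv))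
      _ _ (fun z => rfl)
  rw [e1] at h1
  refine le_trans (le_of_eq ?_) h1
  refine (Fintype.sum_equiv (Equiv.arrowCongr (Equiv.refl _) e.toEquiv) _ _ (fun b => ?_)).symm
  congr 1
  refine Fintype.sum_equiv e.toEquiv _ _ fun t => ?_
  congr 1
  refine Prod.ext rfl ?_
  funext a
  simp
  rfl

/-- The maximal estimate for the trivial ring. -/
theorem Mx.subsingleton {R : Type*} [CommRing R] [Fintype R] [DecidableEq R] [Subsingleton R]
    (d : ℕ) : Mx R d 1 0 := by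
  intro J hJ f hf x
  have : Unique R := ⟨⟨0⟩, fun y => Subsingleton.elim _ _⟩
  have h1 : Fintype.card R = 1 := Fintype.card_eq_one_iff.2 ⟨0, fun y => Subsingleton.elim _ _⟩
  rw [h1, Fintype.sum_subsingleton _ (0 : Fin d → R), Fintype.sum_subsingleton _ (0 : R),
    Fintype.sum_subsingleton _ (0, 0)]
  simp only [pow_zero, one_pow, one_mul]
  exact le_of_eq (by congr 2; exact Subsingleton.elim _ _)

/-- **The maximal estimate over `ℤ/M^m`**: the loss is polynomial in `m`. -/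
theorem mx_pow (d M : ℕ) (hM : M ≠ 0) : ∃ K E D : ℕ, ∀ m : ℕ, 1 ≤ m → ∀ _ : NeZero (M ^ m),
    Mx (ZMod (M ^ m)) d (K * m ^ E) D := by
  induction M using Nat.recOnPrimePow with
  | zero => exact absurd rfl hM
  | one =>
    refine ⟨1, 0, 0, fun m hm _ => ?_⟩
    have : Subsingleton (ZMod (1 ^ m)) := by rw [one_pow]; infer_instance
    rw [pow_zero, mul_one]
    exact Mx.subsingleton d
  | prime_pow_mul a p n hp hpa hn ih =>
    have ha : a ≠ 0 := by rintro rfl; exact hpa (dvd_zero p)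
    obtain ⟨K, E, D, hKD⟩ := ih ha
    refine ⟨2 * (2 * (d + 1) * n) ^ d * K * (1 + n * p) ^ D, d + E + D, d + 1 + D,
      fun m hm _ => ?_⟩
    have : Fact p.Prime := ⟨hp⟩
    have hn1 : 1 ≤ n * m := Nat.mul_pos hn hm
    have : NeZero (a ^ m) := ⟨pow_ne_zero _ ha⟩
    have : NeZero (p ^ (n * m)) := ⟨pow_ne_zero _ hp.ne_zero⟩
    have h1 := mx_prime_pow p (n * m) d hn1
    have h2 := (hKD m hm inferInstance)
    have hl : Fintype.card (ZMod (p ^ (n * m))) ≤ 2 ^ (p * (n * m)) := by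
      rw [ZMod.card, pow_mul 2 p]
      exact Nat.pow_le_pow_left (Nat.lt_two_pow_self).le _
    have h3 := Mx.prod hl h1 h2
    have hcop : Nat.Coprime (p ^ (n * m)) (a ^ m) :=
      Nat.Coprime.pow _ _ ((Nat.Prime.coprime_iff_not_dvd hp).2 hpa)
    have e := (ZMod.chineseRemainder hcop).symm
    have heq : p ^ (n * m) * a ^ m = (p ^ n * a) ^ m := by rw [mul_pow, ← pow_mul]
    have : NeZero (p ^ (n * m) * a ^ m) := ⟨by rw [heq]; exact NeZero.ne _⟩
    have h4 := Mx.equiv e h3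
    have h5 := Mx.equiv (ZMod.ringEquivCongr heq) h4
    intro J hJ f hf x
    refine (h5 J hJ f hf x).trans (Nat.mul_le_mul_right _ (Nat.mul_le_mul_right _ ?_))
    have h6 : 1 + p * (n * m) ≤ (1 + n * p) * m := by nlinarith
    calc 2 * (2 * (d + 1) * (n * m)) ^ d * (K * m ^ E) * (1 + p * (n * m)) ^ D
        ≤ 2 * (2 * (d + 1) * (n * m)) ^ d * (K * m ^ E) * ((1 + n * p) * m) ^ D :=
          Nat.mul_le_mul_left _ (Nat.pow_le_pow_left h6 _)
      _ = _ := by
          rw [show 2 * (d + 1) * (n * m) = (2 * (d + 1) * n) * m by ring, mul_pow _ m d,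
            mul_pow _ m D, pow_add, pow_add]
          ring

end Pool.Agent.N269.MX
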