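import Pool.Agent.N269.MX.PWeight
import Pool.Agent.N269.AK.Kak

set_option autoImplicit false

/-!
# Parts of lines in `(ℤ/p^k)^(d+1)`: the restricted maximal estimate
-/

open Finset

namespace Pool.Agent.N269.MX
open Pool.Agent.N269.AK

/-- The weights have a large sum. -/
theorem wt_sum' {q k d τ : ℕ} [NeZero q] (hq2 : 2 ≤ q) (hk : 1 ≤ k) (hτ : τ ≤ q) :
    τ ^ (d + 1) ≤
      2 * (2 * (d + 1) * k) ^ d * ∑ b : Fin d → ZMod q, (τ - k * ∑ a, (b a).val) := by
  classical
  set v := 2 * (d + 1) * k with hv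
  have hv2 : 2 ≤ v := by rw [hv]; nlinarith
  set u := τ / v + 1 with hu
  have huq : u ≤ q := by
    have : τ / v ≤ τ / 2 := Nat.div_le_div_left hv2 (by norm_num)
    omega
  have hvu : τ ≤ v * u := by
    have := Nat.div_add_mod τ v
    have := Nat.mod_lt τ (show 0 < v by omega)
    rw [hu]; nlinarith
  set box : Finset (Fin d → ZMod q) :=
    Fintype.piFinset (fun _ => univ.filter fun a : ZMod q => a.val < u) with hbox
  have hfc : (univ.filter fun a : ZMod q => a.val < u).card = u := by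
    have h1 : (univ.filter fun a : ZMod q => a.val < u) =
        (range u).image (fun n : ℕ => (n : ZMod q)) := by
      ext a
      simp only [mem_filter, mem_univ, true_and, mem_image, mem_range]
      constructor
      · intro h; exact ⟨a.val, h, ZMod.natCast_zmod_val a⟩
      · rintro ⟨n, hn, rfl⟩
        rw [ZMod.val_natCast]
        exact (Nat.mod_le _ _).trans_lt hn
    rw [h1, card_image_of_injOn, card_range]
    intro a ha b hb hab
    simp only [coe_range, Set.mem_Iio] at ha hb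
    have h2 := congrArg ZMod.val hab
    simp only [ZMod.val_natCast] at h2
    rwa [Nat.mod_eq_of_lt (by omega), Nat.mod_eq_of_lt (by omega)] at h2
  have hboxc : box.card = u ^ d := by
    rw [hbox, Fintype.card_piFinset]
    simp [hfc]
  have hw : ∀ b ∈ box, τ ≤ 2 * (τ - k * ∑ a, (b a).val) := by
    intro b hb
    rw [hbox, Fintype.mem_piFinset] at hb
    have h1 : ∑ a, (b a).val ≤ d * (τ / v) := by
      calc ∑ a, (b a).val ≤ ∑ _a : Fin d, (τ / v) := by
            refine sum_le_sum fun a _ => ?_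
            have := hb a
            rw [mem_filter] at this
            omega
        _ = d * (τ / v) := by simp
    have h2 : 2 * (k * ∑ a, (b a).val) ≤ τ := by
      calc 2 * (k * ∑ a, (b a).val) ≤ 2 * (k * (d * (τ / v))) := by gcongr
        _ = (2 * d * k) * (τ / v) := by ring
        _ ≤ v * (τ / v) := Nat.mul_le_mul_right _ (by rw [hv]; nlinarith)
        _ ≤ τ := Nat.mul_div_le _ _
    omega
  have h3 : τ * u ^ d ≤ 2 * ∑ b : Fin d → ZMod q, (τ - k * ∑ a, (b a).val) := by
    calc τ * u ^ d = ∑ _b ∈ box, τ := by rw [sum_const, hboxc, smul_eq_mul, mul_comm]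
      _ ≤ ∑ b ∈ box, 2 * (τ - k * ∑ a, (b a).val) := sum_le_sum hw
      _ = 2 * ∑ b ∈ box, (τ - k * ∑ a, (b a).val) := by rw [mul_sum]
      _ ≤ 2 * ∑ b : Fin d → ZMod q, (τ - k * ∑ a, (b a).val) :=
          Nat.mul_le_mul_left _ (sum_le_sum_of_subset (subset_univ _))
  calc τ ^ (d + 1) = τ * τ ^ d := by rw [pow_succ]; ring
    _ ≤ τ * (v * u) ^ d := by gcongr
    _ = v ^ d * (τ * u ^ d) := by rw [mul_pow]; ring
    _ ≤ v ^ d * (2 * ∑ b : Fin d → ZMod q, (τ - k * ∑ a, (b a).val)) := Nat.mul_le_mul_left _ h3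
    _ = _ := by ring

/-- **Restricted maximal estimate over `ℤ/p^k`.** -/
theorem pow_card (p k d : ℕ) [hp : Fact p.Prime] (hk : 1 ≤ k)
    (x : (Fin d → ZMod (p ^ k)) → (Fin d → ZMod (p ^ k)))
    (T : (Fin d → ZMod (p ^ k)) → Finset (ZMod (p ^ k)))
    (S : Finset (ZMod (p ^ k) × (Fin d → ZMod (p ^ k))))
    (hS : ∀ b, ∀ t ∈ T b, (t, x b + t • b) ∈ S) :
    ∑ b, (T b).card ^ (d + 1) ≤
      2 * (2 * (d + 1) * k) ^ d * ((p ^ k) ^ d * S.card) := by
  classical
  have hq2 : 2 ≤ p ^ k := by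
    calc 2 ≤ p := hp.out.two_le
      _ = p ^ 1 := (pow_one p).symm
      _ ≤ p ^ k := Nat.pow_le_pow_right hp.out.pos hk
  have : NeZero (p ^ k) := ⟨by omega⟩
  have h1 : ∀ c : Fin d → ZMod (p ^ k),
      ∑ b, ((T b).card - k * ∑ a, ((b + c) a).val) ≤ S.card := by
    intro c
    have h2 := weighted hk univ (fun b => x (b - c)) (fun b => T (b - c))
      (S.image fun z => (z.1, z.2 + z.1 • c)) (fun b _ t ht => by
        rw [mem_image]
        refine ⟨_, hS (b - c) t ht, ?_⟩
        refine Prod.ext rfl ?_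
        simp only
        rw [smul_sub, add_assoc, sub_add_cancel])
    refine le_trans (le_of_eq ?_) (h2.trans card_image_le)
    refine Fintype.sum_equiv (Equiv.addRight c) _ _ fun b => ?_
    simp
  have hT : ∀ b, (T b).card ≤ p ^ k := fun b => by
    refine (card_le_univ _).trans ?_
    rw [ZMod.card]
  calc ∑ b, (T b).card ^ (d + 1)
      ≤ ∑ b, 2 * (2 * (d + 1) * k) ^ d *
          ∑ c : Fin d → ZMod (p ^ k), ((T b).card - k * ∑ a, (c a).val) :=
        sum_le_sum fun b _ => wt_sum' hq2 hk (hT b)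
    _ = 2 * (2 * (d + 1) * k) ^ d *
          ∑ b, ∑ c : Fin d → ZMod (p ^ k), ((T b).card - k * ∑ a, ((b + c) a).val) := by
        rw [← mul_sum]
        congr 1
        refine sum_congr rfl fun b _ => ?_
        exact (Fintype.sum_equiv (Equiv.addLeft b) _ _ (fun c => rfl)).symm
    _ = 2 * (2 * (d + 1) * k) ^ d *
          ∑ c : Fin d → ZMod (p ^ k), ∑ b, ((T b).card - k * ∑ a, ((b + c) a).val) := by
        rw [sum_comm]
    _ ≤ 2 * (2 * (d + 1) * k) ^ d * ∑ _c : Fin d → ZMod (p ^ k), S.card :=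
        Nat.mul_le_mul_left _ (sum_le_sum fun c _ => h1 c)
    _ = _ := by
        rw [sum_const, card_univ, Fintype.card_fun, ZMod.card, Fintype.card_fin, smul_eq_mul]

end Pool.Agent.N269.MX
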