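import Pool.Agent.N269.AK.Weight

set_option autoImplicit false

/-!
# Parts of lines in `(ℤ/p^k)^(d+1)`: the weighted inequality

The set contains, for every `b ∈ B`, the points of the line in the direction `(1, b)` at the heights
`t ∈ T b`.
-/

open Polynomial Finset

namespace Pool.Agent.N269.MX
open Pool.Agent.N269.AK

section
variable {p : ℕ} [hp : Fact p.Prime]

/-- **The triangular argument**, orders of vanishing `n b`. -/
theorem triangular {d k : ℕ} (I : Finset ((Fin d → ℕ) × ℕ)) (n : (Fin d → ℕ) → ℕ)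
    (hn : ∀ b, n b ≤ p ^ k)
    (hI : ∀ x ∈ I, x.2 + k * ∑ a, x.1 a < n x.1) (hk : 1 ≤ k) (c : (Fin d → ℕ) × ℕ → ZMod p)
    (h : ∀ x ∈ I, (X - 1 : (ZMod p)[X]) ^ (n x.1) ∣
      ∑ y ∈ I, C (c y) * bas y.1 y.2 X (fun a => X ^ (x.1 a))) :
    ∀ x ∈ I, c x = 0 := by
  classical
  by_contra hcon
  push Not at hcon
  obtain ⟨x₀, hx₀, hcx₀⟩ := hcon
  obtain ⟨x, hx, hmin⟩ := exists_min_image (I.filter fun x => c x ≠ 0) (fun x => ∑ a, x.1 a)
    ⟨x₀, mem_filter.2 ⟨hx₀, hcx₀⟩⟩
  rw [mem_filter] at hx
  obtain ⟨hxI, hcx⟩ := hx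
  set b := x.1 with hb
  have hxI' : x.2 + k * ∑ a, b a < n b := hI x hxI
  have hbk : ∀ a, b a < p ^ k := by
    intro a
    have h2 : b a ≤ ∑ a, x.1 a := single_le_sum (f := fun a => x.1 a)
      (fun _ _ => Nat.zero_le _) (mem_univ a)
    have := hn b
    nlinarith
  -- only the indices with the same `b` contribute
  have h1 : ∑ y ∈ I, C (c y) * bas y.1 y.2 (X : (ZMod p)[X]) (fun a => X ^ (b a)) =
      (∑ y ∈ I.filter (fun y => y.1 = b), C (c y) * (X - 1) ^ y.2) *
        ∏ a, ∏ l ∈ range (b a), (X ^ (b a) - X ^ l) := by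
    rw [← sum_filter_add_sum_filter_not I (fun y => y.1 = b), sum_mul]
    have h2 : ∑ y ∈ I.filter (fun y => ¬ y.1 = b),
        C (c y) * bas y.1 y.2 (X : (ZMod p)[X]) (fun a => X ^ (b a)) = 0 := by
      refine sum_eq_zero fun y hy => ?_
      rw [mem_filter] at hy
      by_cases hcy : c y = 0
      · rw [hcy, C_0, zero_mul]
      · have h3 := hmin y (mem_filter.2 ⟨hy.1, hcy⟩)
        have h4 : ∃ a, b a < y.1 a := by
          by_contra h5
          push Not at h5
          have h6 : ∑ a, y.1 a = ∑ a, b a := le_antisymm (sum_le_sum fun a _ => h5 a) h3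
          have h7 := (sum_eq_sum_iff_of_le fun a _ => h5 a).1 h6
          exact hy.2 (funext fun a => h7 a (mem_univ a))
        rw [bas_zero _ _ _ _ h4, mul_zero]
    rw [h2, add_zero]
    refine sum_congr rfl fun y hy => ?_
    rw [mem_filter] at hy
    unfold bas
    rw [hy.2]
    ring
  have h2 := h x hxI
  rw [← hb, h1] at h2
  set g : (ZMod p)[X] := ∑ y ∈ I.filter (fun y => y.1 = b), C (c y) * (X - 1) ^ y.2 with hg
  set D : (ZMod p)[X] := ∏ a, ∏ l ∈ range (b a), (X ^ (b a) - X ^ l) with hD
  -- `g` is not zero: its expansion in powers of `X - 1`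
  have hg1 : g.comp (X + 1) = ∑ y ∈ I.filter (fun y => y.1 = b), C (c y) * X ^ y.2 := by
    rw [hg, ← coe_compRingHom_apply, map_sum]
    refine sum_congr rfl fun y _ => ?_
    simp
  have hg2 : (g.comp (X + 1)).coeff x.2 = c x := by
    rw [hg1, finsetSum_coeff]
    have hxf : x ∈ I.filter (fun y => y.1 = b) := by
      rw [mem_filter]
      exact ⟨hxI, hb.symm⟩
    rw [sum_eq_single_of_mem x hxf]
    · simp
    · intro y hy hyx
      rw [mem_filter] at hy
      have : y.2 ≠ x.2 := fun h => hyx (Prod.ext (hy.2.trans hb) h)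
      simp [coeff_X_pow, this.symm]
  have hg0 : g ≠ 0 := by
    intro h0
    rw [h0, zero_comp, coeff_zero] at hg2
    exact hcx hg2.symm
  have hgdeg : g.natDegree + k * ∑ a, b a < n b := by
    have h3 : g.natDegree < n b - k * ∑ a, b a := by
      rw [Nat.lt_iff_le_pred (by omega)]
      refine natDegree_sum_le_of_forall_le _ _ fun y hy => ?_
      rw [mem_filter] at hy
      refine (natDegree_C_mul_le _ _).trans ?_
      refine (natDegree_pow_le).trans ?_
      have h4 : (X - 1 : (ZMod p)[X]).natDegree = 1 := by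
        have := natDegree_X_sub_C (1 : ZMod p)
        simpa using this
      rw [h4, mul_one]
      have h5 := hI y hy.1
      rw [hy.2] at h5
      show y.2 ≤ n b - k * ∑ a, b a - 1
      omega
    omega
  have hD0 : D ≠ 0 := by
    rw [hD, prod_ne_zero_iff]
    exact fun a _ => diag_ne (b a)
  have hDrm : D.rootMultiplicity 1 ≤ k * ∑ a, b a := by
    rw [hD, rm_prod _ _ (fun a _ => diag_ne (b a)), mul_sum]
    exact sum_le_sum fun a _ => diag_rm (hbk a)
  have hgrm : g.rootMultiplicity 1 ≤ g.natDegree := by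
    rw [← count_roots]
    exact (Multiset.count_le_card _ _).trans (card_roots' g)
  have h3 : n b ≤ (g * D).rootMultiplicity 1 := by
    rw [le_rootMultiplicity_iff (mul_ne_zero hg0 hD0)]
    simpa using h2
  rw [rm_mul hg0 hD0] at h3
  omega

end

theorem dvd_of_roots {O : Type} [CommRing O] [IsDomain O] {ζ : O} {q : ℕ} [NeZero q]
    (h : IsPrimitiveRoot ζ q) (f : O[X]) (T : Finset (ZMod q))
    (hf : ∀ t ∈ T, f.eval (ζ ^ t.val) = 0) : (∏ t ∈ T, (X - C (ζ ^ t.val)) : O[X]) ∣ f := by
  classical
  by_cases hf0 : f = 0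
  · rw [hf0]; exact dvd_zero _
  have hinj : Set.InjOn (fun t : ZMod q => ζ ^ t.val) T := by
    intro t _ t' _ htt
    exact ZMod.val_injective q (h.pow_inj (ZMod.val_lt t) (ZMod.val_lt t') htt)
  have h1 : (∏ t ∈ T, (X - C (ζ ^ t.val)) : O[X]) =
      ((T.image fun t => ζ ^ t.val).val.map fun a => X - C a).prod := by
    rw [← prod_image (f := fun a : O => (X - C a : O[X])) hinj]
    rfl
  rw [h1, Multiset.prod_X_sub_C_dvd_iff_le_roots hf0, Multiset.le_iff_subset (Finset.nodup _)]
  intro a ha
  rw [Finset.mem_val, mem_image] at ha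
  obtain ⟨t, ht, rfl⟩ := ha
  rw [mem_roots hf0, IsRoot.def]
  exact hf t ht

/-- **Parts of lines over `ℤ/p^k`.** -/
theorem weighted {p k d : ℕ} [hp : Fact p.Prime] (hk : 1 ≤ k)
    (B : Finset (Fin d → ZMod (p ^ k))) (x : (Fin d → ZMod (p ^ k)) → (Fin d → ZMod (p ^ k)))
    (T : (Fin d → ZMod (p ^ k)) → Finset (ZMod (p ^ k)))
    (S : Finset (ZMod (p ^ k) × (Fin d → ZMod (p ^ k))))
    (hS : ∀ b ∈ B, ∀ t ∈ T b, (t, x b + t • b) ∈ S) :
    ∑ b ∈ B, ((T b).card - k * ∑ a, (b a).val) ≤ S.card := by
  classical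
  have hq : 0 < p ^ k := pow_pos hp.out.pos k
  obtain ⟨O, _, _, ζ, φ, hζ, hφ, hker, hfin⟩ := exists_ring p k hk
  set wt : (Fin d → ZMod (p ^ k)) → ℕ := fun b => (T b).card - k * ∑ a, (b a).val with hwt
  set I : Finset ((Fin d → ℕ) × ℕ) :=
    (B.sigma fun b => range (wt b)).image (fun z => (fun a => (z.1 a).val, z.2)) with hI
  have hval : ∀ b b' : Fin d → ZMod (p ^ k), (fun a => (b a).val) = (fun a => (b' a).val) →
      b = b' := fun b b' h => funext fun a => ZMod.val_injective _ (congrFun h a)
  have hIcard : I.card = ∑ b ∈ B, wt b := by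
    rw [hI, card_image_of_injective, card_sigma]
    · simp
    · rintro ⟨b, e⟩ ⟨b', e'⟩ h
      simp only [Prod.mk.injEq] at h
      obtain ⟨h1, h2⟩ := h
      have h3 : b = b' := hval b b' h1
      subst h3 h2
      rfl
  -- the number of heights as a function of the natural number representatives
  set n : (Fin d → ℕ) → ℕ := fun β => (T (fun a => (β a : ZMod (p ^ k)))).card with hn
  have hnb : ∀ b : Fin d → ZMod (p ^ k), n (fun a => (b a).val) = (T b).card := by
    intro b
    simp only [hn, ZMod.natCast_zmod_val]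
  have hnle : ∀ β, n β ≤ p ^ k := by
    intro β
    refine (card_le_univ _).trans ?_
    rw [ZMod.card]
  have hImem : ∀ y ∈ I, ∃ b ∈ B, y.1 = (fun a => (b a).val) ∧
      y.2 + k * ∑ a, (b a).val < (T b).card := by
    intro y hy
    rw [hI, mem_image] at hy
    obtain ⟨⟨b, e⟩, hz, rfl⟩ := hy
    rw [mem_sigma, mem_range] at hz
    refine ⟨b, hz.1, rfl, ?_⟩
    have := hz.2
    simp only [hwt] at this ⊢
    omega
  have hI2 : ∀ y ∈ I, y.2 + k * ∑ a, y.1 a < n y.1 := by
    intro y hy
    obtain ⟨b, _, h1, h2⟩ := hImem y hy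
    rw [h1, hnb]; exact h2
  have hgoal : I.card ≤ S.card := by
    let A : Matrix S I O := Matrix.of fun s i =>
      bas i.1.1 i.1.2 (ζ ^ s.1.1.val) (fun a => ζ ^ (s.1.2 a).val)
    have key : ∀ c : I → O, A.mulVec c = 0 → ∀ i, (ζ - 1) ∣ c i := by
      intro c hc i
      apply hker
      let c' : (Fin d → ℕ) × ℕ → O := fun y => if h : y ∈ I then c ⟨y, h⟩ else 0
      have hc' : ∀ i : I, c' i.1 = c i := fun i => by simp [c']
      have h1 := triangular I n hnle hI2 hk (fun y => φ (c' y)) ?_ i.1 i.2
      · simpa [hc'] using h1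
      · intro y hy
        obtain ⟨b, hb, hyb, -⟩ := hImem y hy
        set f : O[X] := ∑ z ∈ I, C (c' z) *
          bas z.1 z.2 X (fun a => C (ζ ^ (x b a).val) * X ^ (b a).val) with hf
        have hroots : ∀ t ∈ T b, f.eval (ζ ^ t.val) = 0 := by
          intro t ht
          have h2 := congrFun hc ⟨_, hS b hb t ht⟩
          rw [Matrix.mulVec, dotProduct, Pi.zero_apply] at h2
          rw [← h2, hf, eval_finsetSum, ← sum_coe_sort I]
          refine sum_congr rfl fun z _ => ?_
          rw [eval_mul, eval_C, hc', mul_comm]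
          congr 1
          rw [← coe_evalRingHom, map_bas]
          simp only [A, Matrix.of_apply, coe_evalRingHom, eval_X, eval_mul, eval_C, eval_pow,
            Pi.add_apply, Pi.smul_apply, smul_eq_mul]
          congr 1
          funext a
          rw [zp_add hζ, zp_mul hζ]
        have h3 := dvd_of_roots hζ f (T b) hroots
        have h4 := map_dvd (mapRingHom φ) h3
        have h5 : mapRingHom φ (∏ t ∈ T b, (X - C (ζ ^ t.val))) = (X - 1) ^ (T b).card := by
          rw [map_prod, ← prod_const]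
          refine prod_congr rfl fun t _ => ?_
          simp [hφ]
        rw [h5] at h4
        have h6 : mapRingHom φ f = ∑ z ∈ I, C (φ (c' z)) *
            bas z.1 z.2 X (fun a => X ^ (y.1 a)) := by
          rw [hf, map_sum]
          refine sum_congr rfl fun z _ => ?_
          rw [map_mul, map_bas]
          simp only [coe_mapRingHom, map_C, map_X, Polynomial.map_mul, Polynomial.map_pow, map_pow,
            hφ, one_pow, map_one, one_mul]
          rw [hyb]
        rw [h6] at h4
        rw [hyb, hnb]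
        rw [hyb] at h4
        exact h4
    have key2 : ∀ n : ℕ, ∀ c : I → O, A.mulVec c = 0 → ∀ i, (ζ - 1) ^ n ∣ c i := by
      intro n
      induction n with
      | zero => intro c _ i; simp
      | succ n ih =>
        intro c hc
        have h1 := key c hc
        choose c' hc' using h1
        have h2 : c = (ζ - 1) • c' := by funext i; simp [hc' i]
        have hne : ζ - 1 ≠ 0 := by
          intro h0
          rw [sub_eq_zero] at h0
          have h3 : IsPrimitiveRoot ζ 1 := by rw [h0]; exact IsPrimitiveRoot.one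
          have h4 := h3.unique hζ
          have h5 : 1 < p ^ k := Nat.one_lt_pow (by omega) hp.out.one_lt
          omega
        have h3 : A.mulVec c' = 0 := by
          rw [h2, Matrix.mulVec_smul] at hc
          exact (smul_eq_zero.1 hc).resolve_left hne
        intro i
        rw [hc' i, pow_succ']
        exact mul_dvd_mul_left _ (ih c' h3 i)
    have hinj : Function.Injective A.mulVecLin := by
      rw [← LinearMap.ker_eq_bot, LinearMap.ker_eq_bot']
      intro c hc
      rw [Matrix.mulVecLin_apply] at hc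
      funext i
      by_contra hne
      obtain ⟨n, hn⟩ := hfin (c i) hne
      exact hn (key2 n c hc i)
    have h1 := card_le_of_injective O A.mulVecLin hinj
    simpa using h1
  rw [hIcard] at hgoal
  exact hgoal

end Pool.Agent.N269.MX
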