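import Pool.Agent.N269.MX.Tree
import Pool.Agent.N269.MX.An

set_option autoImplicit false

/-!
# Integer heights: the number of points, different types of blocks on different levels
-/

open Finset Filter Topology MeasureTheory
open scoped ENNReal

namespace Pool.Agent.N269.MX
open Pool.Agent.N269.AK

section
variable {Q ι : Type} [Fintype ι] [Nonempty ι] {d M : ℕ}

/-- **The exact step**, with types which depend on the level. -/
theorem exactL_step {θ : ℝ} (hθ : 0 ≤ θ) (hM : 2 ≤ M) (δ : Q → ι → Q) (α : Q → ι → Fin d → ℤ)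
    (dig : ι → Fin d → ℤ) (m n : ℕ) {T : Finset ((Fin m → ι) → Fin d → ℤ)} (s : Q)
    (hT : ∀ w : Fin n → ι, vA M δ α (sS δ s n w) m ∈ T) {r p t₀ : ℤ} (hr : (M:ℤ) ^ m ∣ r - 1)
    (hp : (M:ℤ) ^ m ∣ p - t₀) :
    pw θ (univ : Finset (Fin (n + m) → ι)) (vZ M δ α dig r p s (n + m)) ≤
      RT θ M dig m T (t₀ : ZMod (M ^ m)) *
        pw θ (univ : Finset (Fin n → ι)) (vZ M δ α dig r p s n) := by
  classical
  have hM0 : (M:ℤ) ≠ 0 := by positivity
  have key : ∀ w : Fin (n + m) → ι, ∀ a, vZ M δ α dig r p s (n + m) w a =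
      (M:ℤ) ^ m * vZ M δ α dig r p s n (wl n m w) a +
        vZ M δ α dig r p (sS δ s n (wl n m w)) m (wr n m w) a := by
    intro w a
    unfold vZ
    rw [vA_add, vD_add]
    ring
  have hres : ∀ w : Fin (n + m) → ι, ∀ a, ((vZ M δ α dig r p s (n + m) w a : ℤ) : ZMod (M ^ m)) =
      resT M dig m (t₀ : ZMod (M ^ m)) (vA M δ α (sS δ s n (wl n m w)) m, wr n m w) a := by
    intro w a
    rw [key]
    unfold resT vZ
    have h1 : ((M:ℤ) ^ m : ℤ) = ((M ^ m : ℕ) : ℤ) := by push_cast; rfl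
    have h2 : ((r : ℤ) : ZMod (M ^ m)) = 1 := by
      rw [← sub_eq_zero, ← Int.cast_one, ← Int.cast_sub, ZMod.intCast_zmod_eq_zero_iff_dvd, ← h1]
      exact hr
    have h3 : ((p : ℤ) : ZMod (M ^ m)) = ((t₀ : ℤ) : ZMod (M ^ m)) := by
      rw [← sub_eq_zero, ← Int.cast_sub, ZMod.intCast_zmod_eq_zero_iff_dvd, ← h1]
      exact hp
    have h4 : (((M:ℤ) ^ m : ℤ) : ZMod (M ^ m)) = 0 := by
      rw [ZMod.intCast_zmod_eq_zero_iff_dvd, ← h1]
    rw [Int.cast_add, Int.cast_mul, h4, zero_mul, zero_add, Int.cast_add, Int.cast_mul,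
      Int.cast_mul, h2, h3, one_mul]
  refine (pw_fib hθ (fun w => (vA M δ α (sS δ s n (wl n m w)) m, wr n m w)) (T ×ˢ univ)
    (fun w _ => mem_product.2 ⟨hT _, mem_univ _⟩)
    (fun z => ((fl (T ×ˢ (univ : Finset (Fin m → ι))) fun z' =>
      resT M dig m (t₀ : ZMod (M ^ m)) z' = resT M dig m (t₀ : ZMod (M ^ m)) z).card : ℝ))
    (fun w _ => ?_)).trans ?_
  · have h1 : (fl (T ×ˢ (univ : Finset (Fin m → ι))) fun u =>
        ∃ w' ∈ (univ : Finset (Fin (n + m) → ι)),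
          (vA M δ α (sS δ s n (wl n m w')) m, wr n m w') = u ∧
          vZ M δ α dig r p s (n + m) w' = vZ M δ α dig r p s (n + m) w) ⊆
        (fl (T ×ˢ (univ : Finset (Fin m → ι))) fun z' =>
          resT M dig m (t₀ : ZMod (M ^ m)) z' =
            resT M dig m (t₀ : ZMod (M ^ m)) (vA M δ α (sS δ s n (wl n m w)) m, wr n m w)) := by
      intro z hz
      rw [mem_fl] at hz ⊢
      obtain ⟨hz1, w', -, rfl, hw'⟩ := hz
      refine ⟨hz1, ?_⟩
      funext a
      rw [← hres, ← hres, hw']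
    exact_mod_cast card_le_card h1
  · unfold RT
    rw [pw, sum_mul]
    refine sum_le_sum fun z _ => ?_
    refine mul_le_mul_of_nonneg_left ?_ (Real.rpow_nonneg (Nat.cast_nonneg _) _)
    refine pw_le_of_inj hθ (wl n m) (fun w _ => mem_univ _) ?_ ?_
    · intro w hw w' hw' h
      rw [mem_fl] at hw hw'
      exact w_ext h (by
        have := hw.2.trans hw'.2.symm
        simp only [Prod.mk.injEq] at this
        exact this.2)
    · intro w hw w' hw' h
      rw [mem_fl] at hw hw'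
      funext a
      have h1 := congrFun h a
      rw [key, key] at h1
      have h2 := hw.2.trans hw'.2.symm
      simp only [Prod.mk.injEq] at h2
      have h4 : vZ M δ α dig r p (sS δ s n (wl n m w)) m (wr n m w) a =
          vZ M δ α dig r p (sS δ s n (wl n m w')) m (wr n m w') a := by
        unfold vZ
        rw [h2.1, h2.2]
      rw [h4] at h1
      have h3 : (M:ℤ) ^ m * vZ M δ α dig r p s n (wl n m w') a =
          (M:ℤ) ^ m * vZ M δ α dig r p s n (wl n m w) a := by linarith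
      exact mul_left_cancel₀ (pow_ne_zero _ hM0) h3

/-- Several exact steps. -/
theorem exactL_steps {θ : ℝ} (hθ : 0 ≤ θ) (hM : 2 ≤ M) (δ : Q → ι → Q) (α : Q → ι → Fin d → ℤ)
    (dig : ι → Fin d → ℤ) (m : ℕ) (T : ℕ → Finset ((Fin m → ι) → Fin d → ℤ)) (s : Q)
    (hT : ∀ k, ∀ w : Fin (m * k) → ι, vA M δ α (sS δ s (m * k) w) m ∈ T k)
    {r p t₀ : ℤ} (hr : (M:ℤ) ^ m ∣ r - 1) (hp : (M:ℤ) ^ m ∣ p - t₀) (K : ℕ) :
    pw θ (univ : Finset (Fin (m * K) → ι)) (vZ M δ α dig r p s (m * K)) ≤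
      ∏ k ∈ range K, RT θ M dig m (T k) (t₀ : ZMod (M ^ m)) := by
  classical
  induction K with
  | zero =>
    unfold pw
    simp only [Nat.mul_zero, range_zero, prod_empty]
    rw [Fintype.sum_subsingleton _ (fun i : Fin 0 => i.elim0)]
    have h1 : (fl (univ : Finset (Fin 0 → ι)) fun w' => vZ M δ α dig r p s 0 w' =
        vZ M δ α dig r p s 0 (fun i : Fin 0 => i.elim0)).card ≤ 1 := by
      refine (card_le_univ _).trans ?_
      simp
    calc _ ≤ (1:ℝ) ^ θ := by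
          refine Real.rpow_le_rpow (Nat.cast_nonneg _) ?_ hθ
          exact_mod_cast h1
      _ = 1 := Real.one_rpow _
  | succ K ih =>
    rw [prod_range_succ, mul_comm (∏ k ∈ range K, _)]
    refine (exactL_step hθ hM δ α dig m (m * K) s (hT K) hr hp).trans ?_
    exact mul_le_mul_of_nonneg_left ih (pw_nonneg _ _ _)

theorem RT_pos {θ : ℝ} (hθ : 0 ≤ θ) (dig : ι → Fin d → ℤ) (m : ℕ)
    {T : Finset ((Fin m → ι) → Fin d → ℤ)} (t₀ : ZMod (M ^ m)) (h : T.Nonempty) :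
    0 < RT θ M dig m T t₀ := by
  unfold RT
  refine lt_of_lt_of_le ?_ (card_le_pw hθ _ _)
  have h1 : 0 < (T ×ˢ (univ : Finset (Fin m → ι))).card := card_pos.2 (h.product univ_nonempty)
  exact_mod_cast h1

end

/-- Many words have many values. -/
theorem card_pow_le {α β : Type*} [DecidableEq β] {θ : ℝ} (hθ : 0 ≤ θ) (Ω : Finset α) (g : α → β)
    (W : Finset α) (hW : W ⊆ Ω) :
    (W.card : ℝ) ^ (1 + θ) ≤ ((W.image g).card : ℝ) ^ θ * pw θ Ω g := by
  classical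
  have hθ1 : (1:ℝ) ≤ 1 + θ := by linarith
  rw [pw_eq hθ (X := Ω.image g) fun w hw => mem_image_of_mem _ hw]
  set f : β → ℝ := fun x => ((fl W fun w => g w = x).card : ℝ) with hf
  have h2 : (W.card : ℝ) = ∑ x ∈ W.image g, f x := by
    rw [hf]
    rw [card_eq_sum_card_fiberwise (f := g) (t := W.image g)]
    · push_cast
      refine sum_congr rfl fun x _ => ?_
      rw [fl_eq]
    · intro w hw
      exact mem_coe.2 (mem_image_of_mem _ (mem_coe.1 hw))
  have hf0 : ∀ x, 0 ≤ f x := fun x => Nat.cast_nonneg _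
  rw [h2]
  calc (∑ x ∈ W.image g, f x) ^ (1 + θ) ≤
        ((W.image g).card : ℝ) ^ (1 + θ - 1) * ∑ x ∈ W.image g, f x ^ (1 + θ) :=
        Real.rpow_sum_le_const_mul_sum_rpow_of_nonneg _ hθ1 (fun x _ => hf0 x)
    _ = ((W.image g).card : ℝ) ^ θ * ∑ x ∈ W.image g, f x ^ (1 + θ) := by
        rw [add_sub_cancel_left]
    _ ≤ _ := by
        refine mul_le_mul_of_nonneg_left ?_ (Real.rpow_nonneg (Nat.cast_nonneg _) _)
        refine (sum_le_sum fun x _ => ?_).trans (sum_le_sum_of_subset_of_nonneg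
          (image_subset_image hW) fun _ _ _ => Real.rpow_nonneg (Nat.cast_nonneg _) _)
        refine Real.rpow_le_rpow (hf0 x) ?_ (by linarith)
        simp only [hf]
        exact_mod_cast card_le_card fun w hw => by
          rw [mem_fl] at hw ⊢
          exact ⟨hW hw.1, hw.2⟩

/-- **Integer heights**: for every number of blocks there is a height with many points, whatever
the size of the outputs. -/
theorem int_height {d b : ℕ} [NeZero b] (hb : 2 ≤ b) (hd : 1 ≤ d) :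
    ∃ (K₀ E : ℕ), ∀ {Q : Type} (δ : Q → (Fin d → Fin b) → Q)
      (α : Q → (Fin d → Fin b) → Fin d → ℤ) (m N : ℕ), 1 ≤ m →
      ∀ (T : ℕ → Finset ((Fin m → Fin d → Fin b) → Fin d → ℤ)) (s : Q),
      (∀ k, ∀ w : Fin (m * k) → Fin d → Fin b, vA b δ α (sS δ s (m * k) w) m ∈ T k) →
      (∀ k, (T k).card ≤ N) → ∀ J : ℕ, ∃ t₀ : ℕ, t₀ < b ^ m ∧
      ∀ W : Finset (Fin (m * J) → Fin d → Fin b),
        (W.card : ℝ) ^ (d + 1) ≤ ((W.image (vZ b δ α (dg d b) 1 t₀ s (m * J))).card : ℝ) *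
          ((N:ℝ) ^ (d + 1) * ((K₀ * m ^ E : ℕ) : ℝ) ^ d * ((b:ℝ) ^ (d * m)) ^ d) ^ J := by
  classical
  have hne : Nonempty (Fin d → Fin b) := ⟨fun _ => ⟨0, by omega⟩⟩
  have hd0 : (0:ℝ) < d := by exact_mod_cast hd
  obtain ⟨K₀, E, D, hKED⟩ := mx_pow d b (by omega)
  refine ⟨2 * K₀ * b ^ D, E + D, ?_⟩
  intro Q δ α m N hm T s hT hN J
  set θ : ℝ := 1 / (d:ℝ) with hθ
  have hθ0 : 0 ≤ θ := by rw [hθ]; positivity
  have hNZ : NeZero (b ^ m) := ⟨pow_ne_zero _ (by omega)⟩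
  have hTne : ∀ k, (T k).Nonempty := fun k => ⟨_, hT k (fun _ => Classical.arbitrary _)⟩
  have hN1 : 1 ≤ N := Nat.succ_le_of_lt ((card_pos.2 (hTne 0)).trans_le (hN 0))
  have hK0 : 0 < K₀ * m ^ E := by
    by_contra hno
    have h0 : K₀ * m ^ E = 0 := by omega
    have h1 := RT_sum (dig := dg d b) hd hb hm (hKED m hm hNZ) dg_inj (T := T 0)
      (c := N) (by exact_mod_cast hN 0)
    rw [h0] at h1
    simp only [Nat.cast_zero, zero_mul, mul_zero] at h1
    have h2 : 0 < ∑ t₀ : ZMod (b ^ m), RT (1 / (d:ℝ)) b (dg d b) m (T 0) t₀ :=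
      sum_pos (fun t _ => RT_pos hθ0 _ m t (hTne 0)) univ_nonempty
    linarith
  set P : ℝ := ((2 * K₀ * b ^ D * m ^ (E + D) : ℕ) : ℝ) with hP
  have hP0 : 0 < P := by
    rw [hP]
    have : 0 < 2 * K₀ * b ^ D * m ^ (E + D) := by
      have h1 : 0 < K₀ := Nat.pos_of_mul_pos_right hK0
      positivity
    exact_mod_cast this
  set X : ℝ := (N:ℝ) ^ (1 + θ) * P * (b:ℝ) ^ (d * m) with hX
  have hN0 : (0:ℝ) < N := by exact_mod_cast hN1
  have hX0 : 0 < X := by
    have : (0:ℝ) < b := by positivity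
    positivity
  obtain ⟨t₀, ht₀⟩ := choose_height (T := ZMod (b ^ m))
    (fun k t₀ => RT θ b (dg d b) m (T k) t₀)
    (fun k t₀ => RT_pos hθ0 _ m t₀ (hTne k)) hX0 (fun k => by
      refine (RT_sum (dig := dg d b) hd hb hm (hKED m hm hNZ) dg_inj
        (c := N) (by exact_mod_cast hN k)).trans (le_of_eq ?_)
      rw [← hθ, ZMod.card, hX, hP, Fintype.card_fun, Fintype.card_fin, Fintype.card_fin]
      push_cast
      rw [← pow_mul, mul_pow (b:ℝ) (m:ℝ) D, pow_add (m:ℝ) E D]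
      ring) J
  refine ⟨t₀.val, ZMod.val_lt t₀, fun W => ?_⟩
  have h1 := exactL_steps (M := b) hθ0 hb δ α (dg d b) m T s hT (r := 1) (p := (t₀.val : ℤ))
    (t₀ := (t₀.val : ℤ)) (by simp) (by simp) J
  rw [Int.cast_natCast, ZMod.natCast_zmod_val] at h1
  have h2 := card_pow_le hθ0 univ (vZ b δ α (dg d b) 1 (t₀.val : ℤ) s (m * J)) W (subset_univ _)
  have h3 : (W.card : ℝ) ^ (1 + θ) ≤
      ((W.image (vZ b δ α (dg d b) 1 (t₀.val : ℤ) s (m * J))).card : ℝ) ^ θ * X ^ J :=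
    h2.trans (mul_le_mul_of_nonneg_left (h1.trans ht₀) (Real.rpow_nonneg (Nat.cast_nonneg _) _))
  have h4 := pow_le_pow_left₀ (Real.rpow_nonneg (Nat.cast_nonneg _) _) h3 d
  have hpow : ∀ a : ℝ, 0 ≤ a → (a ^ θ) ^ d = a := by
    intro a ha
    rw [← Real.rpow_natCast, ← Real.rpow_mul ha, hθ, one_div, inv_mul_cancel₀ hd0.ne', Real.rpow_one]
  have hpow1 : ∀ a : ℝ, 0 ≤ a → (a ^ (1 + θ)) ^ d = a ^ (d + 1) := by
    intro a ha
    rw [← Real.rpow_natCast, ← Real.rpow_mul ha, hθ, ← Real.rpow_natCast]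
    congr 1
    push_cast
    field_simp
  rw [mul_pow, hpow _ (Nat.cast_nonneg _), hpow1 _ (Nat.cast_nonneg _)] at h4
  refine h4.trans (le_of_eq ?_)
  congr 1
  rw [← pow_mul, mul_comm J d, pow_mul, hX, mul_pow _ ((b:ℝ) ^ (d * m)) d,
    mul_pow ((N:ℝ) ^ (1 + θ)) P d, hpow1 _ hN0.le]

end Pool.Agent.N269.MX
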