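import Pool.Agent.N269.MX.Mx

set_option autoImplicit false

/-!
# Power sums of multiplicities

`pw θ Ω g = ∑_{w ∈ Ω} (#{w' ∈ Ω : g w' = g w})^θ = ∑_x (#{w ∈ Ω : g w = x})^(1+θ)`.
-/

open Finset

namespace Pool.Agent.N269.MX
open Pool.Agent.N269.AK

section
variable {α β υ : Type*}

open Classical in
/-- The elements with the property `P`. -/
noncomputable def fl (Ω : Finset α) (P : α → Prop) : Finset α := Ω.filter P

theorem mem_fl {Ω : Finset α} {P : α → Prop} {w : α} : w ∈ fl Ω P ↔ w ∈ Ω ∧ P w := by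
  classical
  unfold fl
  exact mem_filter

theorem fl_eq (Ω : Finset α) (P : α → Prop) [DecidablePred P] : fl Ω P = Ω.filter P := by
  ext w
  rw [mem_fl, mem_filter]

/-- The power sum of the multiplicities of the values of `g` on `Ω`. -/
noncomputable def pw (θ : ℝ) (Ω : Finset α) (g : α → β) : ℝ :=
  ∑ w ∈ Ω, ((fl Ω fun w' => g w' = g w).card : ℝ) ^ θ

theorem pw_nonneg (θ : ℝ) (Ω : Finset α) (g : α → β) : 0 ≤ pw θ Ω g :=
  sum_nonneg fun _ _ => Real.rpow_nonneg (Nat.cast_nonneg _) _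

theorem card_le_pw {θ : ℝ} (hθ : 0 ≤ θ) (Ω : Finset α) (g : α → β) : (Ω.card : ℝ) ≤ pw θ Ω g := by
  unfold pw
  rw [card_eq_sum_ones, Nat.cast_sum]
  refine sum_le_sum fun w hw => ?_
  rw [Nat.cast_one]
  refine Real.one_le_rpow ?_ hθ
  have : 0 < (fl Ω fun w' => g w' = g w).card := card_pos.2 ⟨w, mem_fl.2 ⟨hw, rfl⟩⟩
  exact_mod_cast this

theorem pw_le_card {θ : ℝ} (hθ1 : θ ≤ 1) (Ω : Finset α) (g : α → β) :
    pw θ Ω g ≤ (Ω.card : ℝ) * Ω.card := by
  unfold pw
  rw [← nsmul_eq_mul, ← sum_const]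
  refine sum_le_sum fun w hw => ?_
  have h1 : (1:ℝ) ≤ ((fl Ω fun w' => g w' = g w).card : ℝ) := by
    have : 0 < (fl Ω fun w' => g w' = g w).card := card_pos.2 ⟨w, mem_fl.2 ⟨hw, rfl⟩⟩
    exact_mod_cast this
  calc ((fl Ω fun w' => g w' = g w).card : ℝ) ^ θ
      ≤ ((fl Ω fun w' => g w' = g w).card : ℝ) ^ (1:ℝ) :=
        Real.rpow_le_rpow_of_exponent_le h1 hθ1
    _ = ((fl Ω fun w' => g w' = g w).card : ℝ) := Real.rpow_one _
    _ ≤ Ω.card := by
        have : (fl Ω fun w' => g w' = g w).card ≤ Ω.card :=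
          card_le_card fun x hx => (mem_fl.1 hx).1
        exact_mod_cast this

/-- Comparison along an injective map. -/
theorem pw_le_of_inj {α' β' : Type*} {θ : ℝ} (hθ : 0 ≤ θ) {Ω : Finset α} {Ω' : Finset α'}
    {g : α → β} {g' : α' → β'} (φ : α → α') (hφ : ∀ w ∈ Ω, φ w ∈ Ω')
    (hinj : ∀ w ∈ Ω, ∀ w' ∈ Ω, φ w = φ w' → w = w')
    (hg : ∀ w ∈ Ω, ∀ w' ∈ Ω, g w' = g w → g' (φ w') = g' (φ w)) :
    pw θ Ω g ≤ pw θ Ω' g' := by
  classical
  unfold pw
  calc ∑ w ∈ Ω, ((fl Ω fun w' => g w' = g w).card : ℝ) ^ θ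
      ≤ ∑ w ∈ Ω, ((fl Ω' fun w' => g' w' = g' (φ w)).card : ℝ) ^ θ := by
        refine sum_le_sum fun w hw => Real.rpow_le_rpow (Nat.cast_nonneg _) ?_ hθ
        have h1 : (fl Ω fun w' => g w' = g w).card ≤
            (fl Ω' fun w' => g' w' = g' (φ w)).card := by
          refine card_le_card_of_injOn φ ?_ ?_
          · intro w' hw'
            rw [mem_coe, mem_fl] at hw' ⊢
            exact ⟨hφ w' hw'.1, hg w hw w' hw'.1 hw'.2⟩
          · intro w₁ h₁ w₂ h₂ h
            rw [mem_coe, mem_fl] at h₁ h₂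
            exact hinj w₁ h₁.1 w₂ h₂.1 h
        exact_mod_cast h1
    _ = ∑ v ∈ Ω.image φ, ((fl Ω' fun w' => g' w' = g' v).card : ℝ) ^ θ := by
        rw [sum_image fun w hw w' hw' h => hinj w hw w' hw' h]
    _ ≤ _ := by
        refine sum_le_sum_of_subset_of_nonneg ?_ fun _ _ _ => Real.rpow_nonneg (Nat.cast_nonneg _) _
        intro v hv
        rw [mem_image] at hv
        obtain ⟨w, hw, rfl⟩ := hv
        exact hφ w hw

theorem sum_fl_of_maps {Ω : Finset α} {X : Finset β} {g : α → β} (hX : ∀ w ∈ Ω, g w ∈ X)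
    (f : α → ℝ) : ∑ x ∈ X, ∑ w ∈ fl Ω (fun w => g w = x), f w = ∑ w ∈ Ω, f w := by
  classical
  rw [← sum_fiberwise_of_maps_to hX]
  refine sum_congr rfl fun x _ => ?_
  rw [fl_eq]

theorem pw_eq {θ : ℝ} (hθ : 0 ≤ θ) {Ω : Finset α} {g : α → β} {X : Finset β}
    (hX : ∀ w ∈ Ω, g w ∈ X) :
    pw θ Ω g = ∑ x ∈ X, ((fl Ω fun w => g w = x).card : ℝ) ^ (1 + θ) := by
  unfold pw
  rw [← sum_fl_of_maps hX]
  refine sum_congr rfl fun x _ => ?_
  rw [Real.rpow_one_add' (Nat.cast_nonneg _) (by linarith)]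
  rw [← nsmul_eq_mul, ← sum_const]
  refine sum_congr rfl fun w hw => ?_
  rw [mem_fl] at hw
  rw [hw.2]

/-- **Decomposition into parts**: if `N (π w)` bounds the number of parts which contain a point with
the same value as `w`, the power sum is at most the sum over the parts, weighted by `N^θ`. -/
theorem pw_fib {θ : ℝ} (hθ : 0 ≤ θ) {Ω : Finset α} {g : α → β} (π : α → υ) (U : Finset υ)
    (hU : ∀ w ∈ Ω, π w ∈ U) (N : υ → ℝ)
    (hN : ∀ w ∈ Ω, ((fl U fun u => ∃ w' ∈ Ω, π w' = u ∧ g w' = g w).card : ℝ) ≤ N (π w)) :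
    pw θ Ω g ≤ ∑ u ∈ U, N u ^ θ * pw θ (fl Ω fun w => π w = u) g := by
  classical
  set X := Ω.image g with hX
  have hX' : ∀ w ∈ Ω, g w ∈ X := fun w hw => mem_image_of_mem _ hw
  have hθ1 : (1:ℝ) ≤ 1 + θ := by linarith
  rw [pw_eq hθ hX']
  have h1 : ∀ u, pw θ (fl Ω fun w => π w = u) g =
      ∑ x ∈ X, ((fl (fl Ω fun w => π w = u) fun w => g w = x).card : ℝ) ^ (1 + θ) :=
    fun u => pw_eq hθ fun w hw => hX' w (mem_fl.1 hw).1
  simp only [h1, mul_sum]
  rw [sum_comm]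
  refine sum_le_sum fun x hx => ?_
  set f : υ → ℝ := fun u => ((fl (fl Ω fun w => π w = u) fun w => g w = x).card : ℝ) with hf
  set V : Finset υ := fl U fun u => ∃ w' ∈ Ω, π w' = u ∧ g w' = x with hV
  have h2 : ((fl Ω fun w => g w = x).card : ℝ) = ∑ u ∈ V, f u := by
    rw [hf]
    rw [card_eq_sum_card_fiberwise (f := π) (t := V)]
    · push_cast
      refine sum_congr rfl fun u _ => ?_
      congr 2
      ext w
      simp only [mem_filter, mem_fl]
      tauto
    · intro w hw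
      rw [mem_coe, mem_fl] at hw
      rw [mem_coe, hV, mem_fl]
      exact ⟨hU w hw.1, w, hw.1, rfl, hw.2⟩
  rw [h2]
  have hf0 : ∀ u, 0 ≤ f u := fun u => Nat.cast_nonneg _
  calc (∑ u ∈ V, f u) ^ (1 + θ) ≤ (V.card : ℝ) ^ (1 + θ - 1) * ∑ u ∈ V, f u ^ (1 + θ) :=
        Real.rpow_sum_le_const_mul_sum_rpow_of_nonneg _ hθ1 (fun u _ => hf0 u)
    _ = ∑ u ∈ V, (V.card : ℝ) ^ θ * f u ^ (1 + θ) := by
        rw [mul_sum, add_sub_cancel_left]
    _ ≤ ∑ u ∈ V, N u ^ θ * f u ^ (1 + θ) := by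
        refine sum_le_sum fun u hu => ?_
        rw [hV, mem_fl] at hu
        obtain ⟨-, w, hw, rfl, hwx⟩ := hu
        refine mul_le_mul_of_nonneg_right (Real.rpow_le_rpow (Nat.cast_nonneg _) ?_ hθ)
          (Real.rpow_nonneg (hf0 _) _)
        refine le_trans (le_of_eq ?_) (hN w hw)
        rw [hV, hwx]
    _ ≤ ∑ u ∈ U, N u ^ θ * f u ^ (1 + θ) := by
        have hne : ∀ u ∈ U, u ∉ V → f u = 0 := by
          intro u hu hu'
          rw [hf]
          simp only [Nat.cast_eq_zero, card_eq_zero]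
          rw [eq_empty_iff_forall_notMem]
          intro w hw
          rw [mem_fl, mem_fl] at hw
          exact hu' (mem_fl.2 ⟨hu, w, hw.1.1, hw.1.2, hw.2⟩)
        refine le_of_eq (sum_subset (fun u hu => (mem_fl.1 hu).1) fun u hu hu' => ?_)
        rw [hne u hu hu', Real.zero_rpow (by linarith), mul_zero]

end

/-- **From the maximal estimate to multiplicities at the heights**, sum over all heights. -/
theorem ring_pw {R κ : Type} [CommRing R] [Fintype R] [DecidableEq R] [Fintype κ] {d C D J : ℕ}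
    (hd : 1 ≤ d) (hMx : Mx R d C D) (hJ1 : 1 ≤ J) (hJ : Fintype.card R < 2 ^ J)
    (P S : κ → Fin d → R) (hS : Function.Injective S) :
    ∑ t : R, pw (1 / (d:ℝ)) (univ : Finset κ) (fun u => P u + t • S u) ≤
      2 * (C * J ^ D) * (Fintype.card κ * Fintype.card R) := by
  classical
  set θ : ℝ := 1 / (d:ℝ) with hθ
  have hd0 : (0:ℝ) < d := by exact_mod_cast hd
  have hθ0 : 0 < θ := by rw [hθ]; positivity
  set F : R × (Fin d → R) → ℕ := fun z => (univ.filter fun u => P u + z.1 • S u = z.2).card with hF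
  set g : R × (Fin d → R) → ℕ := fun z => ⌈(F z : ℝ) ^ θ⌉₊ with hg
  set N : ℕ := Fintype.card R with hN
  set k : ℕ := Fintype.card κ with hk
  have hkN : k ≤ N ^ d := by
    have := Fintype.card_le_of_injective S hS
    rwa [Fintype.card_fun, Fintype.card_fin] at this
  have hpow : ∀ a : ℝ, 0 ≤ a → (a ^ θ) ^ d = a := by
    intro a ha
    rw [← Real.rpow_natCast, ← Real.rpow_mul ha, hθ, one_div, inv_mul_cancel₀ hd0.ne', Real.rpow_one]
  have hgN : ∀ z, g z < 2 ^ J := by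
    intro z
    refine lt_of_le_of_lt ?_ hJ
    rw [hg]
    refine Nat.ceil_le.2 ?_
    have h1 : (F z : ℝ) ≤ (N:ℝ) ^ d := by
      have h2 : F z ≤ N ^ d := (card_le_univ _).trans hkN
      exact_mod_cast h2
    calc (F z : ℝ) ^ θ ≤ ((N:ℝ) ^ d) ^ θ := Real.rpow_le_rpow (Nat.cast_nonneg _) h1 hθ0.le
      _ = N := by
        rw [← Real.rpow_natCast, ← Real.rpow_mul (Nat.cast_nonneg _), hθ, one_div,
          mul_inv_cancel₀ hd0.ne', Real.rpow_one]
  have hgd : ∀ z, g z ^ d ≤ 2 ^ d * F z := by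
    intro z
    have h1 : (g z : ℝ) ≤ 2 * (F z : ℝ) ^ θ := by
      rcases Nat.eq_zero_or_pos (F z) with h0 | h0
      · rw [hg]
        simp only [h0, Nat.cast_zero]
        rw [Real.zero_rpow hθ0.ne', Nat.ceil_zero]
        simp
      · have h2 : (1:ℝ) ≤ (F z : ℝ) ^ θ := Real.one_le_rpow (by exact_mod_cast h0) hθ0.le
        have h3 := (Nat.ceil_lt_add_one (Real.rpow_nonneg (Nat.cast_nonneg (F z)) θ)).le
        rw [hg]
        simp only
        linarith
    have h2 : (g z : ℝ) ^ d ≤ 2 ^ d * (F z : ℝ) := by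
      calc (g z : ℝ) ^ d ≤ (2 * (F z : ℝ) ^ θ) ^ d := pow_le_pow_left₀ (Nat.cast_nonneg _) h1 d
        _ = 2 ^ d * (F z : ℝ) := by rw [mul_pow, hpow _ (Nat.cast_nonneg _)]
    exact_mod_cast h2
  -- the sum of `F g`
  set T : ℕ := ∑ z, F z * g z with hT
  have hT1 : T = ∑ u : κ, ∑ t : R, g (t, P u + t • S u) := by
    rw [hT, sum_comm, Fintype.sum_prod_type]
    refine sum_congr rfl fun t _ => ?_
    have h1 : ∀ y, F (t, y) * g (t, y) = ∑ u : κ, if P u + t • S u = y then g (t, y) else 0 := by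
      intro y
      rw [← sum_filter, sum_const, smul_eq_mul]
    simp only [h1]
    rw [sum_comm]
    refine sum_congr rfl fun u _ => ?_
    rw [sum_ite_eq]
    simp
  have hsel : T ^ (d + 1) ≤ k ^ d * (C * J ^ D * (N ^ d * ∑ z, g z ^ (d + 1))) := by
    rw [hT1]
    refine (pow_sum_nat univ _ d).trans ?_
    rw [card_univ]
    refine Nat.mul_le_mul_left _ ?_
    rcases isEmpty_or_nonempty κ with he | hne
    · simp
    have h1 := hMx J hJ1 g hgN (fun b => P (Function.invFun S b))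
    refine le_trans ?_ h1
    calc ∑ u : κ, (∑ t, g (t, P u + t • S u)) ^ (d + 1)
        = ∑ b ∈ univ.image S, (∑ t, g (t, P (Function.invFun S b) + t • b)) ^ (d + 1) := by
          rw [sum_image fun a _ b _ h => hS h]
          refine sum_congr rfl fun u _ => ?_
          rw [Function.leftInverse_invFun hS u]
      _ ≤ _ := sum_le_sum_of_subset (subset_univ _)
  have hgs : ∑ z, g z ^ (d + 1) ≤ 2 ^ d * T := by
    rw [hT, mul_sum]
    refine sum_le_sum fun z _ => ?_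
    calc g z ^ (d + 1) = g z ^ d * g z := pow_succ _ _
      _ ≤ 2 ^ d * F z * g z := Nat.mul_le_mul_right _ (hgd z)
      _ = 2 ^ d * (F z * g z) := by ring
  have hTle : T ≤ 2 * (C * J ^ D) * (k * N) := by
    rcases Nat.eq_zero_or_pos T with h0 | h0
    · rw [h0]; exact Nat.zero_le _
    have h1 : T * T ^ d ≤ T * (2 * (C * J ^ D) * (k * N)) ^ d := by
      calc T * T ^ d = T ^ (d + 1) := by rw [pow_succ]; ring
        _ ≤ k ^ d * (C * J ^ D * (N ^ d * ∑ z, g z ^ (d + 1))) := hsel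
        _ ≤ k ^ d * (C * J ^ D * (N ^ d * (2 ^ d * T))) := by gcongr
        _ = T * ((C * J ^ D) * (2 ^ d * (k * N) ^ d)) := by rw [mul_pow]; ring
        _ ≤ T * ((C * J ^ D) ^ d * (2 ^ d * (k * N) ^ d)) := by
            refine Nat.mul_le_mul_left _ (Nat.mul_le_mul_right _ ?_)
            exact Nat.le_self_pow (by omega) _
        _ = T * (2 * (C * J ^ D) * (k * N)) ^ d := by
            rw [mul_pow (2 * (C * J ^ D)) (k * N) d, mul_pow 2 (C * J ^ D) d]; ring
    have h2 := Nat.le_of_mul_le_mul_left h1 h0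
    exact (Nat.pow_le_pow_iff_left (by omega)).1 h2
  -- comparison with `pw`
  have hpw : ∑ t : R, pw θ (univ : Finset κ) (fun u => P u + t • S u) ≤ (T:ℝ) := by
    rw [hT1]
    push_cast
    rw [sum_comm]
    unfold pw
    rw [sum_comm]
    rw [sum_comm]
    refine sum_le_sum fun t _ => ?_
    refine sum_le_sum fun u _ => ?_
    refine le_trans (le_of_eq ?_) (Nat.le_ceil _)
    simp only [hF]
    rw [fl_eq]
  refine hpw.trans ?_
  have : (T:ℝ) ≤ ((2 * (C * J ^ D) * (k * N) : ℕ) : ℝ) := by exact_mod_cast hTle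
  refine this.trans (le_of_eq ?_)
  push_cast
  ring

end Pool.Agent.N269.MX
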