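import Pool.Agent.N269.MX.Pw
import Mathlib.MeasureTheory.Measure.Lebesgue.Basic

set_option autoImplicit false

/-!
# Integrals of powers of multiplicities over one height
-/

open Finset MeasureTheory
open scoped ENNReal

namespace Pool.Agent.N269.MX

/-- The multiplicity of the cubes with the side `2 ρ / N` around the points `Y w / N`. -/
noncomputable def mul {W : Type} [Fintype W] {d : ℕ} (Y : W → Fin d → ℝ) (N ρ : ℝ)
    (y : Fin d → ℝ) : ℕ := (fl (univ : Finset W) fun w => ∀ a, |N * y a - Y w a| ≤ ρ).card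

/-- The cell. -/
def cube {d : ℕ} (N : ℝ) (c : Fin d → ℤ) : Set (Fin d → ℝ) := {y | ∀ a, ⌊N * y a⌋ = c a}

theorem cube_eq {d : ℕ} {N : ℝ} (hN : 0 < N) (c : Fin d → ℤ) :
    cube N c = Set.pi Set.univ fun a => Set.Ico ((c a : ℝ) / N) (((c a : ℝ) + 1) / N) := by
  ext y
  simp only [cube, Set.mem_ofPred_eq, Set.mem_pi, Set.mem_univ, true_implies, Set.mem_Ico,
    Int.floor_eq_iff, div_le_iff₀ hN, lt_div_iff₀ hN]
  constructor
  · intro h a
    have := h a
    constructor <;> linarith [this.1, this.2]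
  · intro h a
    have := h a
    constructor <;> linarith [this.1, this.2]

theorem cube_vol {d : ℕ} {N : ℝ} (hN : 0 < N) (c : Fin d → ℤ) :
    volume (cube N c) = ENNReal.ofReal ((N⁻¹) ^ d) := by
  rw [cube_eq hN, Real.volume_pi_Ico]
  have h1 : ∀ a : Fin d, ((c a : ℝ) + 1) / N - (c a : ℝ) / N = N⁻¹ := fun a => by
    field_simp
    ring
  simp only [h1]
  rw [prod_const, card_univ, Fintype.card_fin, ENNReal.ofReal_pow (by positivity)]

theorem cube_meas {d : ℕ} {N : ℝ} (hN : 0 < N) (c : Fin d → ℤ) : MeasurableSet (cube N c) := by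
  rw [cube_eq hN]
  exact MeasurableSet.univ_pi fun a => measurableSet_Ico

theorem slice_pt {W : Type} [Fintype W] {d : ℕ} {θ : ℝ} (hθ : 0 ≤ θ) (Y : W → Fin d → ℝ) {N : ℝ}
    {ρ : ℝ} {R : ℕ} (hR : ρ + 1 ≤ R) (y : Fin d → ℝ) :
    (mul Y N ρ y : ℝ) ^ (1 + θ) ≤
      ∑ j ∈ Fintype.piFinset (fun _ : Fin d => Finset.Icc (-(R:ℤ)) R), ∑ w : W,
        (cube N (fun a => ⌊Y w a⌋ - j a)).indicator (fun _ => ((((2 * R + 1) ^ d : ℕ) : ℝ) ^ θ *
          ((fl univ fun w' => (fun a => ⌊Y w' a⌋) = (fun a => ⌊Y w a⌋)).card : ℝ) ^ θ)) y := by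
  classical
  set Box := Fintype.piFinset (fun _ : Fin d => Finset.Icc (-(R:ℤ)) R) with hBox
  have hBc : Box.card = (2 * R + 1) ^ d := by
    rw [hBox, Fintype.card_piFinset, prod_const, card_univ, Fintype.card_fin, Int.card_Icc]
    congr 1
    omega
  have hθ1 : (1:ℝ) ≤ 1 + θ := by linarith
  let Φ : (Fin d → ℤ) → ℕ := fun j => (fl univ fun w => ∀ a, ⌊Y w a⌋ = ⌊N * y a⌋ + j a).card
  have h1 : mul Y N ρ y ≤ ∑ j ∈ Box, Φ j := by
    unfold mul
    rw [card_eq_sum_card_fiberwise (f := fun w a => ⌊Y w a⌋ - ⌊N * y a⌋) (t := Box)]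
    · refine sum_le_sum fun j _ => card_le_card fun w hw => ?_
      rw [mem_filter, mem_fl] at hw
      rw [mem_fl]
      refine ⟨mem_univ _, fun a => ?_⟩
      have := congrFun hw.2 a
      omega
    · intro w hw
      rw [mem_coe, mem_fl] at hw
      rw [mem_coe, hBox, Fintype.mem_piFinset]
      intro a
      rw [Finset.mem_Icc]
      have h2 := abs_le.1 (hw.2 a)
      have h3 := Int.floor_le (Y w a)
      have h4 := Int.lt_floor_add_one (Y w a)
      have h5 := Int.floor_le (N * y a)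
      have h6 := Int.lt_floor_add_one (N * y a)
      have h7 : ((⌊Y w a⌋ - ⌊N * y a⌋ : ℤ) : ℝ) < R := by push_cast; linarith
      have h8 : (-(R:ℤ) : ℝ) < ((⌊Y w a⌋ - ⌊N * y a⌋ : ℤ) : ℝ) := by push_cast; linarith
      have h9 : ⌊Y w a⌋ - ⌊N * y a⌋ < (R:ℤ) := by exact_mod_cast h7
      have h10 : -(R:ℤ) < ⌊Y w a⌋ - ⌊N * y a⌋ := by exact_mod_cast h8
      exact ⟨h10.le, h9.le⟩
  have h2 : ∀ j, (Φ j : ℝ) ^ (1 + θ) = ∑ w : W, (cube N (fun a => ⌊Y w a⌋ - j a)).indicator
      (fun _ => ((fl univ fun w' => (fun a => ⌊Y w' a⌋) = (fun a => ⌊Y w a⌋)).card : ℝ) ^ θ) y := by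
    intro j
    rw [Real.rpow_one_add' (Nat.cast_nonneg _) (by linarith), ← nsmul_eq_mul, ← sum_const]
    rw [← sum_subset (s₁ := fl univ fun w => ∀ a, ⌊Y w a⌋ = ⌊N * y a⌋ + j a) (subset_univ _)]
    · refine sum_congr rfl fun w hw => ?_
      rw [mem_fl] at hw
      have h3 : y ∈ cube N (fun a => ⌊Y w a⌋ - j a) := fun a => by
        have := hw.2 a
        simp only
        omega
      rw [Set.indicator_of_mem h3]
      have h5 : Φ j = (fl univ fun w' => (fun a => ⌊Y w' a⌋) = (fun a => ⌊Y w a⌋)).card := by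
        refine congrArg card (Finset.ext fun w' => ?_)
        rw [mem_fl, mem_fl]
        constructor
        · rintro ⟨_, h4⟩
          refine ⟨mem_univ _, funext fun a => ?_⟩
          rw [h4 a, hw.2 a]
        · rintro ⟨_, h4⟩
          refine ⟨mem_univ _, fun a => ?_⟩
          rw [← hw.2 a]
          exact congrFun h4 a
      rw [h5]
    · intro w _ hw
      rw [Set.indicator_of_notMem]
      intro h3
      apply hw
      rw [mem_fl]
      refine ⟨mem_univ _, fun a => ?_⟩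
      have := h3 a
      simp only at this
      omega
  calc (mul Y N ρ y : ℝ) ^ (1 + θ) ≤ (∑ j ∈ Box, (Φ j : ℝ)) ^ (1 + θ) := by
        refine Real.rpow_le_rpow (Nat.cast_nonneg _) ?_ (by linarith)
        exact_mod_cast h1
    _ ≤ (Box.card : ℝ) ^ (1 + θ - 1) * ∑ j ∈ Box, (Φ j : ℝ) ^ (1 + θ) :=
        Real.rpow_sum_le_const_mul_sum_rpow_of_nonneg _ hθ1 (fun u _ => Nat.cast_nonneg _)
    _ = _ := by
        rw [add_sub_cancel_left, hBc, mul_sum]
        refine sum_congr rfl fun j _ => ?_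
        rw [h2, mul_sum]
        refine sum_congr rfl fun w _ => ?_
        by_cases h : y ∈ cube N (fun a => ⌊Y w a⌋ - j a)
        · rw [Set.indicator_of_mem h, Set.indicator_of_mem h]
        · rw [Set.indicator_of_notMem h, Set.indicator_of_notMem h, mul_zero]

/-- **The integral over one height.** -/
theorem slice {W : Type} [Fintype W] {d : ℕ} {θ : ℝ} (hθ : 0 ≤ θ) (Y : W → Fin d → ℝ) {N : ℝ}
    (hN : 0 < N) {ρ : ℝ} {R : ℕ} (hR : ρ + 1 ≤ R) :
    ∫⁻ y : Fin d → ℝ, ENNReal.ofReal ((mul Y N ρ y : ℝ) ^ (1 + θ)) ≤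
      ENNReal.ofReal ((((2 * R + 1) ^ d : ℕ) : ℝ) ^ (1 + θ) * (N⁻¹) ^ d *
        pw θ univ (fun w a => ⌊Y w a⌋)) := by
  classical
  set Box := Fintype.piFinset (fun _ : Fin d => Finset.Icc (-(R:ℤ)) R) with hBox
  have hBc : Box.card = (2 * R + 1) ^ d := by
    rw [hBox, Fintype.card_piFinset, prod_const, card_univ, Fintype.card_fin, Int.card_Icc]
    congr 1
    omega
  set κ : ℝ := (((2 * R + 1) ^ d : ℕ) : ℝ) with hκ
  have hκ0 : 0 ≤ κ := Nat.cast_nonneg _
  set F : W → ℝ := fun w =>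
    ((fl univ fun w' => (fun a => ⌊Y w' a⌋) = (fun a => ⌊Y w a⌋)).card : ℝ) ^ θ with hF
  have hF0 : ∀ w, 0 ≤ F w := fun w => Real.rpow_nonneg (Nat.cast_nonneg _) _
  have hκθ : 0 ≤ κ ^ θ := Real.rpow_nonneg hκ0 _
  calc ∫⁻ y : Fin d → ℝ, ENNReal.ofReal ((mul Y N ρ y : ℝ) ^ (1 + θ))
      ≤ ∫⁻ y : Fin d → ℝ, ∑ j ∈ Box, ∑ w : W,
          (cube N (fun a => ⌊Y w a⌋ - j a)).indicator (fun _ => ENNReal.ofReal (κ ^ θ * F w)) y := by
        refine lintegral_mono fun y => ?_
        refine (ENNReal.ofReal_le_ofReal (slice_pt hθ Y hR y)).trans (le_of_eq ?_)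
        rw [ENNReal.ofReal_sum_of_nonneg fun j _ => sum_nonneg fun w _ =>
          Set.indicator_nonneg (fun _ _ => mul_nonneg hκθ (hF0 w)) _]
        refine sum_congr rfl fun j _ => ?_
        rw [ENNReal.ofReal_sum_of_nonneg fun w _ =>
          Set.indicator_nonneg (fun _ _ => mul_nonneg hκθ (hF0 w)) _]
        refine sum_congr rfl fun w _ => ?_
        by_cases h : y ∈ cube N (fun a => ⌊Y w a⌋ - j a)
        · rw [Set.indicator_of_mem h, Set.indicator_of_mem h]
        · rw [Set.indicator_of_notMem h, Set.indicator_of_notMem h, ENNReal.ofReal_zero]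
    _ = ∑ j ∈ Box, ∑ w : W, ENNReal.ofReal (κ ^ θ * F w) * ENNReal.ofReal ((N⁻¹) ^ d) := by
        rw [lintegral_finsetSum _ fun j _ => Finset.measurable_sum _ fun w _ =>
          measurable_const.indicator (cube_meas hN _)]
        refine sum_congr rfl fun j _ => ?_
        rw [lintegral_finsetSum _ fun w _ => measurable_const.indicator (cube_meas hN _)]
        refine sum_congr rfl fun w _ => ?_
        rw [lintegral_indicator_const (cube_meas hN _), cube_vol hN]
    _ = ENNReal.ofReal (κ * (κ ^ θ * ∑ w, F w * (N⁻¹) ^ d)) := by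
        rw [sum_const, hBc, nsmul_eq_mul]
        have h1 : ∀ w, ENNReal.ofReal (κ ^ θ * F w) * ENNReal.ofReal ((N⁻¹) ^ d) =
            ENNReal.ofReal (κ ^ θ * (F w * (N⁻¹) ^ d)) := fun w => by
          rw [← ENNReal.ofReal_mul (mul_nonneg hκθ (hF0 w)), mul_assoc]
        simp only [h1]
        rw [← ENNReal.ofReal_sum_of_nonneg fun w _ =>
          mul_nonneg hκθ (mul_nonneg (hF0 w) (by positivity)), ← mul_sum,
          ENNReal.ofReal_mul hκ0, hκ, ENNReal.ofReal_natCast]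
    _ = _ := by
        congr 1
        rw [Real.rpow_one_add' hκ0 (by linarith), ← sum_mul]
        unfold pw
        rw [hF]
        ring

end Pool.Agent.N269.MX
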